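import Pool.Agent.H35.XL.Q116_KR_Forms

set_option autoImplicit false

/-!
Zarankiewicz problem for `K_{s,t}`: links, diagonal descent for all exponents.
-/

namespace Q116.ZK

open Finset Filter SimpleGraph Q116.KR

open scoped Classical in
/-- **The link of a vertex.** -/
lemma exists_link' {A B : Type} [Fintype A] [Fintype B] (R : A → B → Prop)
    (m : ℕ) (hpos : 0 < cnt R) (h4 : 4 * (Fintype.card B : ℝ) ≤ cnt R) :
    ∃ (A' B' : Type) (_ : Fintype A') (_ : Fintype B') (R' : A' → B' → Prop),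
      Fintype.card A' ≤ Fintype.card A ∧ Fintype.card B' ≤ m ∧
      (∀ s t, NoST R (s + 1) t → NoST R' s t) ∧
      min (cnt R ^ 2 / (4 * Fintype.card A * Fintype.card B))
        (m * (cnt R / (4 * Fintype.card B))) ≤ cnt R' := by
  set e := cnt R with he
  set a : ℝ := (Fintype.card A : ℝ) with ha
  set b : ℝ := (Fintype.card B : ℝ) with hb
  let d : B → ℝ := fun β => ∑ α : A, if R α β then (1 : ℝ) else 0
  have hd0 : ∀ β, 0 ≤ d β := fun β => sum_nonneg (fun α _ => by split_ifs <;> norm_num)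
  have hsum : ∑ β, d β = e := rfl
  have hb0 : 0 < b := by
    rw [hb]
    have : Nonempty B := by
      by_contra h
      rw [not_nonempty_iff] at h
      have : cnt R = 0 := by unfold cnt; simp
      rw [← he] at this
      linarith
    exact_mod_cast Fintype.card_pos
  have ha0 : 0 < a := by
    rw [ha]
    have : Nonempty A := by
      by_contra h
      rw [not_nonempty_iff] at h
      have : cnt R = 0 := by unfold cnt; simp
      rw [← he] at this
      linarith
    exact_mod_cast Fintype.card_pos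
  have hcs : e ^ 2 / b ≤ ∑ β, d β ^ 2 := by
    rw [div_le_iff₀ hb0, ← hsum]
    have := sq_sum_le_card_mul_sum_sq (s := (univ : Finset B)) (f := d)
    rw [card_univ] at this
    linarith
  set lam := e / (2 * b) with hlam
  let w : A → B → ℝ := fun α β => if R α β then d β else 0
  let N : A → Finset B := fun α => univ.filter (fun β => R α β)
  have hNw : ∀ α, ∑ β ∈ N α, d β = ∑ β, w α β := by
    intro α
    rw [sum_filter]
  have hNc : ∀ α, ((N α).card : ℝ) = ∑ β, if R α β then (1 : ℝ) else 0 := by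
    intro α
    rw [sum_boole]
  have htot : ∑ α, (∑ β ∈ N α, d β - lam * (N α).card) = ∑ β, d β ^ 2 - lam * e := by
    rw [sum_sub_distrib, ← mul_sum]
    congr 1
    · rw [sum_congr rfl (fun α _ => hNw α), sum_comm]
      apply sum_congr rfl
      intro β _
      have : ∀ α, w α β = (if R α β then (1 : ℝ) else 0) * d β := by
        intro α
        simp only [w]
        split_ifs <;> simp
      rw [sum_congr rfl (fun α _ => this α), ← sum_mul, sq]
    · congr 1
      rw [sum_congr rfl (fun α _ => hNc α), sum_comm]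
      exact hsum
  have hex : ∃ v : A, e ^ 2 / (2 * a * b) ≤ ∑ β ∈ N v, d β - lam * (N v).card := by
    by_contra hno
    push Not at hno
    have hne : (univ : Finset A).Nonempty := by
      rw [← card_pos, card_univ]
      rw [ha] at ha0
      exact_mod_cast ha0
    have h1 := sum_lt_sum_of_nonempty hne (fun v (_ : v ∈ univ) => hno v)
    rw [htot, sum_const, card_univ, nsmul_eq_mul, ← ha] at h1
    have h2 : a * (e ^ 2 / (2 * a * b)) = e ^ 2 / (2 * b) := by field_simp
    have h3 : lam * e = e ^ 2 / (2 * b) := by rw [hlam]; field_simp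
    have h5 : e ^ 2 / b = e ^ 2 / (2 * b) + e ^ 2 / (2 * b) := by field_simp; norm_num
    rw [h2, h3] at h1
    linarith
  obtain ⟨v, hv⟩ := hex
  set E1 := ∑ β ∈ N v, d β with hE1
  set k : ℝ := ((N v).card : ℝ) with hk
  have hlam2 : 2 ≤ lam := by
    rw [hlam, le_div_iff₀ (by positivity)]
    linarith
  have hk0 : 0 ≤ k := Nat.cast_nonneg _
  have hE1a : e ^ 2 / (2 * a * b) ≤ E1 := by nlinarith
  have hq : 0 < e ^ 2 / (2 * a * b) := by positivity
  have hE1b : lam * k ≤ E1 := by linarith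
  let w' : B → ℝ := fun β => ∑ α : A, if α ≠ v ∧ R α β then (1 : ℝ) else 0
  have hw'0 : ∀ β, 0 ≤ w' β := fun β => sum_nonneg (fun α _ => by split_ifs <;> norm_num)
  have hw' : ∀ β ∈ N v, w' β = d β - 1 := by
    intro β hβ
    rw [mem_filter] at hβ
    simp only [w', d]
    rw [← add_sum_erase univ (fun α => if R α β then (1 : ℝ) else 0) (mem_univ v), if_pos hβ.2,
      ← add_sum_erase univ (fun α => if α ≠ v ∧ R α β then (1 : ℝ) else 0) (mem_univ v),
      if_neg (by simp), zero_add, add_sub_cancel_left]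
    apply sum_congr rfl
    intro α hα
    rw [mem_erase] at hα
    by_cases h : R α β
    · rw [if_pos ⟨hα.1, h⟩, if_pos h]
    · rw [if_neg (fun h' => h h'.2), if_neg h]
  have hE2 : ∑ β ∈ N v, w' β = E1 - k := by
    rw [sum_congr rfl hw', sum_sub_distrib, sum_const, nsmul_eq_mul, mul_one]
  have hE2a : E1 / 2 ≤ ∑ β ∈ N v, w' β := by
    rw [hE2]
    nlinarith
  obtain ⟨N', hN', hN'c, hN's⟩ : ∃ N' ⊆ N v, N'.card ≤ m ∧
      min (e ^ 2 / (4 * a * b)) (m * (e / (4 * b))) ≤ ∑ β ∈ N', w' β := by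
    rcases Nat.le_total (N v).card m with h | h
    · refine ⟨N v, Subset.refl _, h, (min_le_left _ _).trans ?_⟩
      refine le_trans ?_ hE2a
      have : e ^ 2 / (4 * a * b) = e ^ 2 / (2 * a * b) / 2 := by field_simp; norm_num
      rw [this]
      linarith
    · obtain ⟨N', h1, h2, h3⟩ := exists_sub_share w' hw'0 (N v) m h
      refine ⟨N', h1, h2.le, (min_le_right _ _).trans ?_⟩
      have hkpos : 0 < k := by
        rcases hk0.eq_or_lt with h0 | h0
        · exfalso
          have : (N v).card = 0 := by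
            have : ((N v).card : ℝ) = 0 := by rw [← hk]; exact h0.symm
            exact_mod_cast this
          have : N v = ∅ := card_eq_zero.1 this
          rw [hE1, this, sum_empty] at hE1a
          linarith
        · exact h0
      rw [← hk] at h3
      have h5 : (m : ℝ) * (lam * k / 2) ≤ k * ∑ β ∈ N', w' β := by
        refine le_trans ?_ h3
        gcongr
        linarith
      have h6 : k * (m * (e / (4 * b))) ≤ k * ∑ β ∈ N', w' β := by
        refine le_trans (le_of_eq ?_) h5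
        rw [hlam]
        field_simp
        norm_num
      exact le_of_mul_le_mul_left h6 hkpos
  refine ⟨{α : A // α ≠ v}, {β : B // β ∈ N'}, inferInstance, inferInstance,
    fun α β => R α.1 β.1, ?_, ?_, ?_, ?_⟩
  · exact Fintype.card_subtype_le _
  · rw [Fintype.card_coe]; exact hN'c
  · rintro s t hR ⟨x, y, hx, hy, hxy⟩
    apply hR
    refine ⟨Fin.cons v (fun i => (x i).1), fun j => (y j).1, ?_, ?_, ?_⟩
    · rw [Fin.cons_injective_iff]
      refine ⟨?_, ?_⟩
      · rintro ⟨i, hi⟩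
        exact (x i).2 hi
      · intro i j hij
        exact hx (Subtype.ext hij)
    · intro i j hij
      exact hy (Subtype.ext hij)
    · intro i j
      refine Fin.cases ?_ (fun i => ?_) i
      · have := hN' (y j).2
        rw [mem_filter] at this
        simpa using this.2
      · simpa using hxy i j
  · refine hN's.trans (le_of_eq ?_)
    unfold cnt
    rw [← sum_coe_sort N' w']
    apply sum_congr rfl
    intro β _
    simp only [w']
    rw [← Finset.sum_subtype (univ.filter (fun α => α ≠ v)) (by simp)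
      (fun α => if R α β then (1 : ℝ) else 0), sum_filter]
    apply sum_congr rfl
    intro α _
    by_cases h1 : α = v
    · rw [if_neg (fun h => h.1 h1), if_neg (fun h => h h1)]
    · by_cases h2 : R α β
      · rw [if_pos ⟨h1, h2⟩, if_pos h1, if_pos h2]
      · rw [if_neg (fun h => h2 h.2), if_pos h1, if_neg h2]


/-- The relations: sizes `y ^ p`, `y ^ q`, all the pairs in `P` are excluded, at least
`c y ^ (p + q - 1)` ones. -/
def ZZ (P : ℕ → ℕ → Prop) (p q : ℝ) : Prop :=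
  ∃ c : ℝ, 0 < c ∧ ∃ y0 : ℝ, ∀ y : ℝ, y0 ≤ y → ∃ (A B : Type) (_ : Fintype A) (_ : Fintype B)
    (R : A → B → Prop), (Fintype.card A : ℝ) ≤ y ^ p ∧ (Fintype.card B : ℝ) ≤ y ^ q ∧
    (∀ σ τ, P σ τ → NoST R σ τ) ∧ c * y ^ (p + q - 1) ≤ cnt R

lemma ZZ.flip {P : ℕ → ℕ → Prop} {p q : ℝ} (h : ZZ P p q) : ZZ (fun σ τ => P τ σ) q p := by
  obtain ⟨c, hc, y0, h⟩ := h
  refine ⟨c, hc, y0, fun y hy => ?_⟩
  obtain ⟨A, B, iA, iB, R, h1, h2, h3, h4⟩ := h y hy
  exact ⟨B, A, iB, iA, fun b a => R a b, h2, h1, fun σ τ hP => (h3 _ _ hP).flip,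
    by rw [cnt_flip, add_comm q p]; exact h4⟩

lemma ZZ.mono {P P' : ℕ → ℕ → Prop} {p q : ℝ} (h : ZZ P p q) (hP : ∀ σ τ, P' σ τ → P σ τ) :
    ZZ P' p q := by
  obtain ⟨c, hc, y0, h⟩ := h
  refine ⟨c, hc, y0, fun y hy => ?_⟩
  obtain ⟨A, B, iA, iB, R, h1, h2, h3, h4⟩ := h y hy
  exact ⟨A, B, iA, iB, R, h1, h2, fun σ τ hh => h3 _ _ (hP _ _ hh), h4⟩

lemma ZZ.link {P : ℕ → ℕ → Prop} {p q : ℝ} (hp : 1 < p) (hq : 1 ≤ q) (h : ZZ P p q) :
    ZZ (fun σ τ => P (σ + 1) τ) p (q - 1) := by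
  obtain ⟨c, hc, y0, h⟩ := h
  refine ⟨min (c ^ 2 / 4) (c / 8), by positivity, max y0 (max 1 ((4 / c) ^ (1 / (p - 1)))),
    fun y hy => ?_⟩
  have hy1 : y0 ≤ y := (le_max_left _ _).trans hy
  have hy2 : 1 ≤ y := (le_max_left _ _).trans ((le_max_right _ _).trans hy)
  have hy3 : (4 / c) ^ (1 / (p - 1)) ≤ y :=
    (le_max_right _ _).trans ((le_max_right _ _).trans hy)
  obtain ⟨A, B, iA, iB, R, h1, h2, h3, h4⟩ := h y hy1
  have hy0 : 0 < y := by linarith
  have hpos : 0 < cnt R := lt_of_lt_of_le (by positivity) h4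
  obtain ⟨hA, hB⟩ := card_pos_of_cnt hpos
  have hA' : (0 : ℝ) < Fintype.card A := by exact_mod_cast hA
  have hB' : (0 : ℝ) < Fintype.card B := by exact_mod_cast hB
  have hp1 : 0 < p - 1 := by linarith
  have hyp : 4 / c ≤ y ^ (p - 1) := by
    have := Real.rpow_le_rpow (by positivity) hy3 hp1.le
    rw [← Real.rpow_mul (by positivity), one_div, inv_mul_cancel₀ hp1.ne', Real.rpow_one] at this
    exact this
  have hbig : 4 * y ^ q ≤ c * y ^ (p + q - 1) := by
    have e2 : y ^ (p + q - 1) = y ^ (p - 1) * y ^ q := by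
      rw [← Real.rpow_add hy0]
      congr 1
      ring
    rw [div_le_iff₀ hc] at hyp
    rw [e2]
    have : 0 < y ^ q := by positivity
    nlinarith
  have hm1 : 1 ≤ y ^ (q - 1) := Real.one_le_rpow hy2 (by linarith)
  set m : ℕ := ⌊y ^ (q - 1)⌋₊ with hm
  have hmle : (m : ℝ) ≤ y ^ (q - 1) := Nat.floor_le (by positivity)
  have hmge : y ^ (q - 1) / 2 ≤ m := by
    have h5 : y ^ (q - 1) < m + 1 := Nat.lt_floor_add_one _
    have h6 : 1 ≤ m := by
      rw [hm, Nat.le_floor_iff (by positivity)]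
      exact_mod_cast hm1
    have h7 : (1 : ℝ) ≤ m := by exact_mod_cast h6
    linarith
  obtain ⟨A', B', iA', iB', R', g1, g2, g3, g4⟩ := exists_link' R m hpos (by linarith)
  refine ⟨A', B', iA', iB', R', ?_, ?_, fun σ τ hP => g3 _ _ (h3 _ _ hP), le_trans ?_ g4⟩
  · have : (Fintype.card A' : ℝ) ≤ Fintype.card A := by exact_mod_cast g1
    exact this.trans h1
  · have : (Fintype.card B' : ℝ) ≤ m := by exact_mod_cast g2
    exact this.trans hmle
  have ey : 0 < y ^ (p + (q - 1) - 1) := by positivity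
  have e5 : y ^ (p + q - 1) = y ^ (p + (q - 1) - 1) * y := by
    nth_rewrite 3 [← Real.rpow_one y]
    rw [← Real.rpow_add hy0]
    congr 1
    ring
  apply le_min
  · refine le_trans (mul_le_mul_of_nonneg_right (min_le_left _ _) ey.le) ?_
    rw [le_div_iff₀ (by positivity)]
    have k1 : (Fintype.card A : ℝ) * Fintype.card B ≤ y ^ p * y ^ q := by gcongr
    have k2 : y ^ p * y ^ q = y ^ (p + q - 1) * y := by
      nth_rewrite 4 [← Real.rpow_one y]
      rw [← Real.rpow_add hy0, ← Real.rpow_add hy0]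
      congr 1
      ring
    have k3 : (c * y ^ (p + q - 1)) ^ 2 ≤ cnt R ^ 2 := by gcongr
    refine le_trans ?_ k3
    calc c ^ 2 / 4 * y ^ (p + (q - 1) - 1) * (4 * Fintype.card A * Fintype.card B)
        = c ^ 2 * y ^ (p + (q - 1) - 1) * (Fintype.card A * Fintype.card B) := by ring
      _ ≤ c ^ 2 * y ^ (p + (q - 1) - 1) * (y ^ (p + q - 1) * y) := by
          rw [← k2]
          gcongr
      _ = (c * y ^ (p + q - 1)) ^ 2 := by
          rw [e5]
          ring
  · refine le_trans (mul_le_mul_of_nonneg_right (min_le_right _ _) ey.le) ?_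
    have k1 : c * y ^ (p + q - 1) / (4 * y ^ q) ≤ cnt R / (4 * Fintype.card B) := by
      gcongr
    refine le_trans ?_ (mul_le_mul_of_nonneg_left k1 (Nat.cast_nonneg m))
    refine le_trans ?_ (mul_le_mul_of_nonneg_right hmge (by positivity))
    have k2 : y ^ q = y ^ (q - 1) * y := by
      nth_rewrite 3 [← Real.rpow_one y]
      rw [← Real.rpow_add hy0]
      congr 1
      ring
    rw [k2, e5]
    apply le_of_eq
    field_simp
    norm_num

lemma ZZ.links {P : ℕ → ℕ → Prop} {p q : ℝ} (hp : 1 < p) (h : ZZ P p q) : ∀ i : ℕ, (i : ℝ) ≤ q →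
    ZZ (fun σ τ => P (σ + i) τ) p (q - i) := by
  intro i
  induction i with
  | zero =>
    intro _
    simpa using h
  | succ i ih =>
    intro hi
    push_cast at hi ⊢
    have h1 := (ih (by linarith)).link hp (by linarith)
    rw [show q - ((i : ℝ) + 1) = q - i - 1 by ring]
    refine h1.mono (fun σ τ hP => ?_)
    have : σ + 1 + i = σ + (i + 1) := by ring
    rw [this]
    exact hP

/-- `i` links in the rows, `j` links in the columns. -/
lemma ZZ.both {P : ℕ → ℕ → Prop} {p q : ℝ} (h : ZZ P p q) (i j : ℕ) (hp : 1 < p)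
    (hi : (i : ℝ) + 1 < q) (hj : (j : ℝ) ≤ p) :
    ZZ (fun σ τ => P (σ + i) (τ + j)) (p - j) (q - i) := by
  have h1 := h.links hp i (by linarith)
  have h2 := (h1.flip.links (by linarith) j hj).flip
  exact h2

/-- The lower bound `c n ^ (2 - 1 / κ)` for `ex (n, K_{s,t})`. -/
def LB (s t : ℕ) (κ : ℝ) : Prop :=
  ∃ c : ℝ, 0 < c ∧ ∀ᶠ n : ℕ in atTop,
    c * (n : ℝ) ^ (2 - 1 / κ) ≤ (extremalNumber n (KK s t) : ℝ)

/-- both orders of the pair -/
def PP (s t : ℕ) : ℕ → ℕ → Prop := fun σ τ => (σ = s ∧ τ = t) ∨ (σ = t ∧ τ = s)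

lemma NoST.symm_of_symm {V : Type} {G : SimpleGraph V} {s t : ℕ} (h : NoST G.Adj s t) :
    NoST G.Adj t s := by
  rintro ⟨a, b, ha, hb, hab⟩
  exact h ⟨b, a, hb, ha, fun i j => (hab j i).symm⟩

lemma exists_graph' {n m : ℕ} {W : Type} {H : SimpleGraph W} (hH : H ≠ ⊥) :
    ∃ G : SimpleGraph (Fin m), H.Free G ∧ G.edgeSet.ncard = extremalNumber m H := by
  classical
  obtain ⟨G, i, hG⟩ := exists_isExtremal_free (V := Fin m) hH
  refine ⟨G, hG.1, ?_⟩
  have := isExtremal_free_iff.1 hG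
  rw [Fintype.card_fin] at this
  rw [← this.2, ← SimpleGraph.coe_edgeFinset, Set.ncard_coe_finset]

lemma KK_ne_bot' {s t : ℕ} (hs : 1 ≤ s) (ht : 1 ≤ t) : KK s t ≠ ⊥ := by
  intro h
  have : (KK s t).Adj (Sum.inl ⟨0, hs⟩) (Sum.inr ⟨0, ht⟩) := by simp
  rw [h] at this
  exact this

lemma LB.zz {s t : ℕ} {κ : ℝ} (hs : 1 ≤ s) (ht : 1 ≤ t) (hκ : 1 ≤ κ) (h : LB s t κ) :
    ZZ (PP s t) κ κ := by
  obtain ⟨c, hc, h⟩ := h
  obtain ⟨N, hN⟩ := eventually_atTop.1 h
  have hκ0 : 0 < κ := by linarith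
  have he : 0 ≤ 2 - 1 / κ := by
    have : 1 / κ ≤ 1 := by rw [div_le_one hκ0]; exact hκ
    linarith
  refine ⟨c / 2 ^ (2 - 1 / κ), by positivity, max 1 (N + 1), fun y hy => ?_⟩
  have hy1 : 1 ≤ y := (le_max_left _ _).trans hy
  have hy2 : (N : ℝ) + 1 ≤ y := (le_max_right _ _).trans hy
  have hy0 : 0 < y := by linarith
  have hyk : y ≤ y ^ κ := by
    nth_rewrite 1 [← Real.rpow_one y]
    exact Real.rpow_le_rpow_of_exponent_le hy1 hκ
  set n : ℕ := ⌊y ^ κ⌋₊ with hn
  have hn1 : (n : ℝ) ≤ y ^ κ := Nat.floor_le (by positivity)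
  have hn2 : y ^ κ < n + 1 := Nat.lt_floor_add_one _
  have hnN : N ≤ n := by
    rw [hn, Nat.le_floor_iff (by positivity)]
    linarith
  have hn3 : y ^ κ / 2 ≤ n := by
    have h6 : 1 ≤ n := by
      rw [hn, Nat.le_floor_iff (by positivity)]
      push_cast
      linarith
    have h7 : (1 : ℝ) ≤ n := by exact_mod_cast h6
    linarith
  obtain ⟨G, hG, hGe⟩ := exists_graph' (n := 0) (m := n) (KK_ne_bot' hs ht)
  refine ⟨Fin n, Fin n, inferInstance, inferInstance, G.Adj, by simpa using hn1,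
    by simpa using hn1, ?_, ?_⟩
  · rintro σ τ (⟨rfl, rfl⟩ | ⟨rfl, rfl⟩)
    · exact noST_of_free hG
    · exact NoST.symm_of_symm (noST_of_free hG)
  · have h1 := hN n hnN
    rw [← hGe] at h1
    refine le_trans (le_trans ?_ h1) (cnt_adj G)
    calc c / 2 ^ (2 - 1 / κ) * y ^ (κ + κ - 1)
        = c * (y ^ κ / 2) ^ (2 - 1 / κ) := by
          rw [Real.div_rpow (by positivity) (by norm_num), ← Real.rpow_mul hy0.le,
            show κ * (2 - 1 / κ) = κ + κ - 1 by field_simp; ring]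
          ring
      _ ≤ c * (n : ℝ) ^ (2 - 1 / κ) := by gcongr

lemma ext_of_rel' {A B : Type} [Fintype A] [Fintype B] (R : A → B → Prop) {s t n : ℕ}
    (hs : 1 ≤ s) (ht : 1 ≤ t) (hR : NoST R s t) (hR' : NoST R t s)
    (hn : Fintype.card A + Fintype.card B ≤ n) :
    cnt R ≤ (extremalNumber n (KK s t) : ℝ) := by
  classical
  obtain ⟨e⟩ : Nonempty (A ⊕ B ↪ Fin n) :=
    Function.Embedding.nonempty_of_card_le (by rw [Fintype.card_fin, Fintype.card_sum]; exact hn)
  let G : SimpleGraph (Fin n) := SimpleGraph.fromRel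
    (fun x y => ∃ a b, x = e (Sum.inl a) ∧ y = e (Sum.inr b) ∧ R a b)
  have hlr : ∀ (a : A) (b : B), e (Sum.inl a) ≠ e (Sum.inr b) := fun a b h =>
    Sum.inl_ne_inr (e.injective h)
  have hG : ∀ x y, G.Adj x y ↔ (∃ a b, x = e (Sum.inl a) ∧ y = e (Sum.inr b) ∧ R a b) ∨
      (∃ a b, y = e (Sum.inl a) ∧ x = e (Sum.inr b) ∧ R a b) := by
    intro x y
    rw [SimpleGraph.fromRel_adj]
    constructor
    · exact fun h => h.2
    · intro h
      refine ⟨?_, h⟩
      rcases h with ⟨a, b, h1, h2, -⟩ | ⟨a, b, h1, h2, -⟩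
      · rw [h1, h2]; exact hlr a b
      · rw [h1, h2]; exact (hlr a b).symm
  have key : ∀ (k l : ℕ) (hk : 1 ≤ k) (hl : 1 ≤ l), NoST R k l →
      ∀ (a : Fin k → Fin n) (b : Fin l → Fin n), Function.Injective a → Function.Injective b →
      (∀ i j, G.Adj (a i) (b j)) → (∃ α β, a ⟨0, hk⟩ = e (Sum.inl α) ∧
        b ⟨0, hl⟩ = e (Sum.inr β) ∧ R α β) → False := by
    rintro k l hk hl hR a b ha hb hab ⟨α, β, h1, h2, -⟩
    have q1 : ∀ i, ∃ α', a i = e (Sum.inl α') := by
      intro i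
      rcases (hG _ _).1 (hab i ⟨0, hl⟩) with ⟨a', b', k1, k2, -⟩ | ⟨a', b', k1, k2, -⟩
      · exact ⟨a', k1⟩
      · exact absurd (k1.symm.trans h2) (hlr _ _)
    have q2 : ∀ j, ∃ β', b j = e (Sum.inr β') := by
      intro j
      rcases (hG _ _).1 (hab ⟨0, hk⟩ j) with ⟨a', b', k1, k2, -⟩ | ⟨a', b', k1, k2, -⟩
      · exact ⟨b', k2⟩
      · exact absurd (h1.symm.trans k2) (hlr _ _)
    choose α' hα' using q1
    choose β' hβ' using q2
    refine hR ⟨α', β', ?_, ?_, ?_⟩
    · intro i j hij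
      apply ha
      rw [hα', hα', hij]
    · intro i j hij
      apply hb
      rw [hβ', hβ', hij]
    · intro i j
      rcases (hG _ _).1 (hab i j) with ⟨a', b', k1, k2, k3⟩ | ⟨a', b', k1, k2, -⟩
      · rw [hα'] at k1
        rw [hβ'] at k2
        rwa [← Sum.inl_injective (e.injective k1), ← Sum.inr_injective (e.injective k2)] at k3
      · rw [hβ'] at k1
        exact absurd k1.symm (hlr _ _)
  have hfree : (KK s t).Free G := by
    apply free_of_noST
    rintro ⟨a, b, ha, hb, hab⟩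
    rcases (hG _ _).1 (hab ⟨0, hs⟩ ⟨0, ht⟩) with h | ⟨α, β, h1, h2, h3⟩
    · exact key s t hs ht hR a b ha hb hab h
    · exact key t s ht hs hR' b a hb ha (fun i j => (hab j i).symm) ⟨α, β, h1, h2, h3⟩
  have h1 := card_edgeFinset_le_extremalNumber hfree
  rw [Fintype.card_fin] at h1
  rw [cnt_eq_ncard]
  refine le_trans ?_ (Nat.cast_le.2 h1)
  have h2 : {p : A × B | R p.1 p.2}.ncard =
      ((fun p : A × B => s(e (Sum.inl p.1), e (Sum.inr p.2))) '' {p : A × B | R p.1 p.2}).ncard := by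
    rw [Set.ncard_image_of_injective]
    rintro ⟨a, b⟩ ⟨a', b'⟩ h
    rcases Sym2.eq_iff.1 h with ⟨k1, k2⟩ | ⟨k1, k2⟩
    · exact Prod.ext (Sum.inl_injective (e.injective k1)) (Sum.inr_injective (e.injective k2))
    · exact absurd k1 (hlr _ _)
  rw [h2, Nat.cast_le, ← Set.ncard_coe_finset, SimpleGraph.coe_edgeFinset]
  apply Set.ncard_le_ncard _ (Set.toFinite _)
  rintro _ ⟨⟨a, b⟩, hab, rfl⟩
  rw [SimpleGraph.mem_edgeSet, hG]
  exact Or.inl ⟨a, b, rfl, rfl, hab⟩

lemma ZZ.lb {s t : ℕ} {κ : ℝ} (hs : 1 ≤ s) (ht : 1 ≤ t) (hκ : 0 < κ) (h : ZZ (PP s t) κ κ) :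
    LB s t κ := by
  obtain ⟨c, hc, y0, h⟩ := h
  refine ⟨c / 2 ^ (2 - 1 / κ), by positivity, ?_⟩
  have hy0 : (0 : ℝ) ≤ max y0 0 := le_max_right _ _
  filter_upwards [eventually_ge_atTop (max 1 ⌈2 * (max y0 0) ^ κ⌉₊)] with n hn
  have hn1 : 2 * (max y0 0) ^ κ ≤ n :=
    (Nat.le_ceil _).trans (by exact_mod_cast (le_max_right _ _).trans hn)
  have hn2 : (1 : ℝ) ≤ n := by exact_mod_cast (le_max_left _ _).trans hn
  have hn0 : (0 : ℝ) < n := by linarith
  set y : ℝ := (n / 2 : ℝ) ^ (1 / κ) with hy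
  have hyk : y ^ κ = n / 2 := by
    rw [hy, ← Real.rpow_mul (by positivity), one_div, inv_mul_cancel₀ hκ.ne', Real.rpow_one]
  have hyy : y0 ≤ y := by
    refine (le_max_left y0 0).trans ?_
    have h1 : (max y0 0) ^ κ ≤ n / 2 := by linarith
    have h2 := Real.rpow_le_rpow (by positivity) h1 (by positivity : 0 ≤ 1 / κ)
    rw [← Real.rpow_mul hy0, one_div, mul_inv_cancel₀ hκ.ne', Real.rpow_one] at h2
    rw [hy, one_div]
    exact h2
  obtain ⟨A, B, iA, iB, R, h1, h2, h3, h4⟩ := h y hyy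
  rw [hyk] at h1 h2
  have h5 := ext_of_rel' R hs ht (h3 s t (Or.inl ⟨rfl, rfl⟩)) (h3 t s (Or.inr ⟨rfl, rfl⟩))
    (n := n) (by
      have : ((Fintype.card A + Fintype.card B : ℕ) : ℝ) ≤ n := by push_cast; linarith
      exact_mod_cast this)
  refine le_trans (le_of_eq ?_) (h4.trans h5)
  have e1 : y ^ (κ + κ - 1) = (n / 2 : ℝ) ^ (2 - 1 / κ) := by
    rw [hy, ← Real.rpow_mul (by positivity)]
    congr 1
    field_simp
    ring
  rw [e1, Real.div_rpow hn0.le (by norm_num)]
  ring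

/-- **Diagonal descent, for all exponents.** -/
theorem LB.diag {s t : ℕ} {κ : ℝ} (i : ℕ) (hs : 1 ≤ s) (ht : 1 ≤ t) (hi : (i : ℝ) + 1 < κ)
    (h : LB (s + i) (t + i) κ) : LB s t (κ - i) := by
  have hi0 : (0 : ℝ) ≤ i := Nat.cast_nonneg _
  have h1 := (h.zz (by omega) (by omega) (by linarith)).both i i (by linarith) (by linarith)
    (by linarith)
  refine ZZ.lb hs ht (by linarith) (h1.mono ?_)
  rintro σ τ (⟨rfl, rfl⟩ | ⟨rfl, rfl⟩)
  · exact Or.inl ⟨rfl, rfl⟩
  · exact Or.inr ⟨rfl, rfl⟩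

lemma extremal_mono {s t t' : ℕ} (h : t ≤ t') (n : ℕ) :
    extremalNumber n (KK s t) ≤ extremalNumber n (KK s t') := by
  classical
  apply SimpleGraph.IsContained.extremalNumber_le
  refine ⟨⟨⟨Sum.map id (Fin.castLE h), ?_⟩, ?_⟩⟩
  · rintro (i | i) (j | j) hij
    · simp at hij
    · simp
    · simp
    · simp at hij
  · exact Sum.map_injective.2 ⟨Function.injective_id, Fin.castLE_injective h⟩

lemma LB.mono_t {s t t' : ℕ} {κ : ℝ} (htt : t ≤ t') (h : LB s t κ) : LB s t' κ := by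
  obtain ⟨c, hc, h⟩ := h
  refine ⟨c, hc, ?_⟩
  filter_upwards [h] with n hn
  exact hn.trans (by exact_mod_cast extremal_mono htt n)

end Q116.ZK
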