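import Pool.Agent.H35.XL.Q116_KR_Tail
import Pool.Agent.H35.XL.Q116_ZK_Forms

set_option autoImplicit false

/-!
Graphs without `K_{s,t}`: the vertices of large degree, almost regular subgraphs.
-/

namespace Q116.ZK

open Finset Filter SimpleGraph Q116.KR

open scoped Classical in
/-- **Vertices of large degree.** -/
theorem tail' {V : Type} [Fintype V] (G : SimpleGraph V) {s t : ℕ} (hs : 1 ≤ s) (ht : 1 ≤ t)
    (hG : (KK s t).Free G) :
    ∑ x ∈ univ.filter (fun x => 2 * (t : ℝ) * (Fintype.card V : ℝ) ^ (1 - 1 / (s : ℝ)) ≤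
      ((G.neighborSet x).ncard : ℝ)), ((G.neighborSet x).ncard : ℝ) ≤
      2 * s * Fintype.card V := by
  set n : ℝ := (Fintype.card V : ℝ) with hn
  set H := univ.filter (fun x => 2 * (t : ℝ) * n ^ (1 - 1 / (s : ℝ)) ≤
      ((G.neighborSet x).ncard : ℝ)) with hH
  by_contra hlt
  push Not at hlt
  have hdeg : ∀ x, ((G.neighborSet x).ncard : ℝ) = ∑ b : V, if G.Adj x b then (1 : ℝ) else 0 := by
    intro x
    rw [sum_boole, ← Set.ncard_coe_finset]
    congr 2
    ext b
    simp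
  have hsw : ∑ x ∈ H, ((G.neighborSet x).ncard : ℝ) =
      ∑ b : V, ((H.filter (fun a => G.Adj a b)).card : ℝ) := by
    rw [sum_congr rfl (fun x _ => hdeg x), sum_comm]
    apply sum_congr rfl
    intro b _
    rw [sum_boole]
  rw [hsw] at hlt
  have h1 := kst_sum G.Adj hs ht (noST_of_free hG) H hlt.le
  set E := ∑ b : V, ((H.filter (fun a => G.Adj a b)).card : ℝ) with hE
  have hs0 : (0 : ℝ) < s := by exact_mod_cast hs
  have ht0 : (0 : ℝ) < t := by exact_mod_cast ht
  have hn0 : 0 ≤ n := Nat.cast_nonneg _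
  have hEl : 2 * (t : ℝ) * n ^ (1 - 1 / (s : ℝ)) * H.card ≤ E := by
    rw [← hsw]
    calc 2 * (t : ℝ) * n ^ (1 - 1 / (s : ℝ)) * H.card
        = ∑ x ∈ H, 2 * (t : ℝ) * n ^ (1 - 1 / (s : ℝ)) := by
          rw [sum_const, nsmul_eq_mul, mul_comm]
      _ ≤ _ := sum_le_sum (fun x hx => (mem_filter.1 hx).2)
  have hEpos : 0 < E := lt_of_le_of_lt (by positivity) hlt
  have hcard : 0 < H.card := by
    rw [card_pos]
    by_contra h
    rw [not_nonempty_iff_eq_empty] at h
    rw [hE, h] at hEpos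
    simp at hEpos
  have hcard' : (0 : ℝ) < H.card := by exact_mod_cast hcard
  have hnpos : 0 < n := by
    rcases hn0.eq_or_lt with h | h
    · have h' : (Fintype.card V : ℝ) = 0 := h.symm
      have : Fintype.card V = 0 := by exact_mod_cast h'
      have hV : IsEmpty V := Fintype.card_eq_zero_iff.1 this
      rw [hE] at hEpos
      simp at hEpos
    · exact h
  have h2 : (t : ℝ) ^ s * n ^ (s - 1) * (H.card : ℝ) ^ s ≤ (E / 2) ^ s := by
    have h3 : (t : ℝ) * n ^ (1 - 1 / (s : ℝ)) * H.card ≤ E / 2 := by linarith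
    have h4 := pow_le_pow_left₀ (by positivity) h3 s
    refine le_trans (le_of_eq ?_) h4
    rw [mul_pow, mul_pow]
    congr 2
    rw [← Real.rpow_natCast n (s - 1), ← Real.rpow_natCast (n ^ (1 - 1 / (s : ℝ))) s,
      ← Real.rpow_mul hn0]
    congr 1
    rw [Nat.cast_sub hs]
    push_cast
    field_simp
  have h5 := h2.trans h1
  have h6 : (t : ℝ) ^ s ≤ ((t - 1 : ℕ) : ℝ) := by
    have hp : 0 < n ^ (s - 1) * (H.card : ℝ) ^ s := by positivity
    refine le_of_mul_le_mul_right ?_ hp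
    calc (t : ℝ) ^ s * (n ^ (s - 1) * (H.card : ℝ) ^ s)
        = (t : ℝ) ^ s * n ^ (s - 1) * (H.card : ℝ) ^ s := by ring
      _ ≤ _ := h5
      _ = _ := by ring
  have h7 : (t : ℝ) ≤ (t : ℝ) ^ s := by
    have : t ≤ t ^ s := Nat.le_self_pow (by omega) t
    exact_mod_cast this
  have h8 : ((t - 1 : ℕ) : ℝ) < t := by
    have : t - 1 < t := by omega
    exact_mod_cast this
  linarith

open scoped Classical in
/-- **Almost all edges lie in an almost regular induced subgraph.** -/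
theorem almost_regular' {V : Type} [Fintype V] (G : SimpleGraph V) {s t : ℕ} (hr : 2 ≤ s)
    (ht : 1 ≤ t) (hG : (KK s t).Free G) (c η : ℝ) (hc : 0 < c) (hη : 0 < η)
    (hn : 4 * s / (η * c) ≤ (Fintype.card V : ℝ) ^ (1 - 1 / (s : ℝ)))
    (he : c * (Fintype.card V : ℝ) ^ (2 - 1 / (s : ℝ)) ≤ (G.edgeSet.ncard : ℝ)) :
    ∃ U : Finset V, (1 - η) * (2 * (G.edgeSet.ncard : ℝ)) ≤
        ∑ x ∈ U, ((U.filter fun y => G.Adj x y).card : ℝ) ∧ ∀ x ∈ U,
      η * c / 2 * (Fintype.card V : ℝ) ^ (1 - 1 / (s : ℝ)) ≤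
        ((U.filter fun y => G.Adj x y).card : ℝ) ∧
      ((G.neighborSet x).ncard : ℝ) < 2 * t * (Fintype.card V : ℝ) ^ (1 - 1 / (s : ℝ)) := by
  set n : ℝ := (Fintype.card V : ℝ) with hnd
  set D : ℝ := n ^ (1 - 1 / (s : ℝ)) with hD
  have hn0 : 0 ≤ n := Nat.cast_nonneg _
  have hr0 : (0 : ℝ) < s := by
    have : 0 < s := by omega
    exact_mod_cast this
  have hD0 : 0 < D := lt_of_lt_of_le (by positivity) hn
  have htail := tail' G (by omega) ht hG
  rw [← hnd, ← hD] at htail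
  set H := univ.filter (fun x => 2 * (t : ℝ) * D ≤ ((G.neighborSet x).ncard : ℝ)) with hH
  let M : V → V → ℝ := fun x y => if G.Adj x y then 1 else 0
  have hMs : ∀ x y, M x y = M y x := by
    intro x y
    simp only [M, G.adj_comm x y]
  have hM0 : ∀ x, M x x = 0 := by
    intro x
    simp [M]
  have hMn : ∀ x y, 0 ≤ M x y := by
    intro x y
    simp only [M]
    split_ifs <;> norm_num
  have hrow : ∀ (x : V) (U : Finset V), ∑ y ∈ U, M x y = ((U.filter fun y => G.Adj x y).card : ℝ) := by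
    intro x U
    simp only [M]
    rw [sum_boole]
  have hdeg : ∀ x, ((G.neighborSet x).ncard : ℝ) = ∑ b : V, M x b := by
    intro x
    rw [hrow, ← Set.ncard_coe_finset]
    congr 2
    ext b
    simp
  have htot : ∑ x, ∑ y, M x y = 2 * (G.edgeSet.ncard : ℝ) := by
    rw [sum_congr rfl (fun x _ => hrow x univ)]
    have h1 : ∀ x, (univ.filter fun y => G.Adj x y).card = G.degree x := by
      intro x
      rw [← G.card_neighborFinset_eq_degree, G.neighborFinset_eq_filter]
    simp only [h1]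
    rw [← Nat.cast_sum, G.sum_degrees_eq_twice_card_edges, ← Set.ncard_coe_finset,
      G.coe_edgeFinset]
    push_cast
    rfl
  -- the mass outside `H`
  have hmass : 2 * (G.edgeSet.ncard : ℝ) - 2 * (2 * s * n) ≤ ∑ x ∈ Hᶜ, ∑ y ∈ Hᶜ, M x y := by
    have e1 : ∑ x, ∑ y, M x y = ∑ x ∈ H, ∑ y, M x y + ∑ x ∈ Hᶜ, ∑ y, M x y :=
      (sum_add_sum_compl H _).symm
    have e2 : ∑ x ∈ Hᶜ, ∑ y, M x y = ∑ x ∈ Hᶜ, ∑ y ∈ H, M x y + ∑ x ∈ Hᶜ, ∑ y ∈ Hᶜ, M x y := by
      rw [← sum_add_distrib]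
      apply sum_congr rfl
      intro x _
      exact (sum_add_sum_compl H _).symm
    have e3 : ∑ x ∈ Hᶜ, ∑ y ∈ H, M x y ≤ ∑ x ∈ H, ∑ y, M x y := by
      rw [sum_comm]
      apply sum_le_sum
      intro y _
      rw [sum_congr rfl (fun x _ => hMs x y)]
      exact sum_le_sum_of_subset_of_nonneg (subset_univ _) (fun x _ _ => hMn y x)
    have e4 : ∑ x ∈ H, ∑ y, M x y ≤ 2 * s * n := by
      rw [← sum_congr rfl (fun x _ => hdeg x)]
      exact htail
    rw [← htot]
    linarith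
  obtain ⟨U, hU, hw, hdU⟩ := Pool.TH815.GR.core M hMs hM0 (η * c * D) Hᶜ
  refine ⟨U, ?_, fun x hx => ⟨?_, ?_⟩⟩
  · have h1 : ((Hᶜ).card : ℝ) ≤ n := by
      have : (Hᶜ).card ≤ Fintype.card V := card_le_univ _
      exact Nat.cast_le.2 this
    have h2 : 0 ≤ η * c * D * U.card := by positivity
    have h3 : η * c * D * ((Hᶜ).card : ℝ) ≤ η * c * D * n :=
      mul_le_mul_of_nonneg_left h1 (by positivity)
    have hnpos : 0 < n := by
      rcases hn0.eq_or_lt with h | h
      · exfalso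
        rw [hD, ← h, Real.zero_rpow] at hD0
        · exact lt_irrefl _ hD0
        · have : (1 : ℝ) < s := by exact_mod_cast hr
          have : 1 / (s : ℝ) < 1 := by rw [div_lt_one hr0]; exact this
          linarith
      · exact h
    have h4 : n ^ (2 - 1 / (s : ℝ)) = n * D := by
      rw [hD, show (2 : ℝ) - 1 / s = 1 + (1 - 1 / s) by ring, Real.rpow_add hnpos, Real.rpow_one]
    rw [h4] at he
    have h5 : 4 * s * n ≤ η * c * D * n := by
      rw [div_le_iff₀ (by positivity)] at hn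
      have : 4 * (s : ℝ) ≤ η * c * D := by linarith
      exact mul_le_mul_of_nonneg_right this hn0
    have h6 : η * (c * (n * D)) ≤ η * (G.edgeSet.ncard : ℝ) := mul_le_mul_of_nonneg_left he hη.le
    rw [← sum_congr rfl (fun x _ => hrow x U)]
    nlinarith
  · rw [← hrow]
    refine le_trans (le_of_eq ?_) (hdU x hx)
    ring
  · have := hU hx
    rw [mem_compl, hH, mem_filter] at this
    push Not at this
    exact this (mem_univ x)

end Q116.ZK
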