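import Pool.Agent.H35.XL.Q115_GW4

/-! Two-sided pointwise bounds for the number of walks in expanders with few closed walks. -/

set_option autoImplicit false

open Finset

namespace Pool.Agent.Q115.GV

open Pool.Agent.Q115.GY Pool.Agent.Q115.GW

variable {V : Type*} [Fintype V] [DecidableEq V]

theorem pow_nonneg' (G : SimpleGraph V) [DecidableRel G.Adj] (l : ℕ) (x y : V) :
    0 ≤ ((G.adjMatrix ℝ) ^ l) x y := by
  rw [G.adjMatrix_pow_apply_eq_card_walk]
  exact Nat.cast_nonneg _

theorem pow_symm' (G : SimpleGraph V) [DecidableRel G.Adj] (l : ℕ) (x y : V) :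
    ((G.adjMatrix ℝ) ^ l) x y = ((G.adjMatrix ℝ) ^ l) y x := by
  have hA : (G.adjMatrix ℝ).IsHermitian := by
    ext i j
    simp [Matrix.conjTranspose_apply, SimpleGraph.adjMatrix_apply, G.adj_comm i j]
  exact ev_symm_pow hA l x y

/-- upper bound for the number of walks -/
theorem walk_upper (G : SimpleGraph V) [DecidableRel G.Adj] (q : ℕ) (B D : ℝ) (hB : 0 ≤ B)
    (htr : ∀ x, ((G.adjMatrix ℝ) ^ (2 * q)) x x ≤ B) (hdeg : ∀ x, (G.degree x : ℝ) ≤ D) :
    ∀ l : ℕ, 2 * q ≤ l → ∀ x y, ((G.adjMatrix ℝ) ^ l) x y ≤ B * D ^ (l - 2 * q) := by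
  intro l hl
  induction l, hl using Nat.le_induction with
  | base =>
    intro x y
    rw [Nat.sub_self, pow_zero, mul_one]
    have h1 : ∀ u v, ((G.adjMatrix ℝ) ^ (2 * q)) u v =
        ∑ z, ((G.adjMatrix ℝ) ^ q) u z * ((G.adjMatrix ℝ) ^ q) v z := by
      intro u v
      rw [two_mul, pow_add, Matrix.mul_apply]
      apply sum_congr rfl
      intro z _
      rw [pow_symm' G q z v]
    have h2 := htr x
    have h3 := htr y
    rw [h1] at h2 h3
    rw [h1]
    have h4 : 2 * ∑ z, ((G.adjMatrix ℝ) ^ q) x z * ((G.adjMatrix ℝ) ^ q) y z ≤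
        ∑ z, ((G.adjMatrix ℝ) ^ q) x z * ((G.adjMatrix ℝ) ^ q) x z +
        ∑ z, ((G.adjMatrix ℝ) ^ q) y z * ((G.adjMatrix ℝ) ^ q) y z := by
      rw [mul_sum, ← sum_add_distrib]
      apply sum_le_sum
      intro z _
      nlinarith [sq_nonneg (((G.adjMatrix ℝ) ^ q) x z - ((G.adjMatrix ℝ) ^ q) y z)]
    linarith
  | succ l hl ih =>
    intro x y
    have hD : 0 ≤ D := (Nat.cast_nonneg _).trans (hdeg x)
    rw [pow_succ', Matrix.mul_apply]
    calc ∑ z, G.adjMatrix ℝ x z * ((G.adjMatrix ℝ) ^ l) z y
        ≤ ∑ z, G.adjMatrix ℝ x z * (B * D ^ (l - 2 * q)) := by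
          apply sum_le_sum
          intro z _
          apply mul_le_mul_of_nonneg_left (ih z y)
          rw [SimpleGraph.adjMatrix_apply]
          split_ifs <;> norm_num
      _ = (G.degree x : ℝ) * (B * D ^ (l - 2 * q)) := by
          rw [← sum_mul, rowsum]
      _ ≤ D * (B * D ^ (l - 2 * q)) := mul_le_mul_of_nonneg_right (hdeg x) (by positivity)
      _ = B * D ^ (l + 1 - 2 * q) := by
          rw [show l + 1 - 2 * q = (l - 2 * q) + 1 by omega, pow_succ]; ring

/-- number of walks from a vertex -/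
theorem mass_lower (G : SimpleGraph V) [DecidableRel G.Adj] (d : ℝ) (hd : 0 ≤ d)
    (hdeg : ∀ x, d ≤ (G.degree x : ℝ)) (q : ℕ) : ∀ x, d ^ q ≤ ∑ z, ((G.adjMatrix ℝ) ^ q) x z := by
  induction q with
  | zero =>
    intro x
    simp [Matrix.one_apply]
  | succ q ih =>
    intro x
    have h1 : ∑ z, ((G.adjMatrix ℝ) ^ (q + 1)) x z =
        ∑ y, G.adjMatrix ℝ x y * ∑ z, ((G.adjMatrix ℝ) ^ q) y z := by
      rw [pow_succ']
      simp only [Matrix.mul_apply, mul_sum]
      rw [sum_comm]
    rw [h1]
    calc d ^ (q + 1) = d * d ^ q := by rw [pow_succ]; ring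
      _ ≤ (G.degree x : ℝ) * d ^ q := mul_le_mul_of_nonneg_right (hdeg x) (by positivity)
      _ = ∑ y, G.adjMatrix ℝ x y * d ^ q := by rw [← sum_mul, rowsum]
      _ ≤ _ := by
          apply sum_le_sum
          intro y _
          apply mul_le_mul_of_nonneg_left (ih y)
          rw [SimpleGraph.adjMatrix_apply]
          split_ifs <;> norm_num

/-- a linear-size set on which the number of walks of length `q` from `x` is large -/
theorem flat_set (G : SimpleGraph V) [DecidableRel G.Adj] (q : ℕ) (η Λ r : ℝ) (hη : 0 < η)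
    (hΛ : 0 < Λ) (hr : 0 < r)
    (hdeg : ∀ x, η * r ≤ (G.degree x : ℝ)) (x : V)
    (htr : ((G.adjMatrix ℝ) ^ (2 * q)) x x * Fintype.card V ≤ Λ * r ^ (2 * q)) :
    η ^ (2 * q) / (4 * Λ) * Fintype.card V ≤
      ((univ.filter (fun z => (η * r) ^ q / (2 * Fintype.card V) ≤
        ((G.adjMatrix ℝ) ^ q) x z)).card : ℝ) := by
  set m : ℝ := (Fintype.card V : ℝ) with hm
  have hmpos : 0 < m := by
    rw [hm]
    have : 0 < Fintype.card V := Fintype.card_pos_iff.2 ⟨x⟩
    exact_mod_cast this
  set a : ℝ := (η * r) ^ q / (2 * m) with ha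
  have hapos : 0 < a := by positivity
  set S : Finset V := univ.filter (fun z => a ≤ ((G.adjMatrix ℝ) ^ q) x z) with hS
  have h1 := mass_lower G (η * r) (by positivity) hdeg q x
  have hsq : ∑ z, (((G.adjMatrix ℝ) ^ q) x z) ^ 2 = ((G.adjMatrix ℝ) ^ (2 * q)) x x := by
    rw [two_mul, pow_add, Matrix.mul_apply]
    apply sum_congr rfl
    intro z _
    rw [pow_symm' G q z x]
    ring
  have h2 : ∑ z, ((G.adjMatrix ℝ) ^ q) x z ≤ a * m + ∑ z ∈ S, ((G.adjMatrix ℝ) ^ q) x z := by
    have : ∀ z, ((G.adjMatrix ℝ) ^ q) x z ≤ a + (if z ∈ S then ((G.adjMatrix ℝ) ^ q) x z else 0) := by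
      intro z
      by_cases hz : z ∈ S
      · rw [if_pos hz]; linarith
      · rw [if_neg hz]
        rw [hS, mem_filter] at hz
        push Not at hz
        linarith [hz (mem_univ z)]
    calc ∑ z, ((G.adjMatrix ℝ) ^ q) x z
        ≤ ∑ z, (a + (if z ∈ S then ((G.adjMatrix ℝ) ^ q) x z else 0)) :=
          sum_le_sum (fun z _ => this z)
      _ = a * m + ∑ z ∈ S, ((G.adjMatrix ℝ) ^ q) x z := by
          rw [sum_add_distrib, sum_const, card_univ, nsmul_eq_mul, sum_ite_mem, univ_inter, ← hm]
          ring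
  have h3 : (∑ z ∈ S, ((G.adjMatrix ℝ) ^ q) x z) ^ 2 ≤ S.card * ((G.adjMatrix ℝ) ^ (2 * q)) x x := by
    rw [← hsq]
    have h4 := sum_mul_sq_le_sq_mul_sq S (fun _ => (1 : ℝ)) (fun z => ((G.adjMatrix ℝ) ^ q) x z)
    simp only [one_mul, one_pow, sum_const, nsmul_eq_mul, mul_one] at h4
    refine h4.trans ?_
    apply mul_le_mul_of_nonneg_left _ (Nat.cast_nonneg _)
    exact sum_le_sum_of_subset_of_nonneg (subset_univ _) (fun z _ _ => sq_nonneg _)
  have h5 : (η * r) ^ q / 2 ≤ ∑ z ∈ S, ((G.adjMatrix ℝ) ^ q) x z := by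
    have : a * m = (η * r) ^ q / 2 := by
      rw [ha]; field_simp
    linarith
  have h6 : ((η * r) ^ q / 2) ^ 2 * m ≤ S.card * (Λ * r ^ (2 * q)) := by
    calc ((η * r) ^ q / 2) ^ 2 * m ≤ (∑ z ∈ S, ((G.adjMatrix ℝ) ^ q) x z) ^ 2 * m :=
          mul_le_mul_of_nonneg_right (pow_le_pow_left₀ (by positivity) h5 2) hmpos.le
      _ ≤ (S.card * ((G.adjMatrix ℝ) ^ (2 * q)) x x) * m :=
          mul_le_mul_of_nonneg_right h3 hmpos.le
      _ = S.card * (((G.adjMatrix ℝ) ^ (2 * q)) x x * m) := by ring
      _ ≤ _ := mul_le_mul_of_nonneg_left htr (Nat.cast_nonneg _)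
  have h7 : ((η * r) ^ q / 2) ^ 2 * m = (η ^ (2 * q) / 4 * m) * r ^ (2 * q) := by
    rw [div_pow, ← pow_mul, mul_comm q 2, mul_pow]
    ring
  rw [h7] at h6
  have h8 : (η ^ (2 * q) / 4 * m) ≤ S.card * Λ := by
    have : (η ^ (2 * q) / 4 * m) * r ^ (2 * q) ≤ (S.card * Λ) * r ^ (2 * q) := by
      refine h6.trans (le_of_eq ?_); ring
    exact le_of_mul_le_mul_right this (by positivity)
  calc η ^ (2 * q) / (4 * Λ) * m = (η ^ (2 * q) / 4 * m) / Λ := by
        field_simp
    _ ≤ S.card := by rw [div_le_iff₀ hΛ]; exact h8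

/-- accumulated normalised walk counts to a set -/
noncomputable def acc (G : SimpleGraph V) [DecidableRel G.Adj] (r : ℝ) (S : Finset V) (j : ℕ)
    (x : V) : ℝ :=
  ∑ i ∈ range (j + 1), (∑ z ∈ S, ((G.adjMatrix ℝ) ^ i) x z) / r ^ i

theorem acc_nonneg (G : SimpleGraph V) [DecidableRel G.Adj] (r : ℝ) (hr : 0 < r) (S : Finset V)
    (j : ℕ) (x : V) : 0 ≤ acc G r S j x :=
  sum_nonneg (fun i _ => div_nonneg (sum_nonneg (fun z _ => pow_nonneg' G i x z)) (by positivity))

theorem acc_mono (G : SimpleGraph V) [DecidableRel G.Adj] (r : ℝ) (hr : 0 < r) (S : Finset V)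
    (j : ℕ) (x : V) : acc G r S j x ≤ acc G r S (j + 1) x := by
  unfold acc
  rw [sum_range_succ (n := j + 1)]
  have : 0 ≤ (∑ z ∈ S, ((G.adjMatrix ℝ) ^ (j + 1)) x z) / r ^ (j + 1) :=
    div_nonneg (sum_nonneg (fun z _ => pow_nonneg' G _ x z)) (by positivity)
  linarith

theorem acc_step (G : SimpleGraph V) [DecidableRel G.Adj] (r : ℝ) (hr : 0 < r) (S : Finset V)
    (j : ℕ) (x : V) : (∑ y, G.adjMatrix ℝ x y * acc G r S j y) / r ≤ acc G r S (j + 1) x := by
  unfold acc
  rw [sum_range_succ' _ (j + 1)]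
  have h0 : 0 ≤ (∑ z ∈ S, ((G.adjMatrix ℝ) ^ 0) x z) / r ^ 0 :=
    div_nonneg (sum_nonneg (fun z _ => pow_nonneg' G _ x z)) (by positivity)
  have h1 : (∑ y, G.adjMatrix ℝ x y * ∑ i ∈ range (j + 1),
      (∑ z ∈ S, ((G.adjMatrix ℝ) ^ i) y z) / r ^ i) / r =
      ∑ i ∈ range (j + 1), (∑ z ∈ S, ((G.adjMatrix ℝ) ^ (i + 1)) x z) / r ^ (i + 1) := by
    simp only [mul_sum]
    rw [sum_comm, sum_div]
    apply sum_congr rfl
    intro i _
    rw [pow_succ' (G.adjMatrix ℝ) i]
    simp only [Matrix.mul_apply]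
    rw [sum_comm (s := S), pow_succ r i, ← div_div]
    congr 1
    rw [sum_div]
    apply sum_congr rfl
    intro y _
    rw [← mul_sum]
    ring
  linarith

/-- **Expansion spreads the walks.** -/
theorem spread (G : SimpleGraph V) [DecidableRel G.Adj] (η K σ r : ℝ) (hη : 0 < η) (hK : 0 < K)
    (hσ : 0 < σ) (hr : 0 < r) (hdeg : ∀ x, (G.degree x : ℝ) ≤ K * r)
    (hexp : ∀ S : Finset V, 2 * S.card ≤ Fintype.card V →
      η * r * S.card ≤ ∑ x ∈ S, ((G.neighborFinset x \ S).card : ℝ))
    (S : Finset V) (hS : σ * Fintype.card V ≤ S.card) (hV : 0 < Fintype.card V) (j : ℕ) :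
    3 * (Fintype.card V : ℝ) ≤ 4 * ((univ.filter
      (fun x => (min (η * min σ (1 / 4) / 2) 1) ^ j ≤ acc G r S j x)).card : ℝ) ∨
    (σ + j * (η * min σ (1 / 4) / (2 * K))) * Fintype.card V ≤ ((univ.filter
      (fun x => (min (η * min σ (1 / 4) / 2) 1) ^ j ≤ acc G r S j x)).card : ℝ) := by
  set m : ℝ := (Fintype.card V : ℝ) with hm
  have hmpos : 0 < m := by rw [hm]; exact_mod_cast hV
  set β : ℝ := min σ (1 / 4) with hβ
  have hβpos : 0 < β := by positivity
  have hβσ : β ≤ σ := min_le_left _ _
  have hβ4 : β ≤ 1 / 4 := min_le_right _ _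
  set κ : ℝ := min (η * β / 2) 1 with hκ
  have hκpos : 0 < κ := by positivity
  have hκ1 : κ ≤ 1 := min_le_right _ _
  have hκle : κ ≤ η * β / 2 := min_le_left _ _
  set ρ : ℝ := η * β / (2 * K) with hρ
  have hρpos : 0 < ρ := by positivity
  induction j with
  | zero =>
    right
    simp only [Nat.cast_zero, zero_mul, add_zero, pow_zero]
    refine hS.trans ?_
    apply Nat.cast_le.2
    apply card_le_card
    intro x hx
    rw [mem_filter]
    refine ⟨mem_univ _, ?_⟩
    unfold acc
    rw [zero_add, sum_range_one, pow_zero, pow_zero, div_one]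
    have : ∑ z ∈ S, (1 : Matrix V V ℝ) x z = 1 := by
      simp [Matrix.one_apply, hx]
    rw [this]
  | succ j ih =>
    set Z : Finset V := univ.filter (fun x => κ ^ j ≤ acc G r S j x) with hZ
    set Z' : Finset V := univ.filter (fun x => κ ^ (j + 1) ≤ acc G r S (j + 1) x) with hZ'
    have hZZ' : Z ⊆ Z' := by
      intro x hx
      rw [hZ, mem_filter] at hx
      rw [hZ', mem_filter]
      refine ⟨mem_univ _, ?_⟩
      calc κ ^ (j + 1) ≤ κ ^ j := pow_le_pow_of_le_one hκpos.le hκ1 (by omega)
        _ ≤ acc G r S j x := hx.2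
        _ ≤ _ := acc_mono G r hr S j x
    have hZcard : (Z.card : ℝ) ≤ Z'.card := by exact_mod_cast card_le_card hZZ'
    by_cases hbig : 3 * m ≤ 4 * (Z.card : ℝ)
    · left
      linarith
    · rcases ih with ih | ih
      · exact absurd ih hbig
      · right
        push Not at hbig
        -- edges between `Z` and its complement
        have hZσ : σ * m ≤ Z.card := by
          refine le_trans ?_ ih
          have : 0 ≤ (j : ℝ) * ρ * m := by positivity
          nlinarith
        set W : Finset V := (univ \ Z).filter (fun x => κ * r ≤ ((G.neighborFinset x ∩ Z).card : ℝ))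
          with hW
        have hcross : η * r * (β * m) ≤ ∑ x ∈ univ \ Z, ((G.neighborFinset x ∩ Z).card : ℝ) := by
          have hcc : ((univ \ Z).card : ℝ) = m - Z.card := by
            rw [card_sdiff_of_subset (subset_univ _), card_univ, Nat.cast_sub (card_le_univ _), hm]
          by_cases h2 : 2 * Z.card ≤ Fintype.card V
          · have h3 := hexp Z h2
            have h4 : ∑ x ∈ Z, ((G.neighborFinset x \ Z).card : ℝ) =
                ∑ x ∈ univ \ Z, ((G.neighborFinset x ∩ Z).card : ℝ) := by
              have e1 : ∀ x, ((G.neighborFinset x \ Z).card : ℝ) =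
                  ∑ y ∈ univ \ Z, (if G.Adj x y then (1 : ℝ) else 0) := by
                intro x
                rw [sum_boole]
                congr 2
                ext y
                simp [and_comm]
              have e2 : ∀ x, ((G.neighborFinset x ∩ Z).card : ℝ) =
                  ∑ y ∈ Z, (if G.Adj x y then (1 : ℝ) else 0) := by
                intro x
                rw [sum_boole]
                congr 2
                ext y
                simp [and_comm]
              simp only [e1, e2]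
              rw [sum_comm]
              apply sum_congr rfl; intro y _
              apply sum_congr rfl; intro x _
              simp only [G.adj_comm x y]
            rw [← h4]
            refine le_trans ?_ h3
            apply mul_le_mul_of_nonneg_left _ (by positivity)
            exact (mul_le_mul_of_nonneg_right hβσ hmpos.le).trans hZσ
          · have h2' : 2 * (univ \ Z).card ≤ Fintype.card V := by
              rw [card_sdiff_of_subset (subset_univ _), card_univ]
              omega
            have h3 := hexp (univ \ Z) h2'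
            have h4 : ∀ x, G.neighborFinset x \ (univ \ Z) = G.neighborFinset x ∩ Z := by
              intro x
              ext y
              simp
            simp only [h4] at h3
            refine le_trans ?_ h3
            apply mul_le_mul_of_nonneg_left _ (by positivity)
            rw [hcc]
            nlinarith
        have hWle : ∑ x ∈ univ \ Z, ((G.neighborFinset x ∩ Z).card : ℝ) ≤
            W.card * (K * r) + κ * r * m := by
          have : ∀ x ∈ univ \ Z, ((G.neighborFinset x ∩ Z).card : ℝ) ≤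
              (if x ∈ W then K * r else 0) + κ * r := by
            intro x hx
            by_cases hxW : x ∈ W
            · rw [if_pos hxW]
              have h5 : ((G.neighborFinset x ∩ Z).card : ℝ) ≤ K * r := by
                refine le_trans ?_ (hdeg x)
                rw [← G.card_neighborFinset_eq_degree]
                exact_mod_cast card_le_card inter_subset_left
              have : 0 < κ * r := by positivity
              linarith
            · rw [if_neg hxW, zero_add]
              rw [hW, mem_filter] at hxW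
              push Not at hxW
              exact (hxW hx).le
          calc ∑ x ∈ univ \ Z, ((G.neighborFinset x ∩ Z).card : ℝ)
              ≤ ∑ x ∈ univ \ Z, ((if x ∈ W then K * r else 0) + κ * r) := sum_le_sum this
            _ ≤ ∑ x, ((if x ∈ W then K * r else 0) + κ * r) := by
                apply sum_le_sum_of_subset_of_nonneg (subset_univ _)
                intro x _ _
                split_ifs <;> positivity
            _ = W.card * (K * r) + κ * r * m := by
                rw [sum_add_distrib, sum_ite_mem, univ_inter, sum_const, sum_const, card_univ,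
                  nsmul_eq_mul, nsmul_eq_mul, ← hm]
                ring
        have hWcard : ρ * m ≤ W.card := by
          have h5 : η * β / 2 * r * m ≤ W.card * (K * r) := by
            have h6 : κ * r * m ≤ η * β / 2 * r * m := by
              apply mul_le_mul_of_nonneg_right _ hmpos.le
              exact mul_le_mul_of_nonneg_right hκle hr.le
            nlinarith
          have h7 : η * β / 2 * m ≤ W.card * K := by
            have : (η * β / 2 * m) * r ≤ (W.card * K) * r := by
              calc (η * β / 2 * m) * r = η * β / 2 * r * m := by ring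
                _ ≤ _ := h5
                _ = _ := by ring
            exact le_of_mul_le_mul_right this hr
          calc ρ * m = (η * β / 2 * m) / K := by rw [hρ]; field_simp
            _ ≤ W.card := by rw [div_le_iff₀ hK]; exact h7
        have hWZ' : W ⊆ Z' := by
          intro x hx
          rw [hW, mem_filter] at hx
          rw [hZ', mem_filter]
          refine ⟨mem_univ _, ?_⟩
          refine le_trans ?_ (acc_step G r hr S j x)
          rw [le_div_iff₀ hr]
          calc κ ^ (j + 1) * r = (κ * r) * κ ^ j := by rw [pow_succ]; ring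
            _ ≤ ((G.neighborFinset x ∩ Z).card : ℝ) * κ ^ j :=
                mul_le_mul_of_nonneg_right hx.2 (by positivity)
            _ = ∑ y ∈ G.neighborFinset x ∩ Z, κ ^ j := by rw [sum_const, nsmul_eq_mul]
            _ ≤ ∑ y ∈ G.neighborFinset x ∩ Z, G.adjMatrix ℝ x y * acc G r S j y := by
                apply sum_le_sum
                intro y hy
                rw [mem_inter, SimpleGraph.mem_neighborFinset, hZ, mem_filter] at hy
                rw [SimpleGraph.adjMatrix_apply, if_pos hy.1, one_mul]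
                exact hy.2.2
            _ ≤ _ := by
                apply sum_le_sum_of_subset_of_nonneg (subset_univ _)
                intro y _ _
                apply mul_nonneg _ (acc_nonneg G r hr S j y)
                rw [SimpleGraph.adjMatrix_apply]
                split_ifs <;> norm_num
        have hdisj : Disjoint Z W := by
          rw [disjoint_left]
          intro x hx hx'
          rw [hW, mem_filter, mem_sdiff] at hx'
          exact hx'.1.2 hx
        have hunion : (Z.card : ℝ) + W.card ≤ Z'.card := by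
          rw [← Nat.cast_add, ← card_union_of_disjoint hdisj]
          exact_mod_cast card_le_card (union_subset hZZ' hWZ')
        push_cast
        nlinarith

/-- **Two-sided pointwise bounds for the number of walks.** -/
theorem two_sided (q : ℕ) (η K Λ : ℝ) (hη : 0 < η) (hK : 0 < K) (hΛ : 0 < Λ) :
    ∃ (L : ℕ) (c : ℝ), 0 < c ∧ ∀ (V : Type) [Fintype V] [DecidableEq V] (G : SimpleGraph V)
      [DecidableRel G.Adj] (r : ℝ), 0 < r →
      (∀ x, η * r ≤ (G.degree x : ℝ) ∧ (G.degree x : ℝ) ≤ K * r) →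
      (∀ S : Finset V, 2 * S.card ≤ Fintype.card V →
        η * r * S.card ≤ ∑ x ∈ S, ((G.neighborFinset x \ S).card : ℝ)) →
      (∀ x, ((G.adjMatrix ℝ) ^ (2 * q)) x x * Fintype.card V ≤ Λ * r ^ (2 * q)) →
      ∀ x y, ∃ l : ℕ, 2 * q ≤ l ∧ l ≤ L ∧
        c * r ^ l ≤ ((G.adjMatrix ℝ) ^ l) x y * Fintype.card V := by
  set σ : ℝ := η ^ (2 * q) / (4 * Λ) with hσ
  have hσpos : 0 < σ := by positivity
  set κ : ℝ := min (η * min σ (1 / 4) / 2) 1 with hκ
  have hκpos : 0 < κ := by positivity
  set ρ : ℝ := η * min σ (1 / 4) / (2 * K) with hρ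
  have hρpos : 0 < ρ := by positivity
  obtain ⟨J, hJ⟩ := exists_nat_ge (1 / ρ)
  refine ⟨2 * q + 2 * J, η ^ (2 * q) * κ ^ (2 * J) / (8 * ((J : ℝ) + 1) ^ 2), by positivity, ?_⟩
  intro V _ _ G _ r hr hdeg hexp htr x y
  have hV : 0 < Fintype.card V := Fintype.card_pos_iff.2 ⟨x⟩
  set m : ℝ := (Fintype.card V : ℝ) with hm
  have hmpos : 0 < m := by rw [hm]; exact_mod_cast hV
  set a : ℝ := (η * r) ^ q / (2 * m) with ha
  have hapos : 0 < a := by positivity
  set S : V → Finset V := fun x => univ.filter (fun z => a ≤ ((G.adjMatrix ℝ) ^ q) x z) with hS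
  have hScard : ∀ x, σ * m ≤ (S x).card := fun x =>
    flat_set G q η Λ r hη hΛ hr (fun z => (hdeg z).1) x (htr x)
  set Z : V → Finset V := fun x => univ.filter (fun z => κ ^ J ≤ acc G r (S x) J z) with hZ
  have hZcard : ∀ x, 3 * m ≤ 4 * ((Z x).card : ℝ) := by
    intro x
    rcases spread G η K σ r hη hK hσpos hr (fun z => (hdeg z).2) hexp (S x) (hScard x) hV J with
      h | h
    · exact h
    · exfalso
      have h1 : ((Z x).card : ℝ) ≤ m := by rw [hm]; exact_mod_cast card_le_univ _
      have h2 : (σ + J * ρ) * m ≤ (Z x).card := h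
      have h3 : 1 ≤ J * ρ := by
        rw [div_le_iff₀ hρpos] at hJ
        exact hJ
      nlinarith
  have hinter : m / 2 ≤ ((Z x ∩ Z y).card : ℝ) := by
    have h1 := card_union_add_card_inter (Z x) (Z y)
    have h2 : ((Z x ∪ Z y).card : ℝ) ≤ m := by rw [hm]; exact_mod_cast card_le_univ _
    have h3 : ((Z x ∪ Z y).card : ℝ) + ((Z x ∩ Z y).card : ℝ) = (Z x).card + (Z y).card := by
      exact_mod_cast h1
    have h4 := hZcard x
    have h5 := hZcard y
    linarith
  -- lower bound for the scalar product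
  have hlow : κ ^ (2 * J) * (m / 2) ≤ ∑ z, acc G r (S x) J z * acc G r (S y) J z := by
    calc κ ^ (2 * J) * (m / 2) ≤ κ ^ (2 * J) * ((Z x ∩ Z y).card : ℝ) :=
          mul_le_mul_of_nonneg_left hinter (by positivity)
      _ = ∑ z ∈ Z x ∩ Z y, κ ^ J * κ ^ J := by
          rw [sum_const, nsmul_eq_mul, ← pow_add, ← two_mul]; ring
      _ ≤ ∑ z ∈ Z x ∩ Z y, acc G r (S x) J z * acc G r (S y) J z := by
          apply sum_le_sum
          intro z hz
          rw [mem_inter, hZ] at hz
          simp only [mem_filter, mem_univ, true_and] at hz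
          exact mul_le_mul hz.1 hz.2 (by positivity) (acc_nonneg G r hr _ J z)
      _ ≤ _ := sum_le_sum_of_subset_of_nonneg (subset_univ _) (fun z _ _ =>
          mul_nonneg (acc_nonneg G r hr _ J z) (acc_nonneg G r hr _ J z))
  -- upper bound by walks between `x` and `y`
  have hupp : a ^ 2 * ∑ z, acc G r (S x) J z * acc G r (S y) J z ≤
      ∑ i ∈ range (J + 1), ∑ j ∈ range (J + 1),
        ((G.adjMatrix ℝ) ^ (2 * q + (i + j))) x y / r ^ (i + j) := by
    have h1 : ∑ z, acc G r (S x) J z * acc G r (S y) J z =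
        ∑ i ∈ range (J + 1), ∑ j ∈ range (J + 1),
          (∑ p ∈ S x, ∑ p' ∈ S y, ((G.adjMatrix ℝ) ^ (i + j)) p p') / r ^ (i + j) := by
      unfold acc
      simp only [sum_mul_sum]
      rw [sum_comm]
      apply sum_congr rfl; intro i _
      rw [sum_comm]
      apply sum_congr rfl; intro j _
      have e1 : ∀ z, (∑ p ∈ S x, ((G.adjMatrix ℝ) ^ i) z p) / r ^ i *
          ((∑ p' ∈ S y, ((G.adjMatrix ℝ) ^ j) z p') / r ^ j) =
          (∑ p ∈ S x, ∑ p' ∈ S y, ((G.adjMatrix ℝ) ^ i) p z * ((G.adjMatrix ℝ) ^ j) z p') /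
            r ^ (i + j) := by
        intro z
        rw [div_mul_div_comm, ← pow_add, sum_mul_sum]
        congr 1
        apply sum_congr rfl; intro p _
        apply sum_congr rfl; intro p' _
        rw [pow_symm' G i z p]
      simp only [e1]
      rw [← sum_div]
      congr 1
      rw [sum_comm]
      apply sum_congr rfl; intro p _
      rw [sum_comm]
      apply sum_congr rfl; intro p' _
      rw [pow_add, Matrix.mul_apply]
    rw [h1, mul_sum]
    apply sum_le_sum; intro i _
    rw [mul_sum]
    apply sum_le_sum; intro j _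
    rw [← mul_div_assoc]
    apply div_le_div_of_nonneg_right _ (by positivity)
    have h2 : ((G.adjMatrix ℝ) ^ (2 * q + (i + j))) x y =
        ∑ p, ∑ p', ((G.adjMatrix ℝ) ^ q) x p * ((G.adjMatrix ℝ) ^ (i + j)) p p' *
          ((G.adjMatrix ℝ) ^ q) y p' := by
      have : 2 * q + (i + j) = q + (i + j) + q := by omega
      rw [this, pow_add, Matrix.mul_apply]
      simp only [pow_add (G.adjMatrix ℝ) q (i + j), Matrix.mul_apply, sum_mul]
      rw [sum_comm]
      apply sum_congr rfl; intro p _
      apply sum_congr rfl; intro p' _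
      rw [pow_symm' G q p' y]
    rw [h2, mul_sum]
    calc ∑ p ∈ S x, a ^ 2 * ∑ p' ∈ S y, ((G.adjMatrix ℝ) ^ (i + j)) p p'
        ≤ ∑ p ∈ S x, ∑ p' ∈ S y, ((G.adjMatrix ℝ) ^ q) x p * ((G.adjMatrix ℝ) ^ (i + j)) p p' *
          ((G.adjMatrix ℝ) ^ q) y p' := by
          apply sum_le_sum; intro p hp
          rw [mul_sum]
          apply sum_le_sum; intro p' hp'
          rw [hS] at hp hp'
          simp only [mem_filter, mem_univ, true_and] at hp hp'
          have hnn := pow_nonneg' G (i + j) p p'
          calc a ^ 2 * ((G.adjMatrix ℝ) ^ (i + j)) p p' = a * a * ((G.adjMatrix ℝ) ^ (i + j)) p p' := by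
                ring
            _ ≤ (((G.adjMatrix ℝ) ^ q) x p * ((G.adjMatrix ℝ) ^ q) y p') *
                ((G.adjMatrix ℝ) ^ (i + j)) p p' := by
                apply mul_le_mul_of_nonneg_right _ hnn
                exact mul_le_mul hp hp' hapos.le (pow_nonneg' G q x p)
            _ = _ := by ring
      _ ≤ ∑ p ∈ S x, ∑ p', ((G.adjMatrix ℝ) ^ q) x p * ((G.adjMatrix ℝ) ^ (i + j)) p p' *
          ((G.adjMatrix ℝ) ^ q) y p' := by
          apply sum_le_sum; intro p _
          apply sum_le_sum_of_subset_of_nonneg (subset_univ _)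
          intro p' _ _
          exact mul_nonneg (mul_nonneg (pow_nonneg' G q x p) (pow_nonneg' G _ p p'))
            (pow_nonneg' G q y p')
      _ ≤ _ := by
          apply sum_le_sum_of_subset_of_nonneg (subset_univ _)
          intro p _ _
          apply sum_nonneg
          intro p' _
          exact mul_nonneg (mul_nonneg (pow_nonneg' G q x p) (pow_nonneg' G _ p p'))
            (pow_nonneg' G q y p')
  -- pigeonhole
  by_contra hcon
  push Not at hcon
  set c : ℝ := η ^ (2 * q) * κ ^ (2 * J) / (8 * ((J : ℝ) + 1) ^ 2) with hc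
  have hcpos : 0 < c := by positivity
  have hlt : ∀ i ∈ range (J + 1), ∀ j ∈ range (J + 1),
      ((G.adjMatrix ℝ) ^ (2 * q + (i + j))) x y / r ^ (i + j) < c * r ^ (2 * q) / m := by
    intro i hi j hj
    rw [mem_range] at hi hj
    have h1 := hcon (2 * q + (i + j)) (by omega) (by omega)
    rw [div_lt_div_iff₀ (by positivity) hmpos]
    calc ((G.adjMatrix ℝ) ^ (2 * q + (i + j))) x y * m < c * r ^ (2 * q + (i + j)) := h1
      _ = c * r ^ (2 * q) * r ^ (i + j) := by rw [pow_add]; ring
  have hsum : ∑ i ∈ range (J + 1), ∑ j ∈ range (J + 1),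
      ((G.adjMatrix ℝ) ^ (2 * q + (i + j))) x y / r ^ (i + j) <
      ∑ i ∈ range (J + 1), ∑ j ∈ range (J + 1), c * r ^ (2 * q) / m := by
    have hne : (range (J + 1)).Nonempty := ⟨0, mem_range.2 (by omega)⟩
    apply sum_lt_sum_of_nonempty hne
    intro i hi
    apply sum_lt_sum_of_nonempty hne
    intro j hj
    exact hlt i hi j hj
  rw [sum_const, sum_const, card_range, nsmul_eq_mul, nsmul_eq_mul] at hsum
  have h1 : a ^ 2 * (κ ^ (2 * J) * (m / 2)) < ((J + 1 : ℕ) : ℝ) * (((J + 1 : ℕ) : ℝ) *
      (c * r ^ (2 * q) / m)) :=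
    lt_of_le_of_lt ((mul_le_mul_of_nonneg_left hlow (by positivity)).trans hupp) hsum
  have h2 : a ^ 2 * (κ ^ (2 * J) * (m / 2)) = η ^ (2 * q) * κ ^ (2 * J) * r ^ (2 * q) / (8 * m) := by
    rw [ha, div_pow, mul_pow η r q, mul_pow, ← pow_mul, ← pow_mul, mul_comm q 2]
    field_simp
    ring
  have h3 : ((J + 1 : ℕ) : ℝ) * (((J + 1 : ℕ) : ℝ) * (c * r ^ (2 * q) / m)) =
      η ^ (2 * q) * κ ^ (2 * J) * r ^ (2 * q) / (8 * m) := by
    rw [hc]
    push_cast
    field_simp
  rw [h2, h3] at h1
  exact lt_irrefl _ h1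

end Pool.Agent.Q115.GV
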