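import Pool.Agent.H35.XL.Q115_GV1
import Pool.Agent.H35.XL.Q115_GX4

/-! Decomposition into expanders with two-sided walk counts. -/

set_option autoImplicit false

open Finset

namespace Pool.Agent.Q115.GV

open Pool.Agent.Q115.GY Pool.Agent.Q115.GW

/-- the number of walks of length `l` from `x` to `y` -/
noncomputable def nw {V : Type*} (G : SimpleGraph V) (l : ℕ) (x y : V) : ℕ :=
  {p : G.Walk x y | p.length = l}.ncard

theorem nw_eq {V : Type*} [Fintype V] [DecidableEq V] (G : SimpleGraph V) [DecidableRel G.Adj]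
    (l : ℕ) (x y : V) : ((G.adjMatrix ℝ) ^ l) x y = (nw G l x y : ℝ) := by
  rw [G.adjMatrix_pow_apply_eq_card_walk]
  unfold nw
  rw [Set.ncard_eq_toFinset_card', Set.toFinset_card]

theorem nw_mono {W V : Type*} [Fintype V] (G' : SimpleGraph W) (G : SimpleGraph V) (f : G' →g G)
    (hf : Function.Injective f) (l : ℕ) (x y : W) : nw G' l x y ≤ nw G l (f x) (f y) := by
  classical
  unfold nw
  apply Set.ncard_le_ncard_of_injOn (fun p => p.map f)
  · intro p hp
    rw [Set.mem_ofPred_eq] at hp ⊢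
    rw [SimpleGraph.Walk.length_map, hp]
  · intro p _ p' _ h
    exact SimpleGraph.Walk.map_injective_of_injective hf x y h

/-- Expanders with two-sided walk counts. -/
def Balanced {V : Type} [Fintype V] (G : SimpleGraph V) (q : ℕ) (r η : ℝ) (L : ℕ) : Prop :=
  (∀ x, η * r ≤ ((G.neighborSet x).ncard : ℝ) ∧ ((G.neighborSet x).ncard : ℝ) ≤ η⁻¹ * r) ∧
  (∀ S : Finset V, 2 * S.card ≤ Fintype.card V →
    η * r * S.card ≤ ∑ x ∈ S, ((G.neighborSet x \ (S : Set V)).ncard : ℝ)) ∧
  (∀ (x y : V) (l : ℕ), q ≤ l → (nw G l x y : ℝ) * Fintype.card V ≤ (η⁻¹ * r) ^ l) ∧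
  ∀ x y, ∃ l : ℕ, q ≤ l ∧ l ≤ L ∧ η * r ^ l ≤ (nw G l x y : ℝ) * Fintype.card V

theorem Balanced.mono {V : Type} [Fintype V] {G : SimpleGraph V} {q : ℕ} {r η η' : ℝ} {L L' : ℕ}
    (h : Balanced G q r η L) (hr : 0 ≤ r) (hη' : 0 < η') (hη : η' ≤ η) (hL : L ≤ L') :
    Balanced G q r η' L' := by
  obtain ⟨h1, h2, h3, h4⟩ := h
  have hη0 : 0 < η := by linarith
  have hinv : η⁻¹ ≤ η'⁻¹ := inv_anti₀ hη' hη
  refine ⟨fun x => ⟨?_, ?_⟩, fun S hS => ?_, fun x y l hl => ?_, fun x y => ?_⟩
  · exact (mul_le_mul_of_nonneg_right hη hr).trans (h1 x).1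
  · exact (h1 x).2.trans (mul_le_mul_of_nonneg_right hinv hr)
  · refine le_trans ?_ (h2 S hS)
    apply mul_le_mul_of_nonneg_right _ (Nat.cast_nonneg _)
    exact mul_le_mul_of_nonneg_right hη hr
  · refine (h3 x y l hl).trans ?_
    exact pow_le_pow_left₀ (by positivity) (mul_le_mul_of_nonneg_right hinv hr) l
  · obtain ⟨l, hl1, hl2, hl3⟩ := h4 x y
    refine ⟨l, hl1, hl2.trans hL, le_trans ?_ hl3⟩
    exact mul_le_mul_of_nonneg_right hη (by positivity)

theorem balanced_of (q : ℕ) (hq : 1 ≤ q) (η K Λ : ℝ) (hη : 0 < η) (hK : 0 < K) (hΛ : 0 < Λ) :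
    ∃ (η' : ℝ) (L : ℕ), 0 < η' ∧ η' ≤ η ∧ η' ≤ K⁻¹ ∧ ∀ (V : Type) [Fintype V] (G : SimpleGraph V)
      (r : ℝ), 0 < r →
      (∀ x, η * r ≤ ((G.neighborSet x).ncard : ℝ) ∧ ((G.neighborSet x).ncard : ℝ) ≤ K * r) →
      (∀ S : Finset V, 2 * S.card ≤ Fintype.card V →
        η * r * S.card ≤ ∑ x ∈ S, ((G.neighborSet x \ (S : Set V)).ncard : ℝ)) →
      (∀ x, (nw G (2 * q) x x : ℝ) * Fintype.card V ≤ Λ * r ^ (2 * q)) →
      Balanced G (2 * q) r η' L := by
  classical
  obtain ⟨L, c, hc, h⟩ := two_sided q η K Λ hη hK hΛ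
  set C0 : ℝ := max 1 (max Λ K) with hC0
  have hC1 : 1 ≤ C0 := le_max_left _ _
  have hCΛ : Λ ≤ C0 := (le_max_left _ _).trans (le_max_right _ _)
  have hCK : K ≤ C0 := (le_max_right _ _).trans (le_max_right _ _)
  have hCpos : 0 < C0 := by linarith
  refine ⟨min (min η c) C0⁻¹, L, by positivity, (min_le_left _ _).trans (min_le_left _ _), ?_, ?_⟩
  · exact (min_le_right _ _).trans (inv_anti₀ hK hCK)
  intro V _ G r hr hdeg hexp htr
  set η' : ℝ := min (min η c) C0⁻¹ with hη'
  have hη'pos : 0 < η' := by positivity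
  have hη'1 : η' ≤ η := (min_le_left _ _).trans (min_le_left _ _)
  have hη'2 : η' ≤ c := (min_le_left _ _).trans (min_le_right _ _)
  have hη'3 : C0 ≤ η'⁻¹ := by
    have := inv_anti₀ hη'pos (min_le_right (min η c) C0⁻¹ : η' ≤ C0⁻¹)
    rwa [inv_inv] at this
  have hdegeq : ∀ x, ((G.neighborSet x).ncard : ℝ) = (G.degree x : ℝ) := by
    intro x
    rw [← G.card_neighborFinset_eq_degree, ← Set.ncard_coe_finset, SimpleGraph.coe_neighborFinset]
  have hsdeq : ∀ (x : V) (S : Finset V), ((G.neighborSet x \ (S : Set V)).ncard : ℝ) =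
      ((G.neighborFinset x \ S).card : ℝ) := by
    intro x S
    rw [← Set.ncard_coe_finset, coe_sdiff, SimpleGraph.coe_neighborFinset]
  have hdeg' : ∀ x, η * r ≤ (G.degree x : ℝ) ∧ (G.degree x : ℝ) ≤ K * r := by
    intro x
    rw [← hdegeq]
    exact hdeg x
  have hexp' : ∀ S : Finset V, 2 * S.card ≤ Fintype.card V →
      η * r * S.card ≤ ∑ x ∈ S, ((G.neighborFinset x \ S).card : ℝ) := by
    intro S hS
    have := hexp S hS
    simp only [hsdeq] at this
    exact this
  have htr' : ∀ x, ((G.adjMatrix ℝ) ^ (2 * q)) x x * Fintype.card V ≤ Λ * r ^ (2 * q) := by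
    intro x
    rw [nw_eq]
    exact htr x
  refine ⟨fun x => ⟨?_, ?_⟩, fun S hS => ?_, fun x y l hl => ?_, fun x y => ?_⟩
  · exact (mul_le_mul_of_nonneg_right hη'1 hr.le).trans (hdeg x).1
  · exact (hdeg x).2.trans (mul_le_mul_of_nonneg_right (hCK.trans hη'3) hr.le)
  · refine le_trans ?_ (hexp S hS)
    apply mul_le_mul_of_nonneg_right _ (Nat.cast_nonneg _)
    exact mul_le_mul_of_nonneg_right hη'1 hr.le
  · have hmpos : (0 : ℝ) < Fintype.card V := by
      have : 0 < Fintype.card V := Fintype.card_pos_iff.2 ⟨x⟩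
      exact_mod_cast this
    have h1 := walk_upper G q (Λ * r ^ (2 * q) / Fintype.card V) (K * r) (by positivity)
      (fun z => by rw [le_div_iff₀ hmpos]; exact htr' z) (fun z => (hdeg' z).2) l hl x y
    rw [nw_eq] at h1
    calc (nw G l x y : ℝ) * Fintype.card V
        ≤ (Λ * r ^ (2 * q) / Fintype.card V * (K * r) ^ (l - 2 * q)) * Fintype.card V :=
          mul_le_mul_of_nonneg_right h1 hmpos.le
      _ = Λ * K ^ (l - 2 * q) * (r ^ (2 * q) * r ^ (l - 2 * q)) := by
          rw [mul_pow]; field_simp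
      _ ≤ (C0 ^ (2 * q) * C0 ^ (l - 2 * q)) * (r ^ (2 * q) * r ^ (l - 2 * q)) := by
          apply mul_le_mul_of_nonneg_right _ (by positivity)
          apply mul_le_mul _ (pow_le_pow_left₀ hK.le hCK _) (by positivity) (by positivity)
          exact hCΛ.trans (le_self_pow₀ hC1 (by omega))
      _ = (C0 * r) ^ l := by
          rw [← pow_add, ← pow_add, show 2 * q + (l - 2 * q) = l by omega, mul_pow]
      _ ≤ _ := pow_le_pow_left₀ (by positivity) (mul_le_mul_of_nonneg_right hη'3 hr.le) l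
  · obtain ⟨l, hl1, hl2, hl3⟩ := h V G r hr hdeg' hexp' htr' x y
    refine ⟨l, hl1, hl2, ?_⟩
    rw [nw_eq] at hl3
    exact (mul_le_mul_of_nonneg_right hη'2 (by positivity)).trans hl3

/-- degrees and expansion of an induced subgraph -/
theorem comap_nbr {V W : Type} [Fintype V] [DecidableEq V] [DecidableEq W] (G : SimpleGraph V)
    [DecidableRel G.Adj]
    (U : Finset V) (φ : W → V) (hφ : Function.Injective φ) (hφU : ∀ i, φ i ∈ U)
    (hrange : ∀ y ∈ U, ∃ j, φ j = y) (i : W) (S : Finset W) :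
    ((G.comap φ).neighborSet i \ (S : Set W)).ncard =
      ((U \ S.image φ).filter fun y => G.Adj (φ i) y).card := by
  have e : φ '' ((G.comap φ).neighborSet i \ (S : Set W)) =
      (((U \ S.image φ).filter fun y => G.Adj (φ i) y : Finset _) : Set V) := by
    ext y
    simp only [Set.mem_image, Set.mem_sdiff, SimpleGraph.mem_neighborSet, SimpleGraph.comap_adj,
      coe_filter, mem_sdiff, mem_image, mem_coe, not_exists, not_and, Set.mem_ofPred_eq]
    constructor
    · rintro ⟨j, ⟨hj, hjS⟩, rfl⟩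
      refine ⟨⟨hφU j, ?_⟩, hj⟩
      intro l hl hlj
      exact hjS (hφ hlj ▸ hl)
    · rintro ⟨⟨hy, hyS⟩, hadj⟩
      obtain ⟨j, rfl⟩ := hrange y hy
      exact ⟨j, ⟨hadj, fun hj => hyS j hj rfl⟩, rfl⟩
  rw [← Set.ncard_image_of_injective _ hφ, e, Set.ncard_coe_finset]

/-- **Decomposition into balanced expanders.** -/
theorem decomp_bal (α M c ε : ℝ) (q : ℕ) (Q : ℝ → ℝ) (hα : 0 < α) (hM : 0 < M) (hc : 0 < c)
    (hε : 0 < ε) (hq : 1 ≤ q) (hQ : ∀ K, 0 < K → 0 < Q K) :
    ∃ (η : ℝ) (L : ℕ), 0 < η ∧ ∀ (V : Type) [Fintype V] [DecidableEq V] (G : SimpleGraph V)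
      [DecidableRel G.Adj],
      (∀ X : Finset V, ∑ x ∈ X, ((X.filter (fun y => G.Adj x y)).card : ℝ) ≤
        M * (X.card : ℝ) ^ (1 + α)) →
      (∀ K : ℝ, 0 < K → ∀ H : SimpleGraph V, H ≤ G →
        (∀ x, ((H.neighborSet x).ncard : ℝ) ≤ K * (Fintype.card V : ℝ) ^ α) →
        ∑ x, (nw H (2 * q) x x : ℝ) ≤ Q K * ((Fintype.card V : ℝ) ^ α) ^ (2 * q)) →
      c * (Fintype.card V : ℝ) ^ (1 + α) ≤ ∑ x, ((univ.filter (fun y => G.Adj x y)).card : ℝ) →
      ∃ Ps : Finset (Finset V), (∀ U ∈ Ps, ∀ W ∈ Ps, U ≠ W → Disjoint U W) ∧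
        (1 - ε) * (∑ x, ((univ.filter (fun y => G.Adj x y)).card : ℝ)) ≤
          (∑ U ∈ Ps, ∑ x ∈ U, ((U.filter (fun y => G.Adj x y)).card : ℝ)) ∧
        ∀ U ∈ Ps, η * (Fintype.card V : ℝ) ≤ (U.card : ℝ) ∧ 2 ≤ U.card ∧
          (∀ x ∈ U, ((univ.filter (fun y => G.Adj x y)).card : ℝ) ≤
            η⁻¹ * (Fintype.card V : ℝ) ^ α) ∧
          Balanced (G.comap (Subtype.val : U → V)) (2 * q) ((Fintype.card V : ℝ) ^ α) η L := by
  classical
  set ε1 : ℝ := min ε 1 with hε1
  have hε1pos : 0 < ε1 := by positivity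
  have hε1le : ε1 ≤ ε := min_le_left _ _
  have hε11 : ε1 ≤ 1 := min_le_right _ _
  set A : ℝ := (2 : ℝ) ^ (2 + α) * M ^ (1 + α) with hA
  have hApos : 0 < A := by positivity
  set K : ℝ := (8 * A / (ε1 * c)) ^ (1 / α) with hK
  have hKpos : 0 < K := by positivity
  have hKα : K ^ α = 8 * A / (ε1 * c) := by
    rw [hK, ← Real.rpow_mul (by positivity), one_div_mul_cancel hα.ne', Real.rpow_one]
  have hQK := hQ K hKpos
  set Λ : ℝ := 8 * K * Q K / (ε1 * c) with hΛ
  have hΛpos : 0 < Λ := by positivity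
  obtain ⟨η1, hη1, hdec⟩ := Pool.Agent.Q115.GX.decomp α M (c / 2) (ε1 / 2) hα hM (by positivity)
    (by positivity)
  obtain ⟨η2, L, hη2, hη21, hη2K, hbal⟩ := balanced_of q hq η1 K Λ hη1 hKpos hΛpos
  refine ⟨η2, L, hη2, ?_⟩
  intro V _ _ G _ her htrace hsize
  rcases isEmpty_or_nonempty V with hemp | hne
  · refine ⟨∅, by simp, ?_, by simp⟩
    simp
  obtain ⟨n, hn⟩ : ∃ n : ℝ, n = (Fintype.card V : ℝ) := ⟨_, rfl⟩
  have hnpos : 0 < n := by rw [hn]; exact_mod_cast Fintype.card_pos
  have htail := Pool.Agent.Q115.GX.tail_gen G α M K hα hM hKpos her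
  rw [← hn] at htrace hsize htail ⊢
  set r : ℝ := n ^ α with hr
  have hrpos : 0 < r := by positivity
  have hnr : n ^ (1 + α) = n * r := by rw [Real.rpow_add hnpos, Real.rpow_one]
  set dg : V → ℝ := fun x => ((univ.filter (fun y => G.Adj x y)).card : ℝ) with hdg
  have hdgnn : ∀ x, 0 ≤ dg x := fun x => Nat.cast_nonneg _
  set E : ℝ := ∑ x, dg x with hE
  -- low-degree part
  set H := univ.filter (fun x => K * r < dg x) with hH
  let G1 : SimpleGraph V :=
    { Adj := fun a b => G.Adj a b ∧ a ∉ H ∧ b ∉ H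
      symm := ⟨fun a b h => ⟨h.1.symm, h.2.2, h.2.1⟩⟩
      loopless := ⟨fun a h => G.irrefl h.1⟩ }
  have hG1G : G1 ≤ G := fun a b h => h.1
  have hG1deg : ∀ x, ((G1.neighborSet x).ncard : ℝ) ≤ K * r := by
    intro x
    by_cases hx : x ∈ H
    · have : G1.neighborSet x = ∅ := by
        ext y
        simp only [SimpleGraph.mem_neighborSet, Set.mem_empty_iff_false, iff_false]
        exact fun h => h.2.1 hx
      rw [this, Set.ncard_empty, Nat.cast_zero]
      positivity
    · have h1 : dg x ≤ K * r := by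
        by_contra h
        exact hx (by rw [hH, mem_filter]; exact ⟨mem_univ _, not_le.1 h⟩)
      refine le_trans ?_ h1
      simp only [hdg]
      rw [← Set.ncard_coe_finset]
      apply Nat.cast_le.2
      apply Set.ncard_le_ncard _ (Set.toFinite _)
      intro y hy
      rw [SimpleGraph.mem_neighborSet] at hy
      simpa using hy.1
  have htr1 := htrace K hKpos G1 hG1G hG1deg
  -- vertices with many closed walks
  set Bad := univ.filter (fun x => Λ * r ^ (2 * q) < (nw G1 (2 * q) x x : ℝ) * n) with hBad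
  have hBadcard : (Bad.card : ℝ) * Λ ≤ Q K * n := by
    have h1 : (Bad.card : ℝ) * (Λ * r ^ (2 * q)) ≤ (Q K * r ^ (2 * q)) * n := by
      calc (Bad.card : ℝ) * (Λ * r ^ (2 * q)) = ∑ x ∈ Bad, Λ * r ^ (2 * q) := by
            rw [sum_const, nsmul_eq_mul]
        _ ≤ ∑ x ∈ Bad, (nw G1 (2 * q) x x : ℝ) * n := by
            apply sum_le_sum
            intro x hx
            rw [hBad, mem_filter] at hx
            exact hx.2.le
        _ ≤ ∑ x, (nw G1 (2 * q) x x : ℝ) * n :=
            sum_le_sum_of_subset_of_nonneg (subset_univ _) (fun x _ _ => by positivity)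
        _ = (∑ x, (nw G1 (2 * q) x x : ℝ)) * n := by rw [sum_mul]
        _ ≤ _ := mul_le_mul_of_nonneg_right htr1 hnpos.le
    have h2 : ((Bad.card : ℝ) * Λ) * r ^ (2 * q) ≤ (Q K * n) * r ^ (2 * q) := by
      calc ((Bad.card : ℝ) * Λ) * r ^ (2 * q) = (Bad.card : ℝ) * (Λ * r ^ (2 * q)) := by ring
        _ ≤ _ := h1
        _ = _ := by ring
    exact le_of_mul_le_mul_right h2 (by positivity)
  -- the cleaned graph
  set R := H ∪ Bad with hR
  let G2 : SimpleGraph V :=
    { Adj := fun a b => G.Adj a b ∧ a ∉ R ∧ b ∉ R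
      symm := ⟨fun a b h => ⟨h.1.symm, h.2.2, h.2.1⟩⟩
      loopless := ⟨fun a h => G.irrefl h.1⟩ }
  have hG2G : G2 ≤ G := fun a b h => h.1
  have hRdeg : ∑ x ∈ R, dg x ≤ ε1 * c / 4 * (n * r) := by
    have h1 : ∑ x ∈ R, dg x ≤ ∑ x ∈ H, dg x + ∑ x ∈ Bad \ H, dg x := by
      rw [← sum_union disjoint_sdiff]
      apply le_of_eq
      congr 1
      rw [hR]
      ext x
      simp
    have h2 : ∑ x ∈ Bad \ H, dg x ≤ Bad.card * (K * r) := by
      calc ∑ x ∈ Bad \ H, dg x ≤ ∑ x ∈ Bad \ H, K * r := by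
            apply sum_le_sum
            intro x hx
            rw [mem_sdiff] at hx
            by_contra hcon
            exact hx.2 (mem_filter.2 ⟨mem_univ _, not_le.1 hcon⟩)
        _ = ((Bad \ H).card : ℝ) * (K * r) := by rw [sum_const, nsmul_eq_mul]
        _ ≤ _ := by
            apply mul_le_mul_of_nonneg_right _ (by positivity)
            exact_mod_cast card_le_card sdiff_subset
    have h3 : (Bad.card : ℝ) * (K * r) ≤ ε1 * c / 8 * (n * r) := by
      have h4 : (Bad.card : ℝ) ≤ Q K * n / Λ := by rw [le_div_iff₀ hΛpos]; exact hBadcard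
      calc (Bad.card : ℝ) * (K * r) ≤ (Q K * n / Λ) * (K * r) :=
            mul_le_mul_of_nonneg_right h4 (by positivity)
        _ = ε1 * c / 8 * (n * r) := by
            rw [hΛ]
            field_simp
    have h5 : ∑ x ∈ H, dg x ≤ ε1 * c / 8 * (n * r) := by
      refine htail.trans (le_of_eq ?_)
      rw [hnr, hKα, ← hA]
      field_simp
    calc ∑ x ∈ R, dg x ≤ ε1 * c / 8 * (n * r) + ε1 * c / 8 * (n * r) := by linarith
      _ = _ := by ring
  set dg2 : V → ℝ := fun x => ((univ.filter (fun y => G2.Adj x y)).card : ℝ) with hdg2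
  have hloss : E ≤ ∑ x, dg2 x + 2 * ∑ x ∈ R, dg x := by
    have e0 : ∀ (F : SimpleGraph V) (x : V), ((univ.filter (fun y => F.Adj x y)).card : ℝ) =
        ∑ y, (if F.Adj x y then (1 : ℝ) else 0) := by
      intro F x
      rw [sum_boole]
    have e1 : ∑ x, ∑ y, (if x ∈ R then (if G.Adj x y then (1 : ℝ) else 0) else 0) =
        ∑ x ∈ R, dg x := by
      have : ∀ x, ∑ y, (if x ∈ R then (if G.Adj x y then (1 : ℝ) else 0) else 0) =
          if x ∈ R then dg x else 0 := by
        intro x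
        by_cases h : x ∈ R
        · simp only [h, if_true, hdg]
          rw [sum_boole]
        · simp [h]
      simp only [this]
      rw [sum_ite_mem, univ_inter]
    have e2 : ∑ x, ∑ y, (if y ∈ R then (if G.Adj x y then (1 : ℝ) else 0) else 0) =
        ∑ x ∈ R, dg x := by
      rw [sum_comm, ← e1]
      apply sum_congr rfl; intro x _
      apply sum_congr rfl; intro y _
      simp only [G.adj_comm x y]
    calc E = ∑ x, ∑ y, (if G.Adj x y then (1 : ℝ) else 0) := by
          rw [hE]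
          exact sum_congr rfl (fun x _ => by simp only [hdg]; rw [sum_boole])
      _ ≤ ∑ x, ∑ y, ((if G2.Adj x y then (1 : ℝ) else 0) +
          ((if x ∈ R then (if G.Adj x y then (1 : ℝ) else 0) else 0) +
            (if y ∈ R then (if G.Adj x y then (1 : ℝ) else 0) else 0))) := by
          apply sum_le_sum; intro x _
          apply sum_le_sum; intro y _
          by_cases h : G.Adj x y
          · by_cases hx : x ∈ R
            · simp only [h, hx, if_true]
              split_ifs <;> norm_num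
            · by_cases hy : y ∈ R
              · simp only [h, hx, hy, if_true, if_false]
                split_ifs <;> norm_num
              · have : G2.Adj x y := ⟨h, hx, hy⟩
                simp [h, hx, hy, this]
          · have : ¬ G2.Adj x y := fun h' => h h'.1
            simp [h, this]
      _ = _ := by
          simp only [sum_add_distrib]
          rw [e1, e2]
          have : ∑ x, ∑ y, (if G2.Adj x y then (1 : ℝ) else 0) = ∑ x, dg2 x := by
            apply sum_congr rfl; intro x _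
            simp only [hdg2]
            rw [sum_boole]
          rw [this]
          ring
  have hEge : c * (n * r) ≤ E := by rw [← hnr]; exact hsize
  have hE2 : (1 - ε1 / 2) * E ≤ ∑ x, dg2 x := by
    have : ε1 * (c * (n * r)) ≤ ε1 * E := mul_le_mul_of_nonneg_left hEge hε1pos.le
    nlinarith
  have her2 : ∀ X : Finset V, ∑ x ∈ X, ((X.filter (fun y => G2.Adj x y)).card : ℝ) ≤
      M * (X.card : ℝ) ^ (1 + α) := by
    intro X
    refine le_trans (sum_le_sum (fun x _ => ?_)) (her X)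
    apply Nat.cast_le.2
    apply card_le_card
    intro y hy
    rw [mem_filter] at hy ⊢
    exact ⟨hy.1, hy.2.1⟩
  have hsize2 : c / 2 * n ^ (1 + α) ≤ ∑ x, dg2 x := by
    rw [hnr]
    have h1 : (1 / 2 : ℝ) * E ≤ (1 - ε1 / 2) * E := by
      apply mul_le_mul_of_nonneg_right _ (by linarith [mul_pos hc (mul_pos hnpos hrpos)])
      linarith
    linarith
  obtain ⟨Ps, hP1, hP2, hP3⟩ := hdec V G2 her2 (by rw [← hn]; convert hsize2)
  rw [← hn] at hP3
  refine ⟨Ps, hP1, ?_, ?_⟩
  · have h1 : (1 - ε1 / 2) * ∑ x, dg2 x ≤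
        ∑ U ∈ Ps, ∑ x ∈ U, ((U.filter (fun y => G2.Adj x y)).card : ℝ) := by convert hP2
    have h2 : ∑ U ∈ Ps, ∑ x ∈ U, ((U.filter (fun y => G2.Adj x y)).card : ℝ) ≤
        ∑ U ∈ Ps, ∑ x ∈ U, ((U.filter (fun y => G.Adj x y)).card : ℝ) := by
      apply sum_le_sum; intro U _
      apply sum_le_sum; intro x _
      apply Nat.cast_le.2
      apply card_le_card
      intro y hy
      rw [mem_filter] at hy ⊢
      exact ⟨hy.1, hy.2.1⟩
    have hEpos : 0 < E := lt_of_lt_of_le (by positivity) hEge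
    have h3 : (1 - ε1 / 2) * ((1 - ε1 / 2) * E) ≤ (1 - ε1 / 2) * ∑ x, dg2 x :=
      mul_le_mul_of_nonneg_left hE2 (by linarith)
    have h4 : (1 - ε) * E ≤ (1 - ε1 / 2) * ((1 - ε1 / 2) * E) := by
      have h5 : (1 - ε) ≤ (1 - ε1 / 2) * (1 - ε1 / 2) := by nlinarith
      calc (1 - ε) * E ≤ ((1 - ε1 / 2) * (1 - ε1 / 2)) * E :=
            mul_le_mul_of_nonneg_right h5 hEpos.le
        _ = _ := by ring
    linarith
  · intro U hU
    obtain ⟨p1, p2, p3, p4⟩ := hP3 U hU
    have hUR : ∀ x ∈ U, x ∉ R := by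
      intro x hx hxR
      have h1 := (p3 x hx).1
      have h2 : U.filter (fun y => G2.Adj x y) = ∅ := by
        ext y
        simp only [mem_filter, notMem_empty, iff_false, not_and]
        exact fun _ h => h.2.1 hxR
      have h3 : 0 < η1 * r := by positivity
      have h4 : ((U.filter (fun y => G2.Adj x y)).card : ℝ) = 0 := by rw [h2]; simp
      have h5 : η1 * r ≤ ((U.filter (fun y => G2.Adj x y)).card : ℝ) := by convert h1
      linarith
    have hUH : ∀ x ∈ U, x ∉ H := fun x hx h => hUR x hx (mem_union_left _ h)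
    have hUB : ∀ x ∈ U, x ∉ Bad := fun x hx h => hUR x hx (mem_union_right _ h)
    have hUK : ∀ x ∈ U, dg x ≤ K * r := by
      intro x hx
      by_contra hcon
      exact hUH x hx (by rw [hH, mem_filter]; exact ⟨mem_univ _, not_le.1 hcon⟩)
    have hadj : ∀ x ∈ U, ∀ y ∈ U, (G2.Adj x y ↔ G.Adj x y) := fun x hx y hy =>
      ⟨fun h => h.1, fun h => ⟨h, hUR x hx, hUR y hy⟩⟩
    have hUn : (U.card : ℝ) ≤ n := by rw [hn]; exact_mod_cast card_le_univ U
    refine ⟨(mul_le_mul_of_nonneg_right hη21 hnpos.le).trans p1, p2, fun x hx => ?_, ?_⟩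
    · refine (hUK x hx).trans ?_
      apply mul_le_mul_of_nonneg_right _ hrpos.le
      have := inv_anti₀ hη2 hη2K
      rwa [inv_inv] at this
    · have hcard : Fintype.card U = U.card := Fintype.card_coe U
      apply hbal U (G.comap (Subtype.val : U → V)) r hrpos
      · intro x
        have e := comap_nbr G U (Subtype.val : U → V) Subtype.val_injective (fun i => i.2)
          (fun y hy => ⟨⟨y, hy⟩, rfl⟩) x ∅
        rw [coe_empty, Set.sdiff_empty, image_empty, sdiff_empty] at e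
        rw [e]
        constructor
        · refine (p3 x.1 x.2).1.trans (le_of_eq ?_)
          congr 2
          ext y
          simp only [mem_filter]
          constructor
          · rintro ⟨h1, h2⟩; exact ⟨h1, h2.1⟩
          · rintro ⟨h1, h2⟩; exact ⟨h1, (hadj x.1 x.2 y h1).2 h2⟩
        · refine le_trans ?_ (hUK x.1 x.2)
          simp only [hdg]
          apply Nat.cast_le.2
          apply card_le_card
          intro y hy
          rw [mem_filter] at hy ⊢
          exact ⟨mem_univ _, hy.2⟩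
      · intro S hS
        have hc' : (S.image (Subtype.val : U → V)).card = S.card :=
          card_image_of_injective _ Subtype.val_injective
        have hSU : S.image (Subtype.val : U → V) ⊆ U := by
          intro y hy
          rw [mem_image] at hy
          obtain ⟨j, _, rfl⟩ := hy
          exact j.2
        have h1 := p4 (S.image (Subtype.val : U → V)) hSU (by rw [hc', ← hcard]; exact hS)
        rw [hc', sum_image (fun a _ b _ h => Subtype.val_injective h)] at h1
        refine h1.trans (le_of_eq ?_)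
        apply sum_congr rfl
        intro x _
        rw [comap_nbr G U (Subtype.val : U → V) Subtype.val_injective (fun i => i.2)
          (fun y hy => ⟨⟨y, hy⟩, rfl⟩) x S]
        congr 2
        ext y
        simp only [mem_filter, mem_sdiff]
        constructor
        · rintro ⟨h1, h2⟩; exact ⟨h1, h2.1⟩
        · rintro ⟨h1, h2⟩; exact ⟨h1, (hadj x.1 x.2 y h1.1).2 h2⟩
      · intro x
        have hhom : nw (G.comap (Subtype.val : U → V)) (2 * q) x x ≤ nw G1 (2 * q) x.1 x.1 := by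
          apply nw_mono (G.comap (Subtype.val : U → V)) G1
            ⟨Subtype.val, fun {a b} h => ⟨h, hUH a.1 a.2, hUH b.1 b.2⟩⟩ Subtype.val_injective
        have h2 : (nw G1 (2 * q) x.1 x.1 : ℝ) * n ≤ Λ * r ^ (2 * q) := by
          by_contra hcon
          exact hUB x.1 x.2 (by rw [hBad, mem_filter]; exact ⟨mem_univ _, not_le.1 hcon⟩)
        rw [hcard]
        calc (nw (G.comap (Subtype.val : U → V)) (2 * q) x x : ℝ) * U.card
            ≤ (nw G1 (2 * q) x.1 x.1 : ℝ) * n :=
              mul_le_mul (by exact_mod_cast hhom) hUn (Nat.cast_nonneg _) (Nat.cast_nonneg _)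
          _ ≤ _ := h2

end Pool.Agent.Q115.GV
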