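import Mathlib

/-! Symmetric matrices with a bounded Schatten norm are approximated in the cut norm by their
averages over boundedly many classes. -/

set_option autoImplicit false

open Finset

namespace Pool.Agent.Q115.GY

variable {V : Type*} [Fintype V] [DecidableEq V]

/-- eigenvectors as functions -/
noncomputable def ev {A : Matrix V V ℝ} (hA : A.IsHermitian) (i x : V) : ℝ :=
  (hA.eigenvectorBasis i) x

theorem ev_parseval {A : Matrix V V ℝ} (hA : A.IsHermitian) (f g : V → ℝ) :
    ∑ x, f x * g x = ∑ i, (∑ x, f x * ev hA i x) * (∑ x, g x * ev hA i x) := by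
  have h := hA.eigenvectorBasis.sum_inner_mul_inner (WithLp.toLp 2 f) (WithLp.toLp 2 g)
  simp only [PiLp.inner_apply, RCLike.inner_apply, conj_trivial] at h
  rw [show (∑ x, f x * g x) = ∑ x, g x * f x from sum_congr rfl (fun x _ => mul_comm _ _), ← h]
  apply sum_congr rfl
  intro i _
  congr 1
  apply sum_congr rfl
  intro x _
  rw [mul_comm]
  rfl

theorem ev_norm {A : Matrix V V ℝ} (hA : A.IsHermitian) (i : V) : ∑ x, ev hA i x ^ 2 = 1 := by
  have h := hA.eigenvectorBasis.orthonormal.1 i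
  have h2 : ‖hA.eigenvectorBasis i‖ ^ 2 = 1 := by rw [h]; norm_num
  rw [EuclideanSpace.norm_sq_eq] at h2
  rw [← h2]
  apply sum_congr rfl
  intro x _
  rw [Real.norm_eq_abs, sq_abs]
  rfl

theorem ev_mul {A : Matrix V V ℝ} (hA : A.IsHermitian) (i x : V) :
    ∑ y, A x y * ev hA i y = hA.eigenvalues i * ev hA i x := by
  have h := hA.mulVec_eigenvectorBasis i
  have := congrFun h x
  simpa [Matrix.mulVec, dotProduct, ev] using this

theorem ev_pow {A : Matrix V V ℝ} (hA : A.IsHermitian) (i : V) (k : ℕ) : ∀ x,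
    ∑ y, (A ^ k) x y * ev hA i y = hA.eigenvalues i ^ k * ev hA i x := by
  induction k with
  | zero =>
    intro x
    simp [Matrix.one_apply]
  | succ k ih =>
    intro x
    rw [pow_succ]
    simp only [Matrix.mul_apply, sum_mul]
    rw [sum_comm]
    have : ∀ y, ∑ z, (A ^ k) x y * A y z * ev hA i z =
        hA.eigenvalues i * ((A ^ k) x y * ev hA i y) := by
      intro y
      have := ev_mul hA i y
      simp only [mul_assoc, ← mul_sum]
      rw [this]
      ring
    rw [sum_congr rfl (fun y _ => this y), ← mul_sum, ih x]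
    ring

/-- the Frobenius norm of a power and the eigenvalues -/
theorem sum_eig {A : Matrix V V ℝ} (hA : A.IsHermitian) (k : ℕ) :
    ∑ i, hA.eigenvalues i ^ (2 * k) = ∑ x, ∑ y, ((A ^ k) x y) ^ 2 := by
  have h1 : ∀ x, ∑ y, ((A ^ k) x y) ^ 2 = ∑ i, hA.eigenvalues i ^ (2 * k) * ev hA i x ^ 2 := by
    intro x
    have := ev_parseval hA (fun y => (A ^ k) x y) (fun y => (A ^ k) x y)
    simp only [← sq] at this
    rw [this]
    apply sum_congr rfl
    intro i _
    rw [ev_pow hA i k x, mul_pow, ← pow_mul, mul_comm k 2]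
  rw [sum_congr rfl (fun x _ => h1 x), sum_comm]
  apply sum_congr rfl
  intro i _
  rw [← mul_sum, ev_norm hA i, mul_one]

/-- the quadratic form in terms of the eigenvectors -/
theorem form_eq {A : Matrix V V ℝ} (hA : A.IsHermitian) (f g : V → ℝ) :
    ∑ x, ∑ y, f x * A x y * g y =
      ∑ i, hA.eigenvalues i * ((∑ x, f x * ev hA i x) * (∑ x, g x * ev hA i x)) := by
  have h1 : ∑ x, ∑ y, f x * A x y * g y = ∑ x, f x * (∑ y, A x y * g y) := by
    apply sum_congr rfl
    intro x _
    rw [mul_sum]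
    apply sum_congr rfl
    intro y _
    ring
  rw [h1, ev_parseval hA f (fun x => ∑ y, A x y * g y)]
  apply sum_congr rfl
  intro i _
  have h2 : ∑ x, (∑ y, A x y * g y) * ev hA i x =
      hA.eigenvalues i * ∑ x, g x * ev hA i x := by
    simp only [sum_mul]
    rw [sum_comm, mul_sum]
    apply sum_congr rfl
    intro y _
    have hsym : ∀ x, A x y = A y x := by
      intro x
      have := hA.apply y x
      simpa using this
    have := ev_mul hA i y
    calc ∑ x, A x y * g y * ev hA i x = g y * ∑ x, A y x * ev hA i x := by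
          rw [mul_sum]
          apply sum_congr rfl
          intro x _
          rw [hsym x]
          ring
      _ = _ := by rw [this]; ring
  rw [h2]
  ring

/-- averages over the classes of a colouring -/
noncomputable def avg {ι : Type*} [DecidableEq ι] (χ : V → ι) (f : V → ℝ) (x : V) : ℝ :=
  (∑ y ∈ univ.filter (fun y => χ y = χ x), f y) / ((univ.filter (fun y => χ y = χ x)).card : ℝ)

theorem avg_orth {ι : Type*} [DecidableEq ι] (χ : V → ι) (f : V → ℝ) (w : ι → ℝ) :
    ∑ x, (f x - avg χ f x) * w (χ x) = 0 := by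
  have h1 : ∑ x, (f x - avg χ f x) * w (χ x) =
      ∑ c ∈ univ.image χ, ∑ x ∈ univ.filter (fun x => χ x = c), (f x - avg χ f x) * w (χ x) := by
    rw [sum_fiberwise_of_maps_to (fun x _ => mem_image_of_mem χ (mem_univ x))]
  rw [h1]
  apply sum_eq_zero
  intro c hc
  rw [mem_image] at hc
  obtain ⟨x0, _, hx0⟩ := hc
  have h2 : ∀ x ∈ univ.filter (fun x => χ x = c), (f x - avg χ f x) * w (χ x) =
      f x * w c - (∑ y ∈ univ.filter (fun y => χ y = c), f y) /
        ((univ.filter (fun y => χ y = c)).card : ℝ) * w c := by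
    intro x hx
    rw [mem_filter] at hx
    unfold avg
    rw [hx.2]
    ring
  rw [sum_congr rfl h2, sum_sub_distrib, ← sum_mul, sum_const, nsmul_eq_mul]
  have hcard : ((univ.filter (fun y => χ y = c)).card : ℝ) ≠ 0 := by
    have : 0 < (univ.filter (fun y => χ y = c)).card :=
      card_pos.2 ⟨x0, by rw [mem_filter]; exact ⟨mem_univ _, hx0⟩⟩
    positivity
  field_simp
  ring

theorem avg_mem {ι : Type*} [DecidableEq ι] (χ : V → ι) (f : V → ℝ) (h0 : ∀ x, 0 ≤ f x)
    (h1 : ∀ x, f x ≤ 1) (x : V) : 0 ≤ avg χ f x ∧ avg χ f x ≤ 1 := by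
  unfold avg
  constructor
  · exact div_nonneg (sum_nonneg (fun y _ => h0 y)) (Nat.cast_nonneg _)
  · apply div_le_one_of_le₀ _ (Nat.cast_nonneg _)
    calc ∑ y ∈ univ.filter (fun y => χ y = χ x), f y
        ≤ ∑ y ∈ univ.filter (fun y => χ y = χ x), (1 : ℝ) := sum_le_sum (fun y _ => h1 y)
      _ = _ := by simp

/-- **Approximation in the cut norm.** -/
theorem cut_approx (k : ℕ) (hk : 1 ≤ k) (Q ε : ℝ) (hQ : 0 < Q) (hε : 0 < ε) :
    ∃ M : ℕ, ∀ (V : Type) [Fintype V] [DecidableEq V] (A : Matrix V V ℝ) (hA : A.IsHermitian)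
      (r : ℝ), 0 < r → ∑ i, hA.eigenvalues i ^ (2 * k) ≤ Q * r ^ (2 * k) →
      ∃ χ : V → Fin M, ∀ f g : V → ℝ, (∀ x, 0 ≤ f x ∧ f x ≤ 1) → (∀ x, 0 ≤ g x ∧ g x ≤ 1) →
        |∑ x, ∑ y, f x * A x y * g y - ∑ x, ∑ y, avg χ f x * A x y * avg χ g y| ≤
          ε * r * Fintype.card V := by
  classical
  -- parameters
  obtain ⟨R, hR⟩ := exists_nat_ge (Q / (ε / 3) ^ (2 * k))
  obtain ⟨T, hT⟩ := exists_nat_ge (max 1 (4 * R * (Q + 1) / (ε / 3)))
  have hT1 : (1 : ℝ) ≤ T := (le_max_left _ _).trans hT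
  have hT2 : 4 * R * (Q + 1) / (ε / 3) ≤ T := (le_max_right _ _).trans hT
  have hTpos : (0 : ℝ) < T := by linarith
  set B : ℕ := 2 * (T ^ 2 + 1) + 1 with hB
  refine ⟨B ^ R, ?_⟩
  intro V _ _ A hA r hr hsum
  rcases isEmpty_or_nonempty V with hemp | hne
  · refine ⟨fun x => (hemp.false x).elim, fun f g _ _ => by simp⟩
  obtain ⟨n, hn⟩ : ∃ n : ℝ, n = (Fintype.card V : ℝ) := ⟨_, rfl⟩
  have hnpos : 0 < n := by rw [hn]; exact_mod_cast Fintype.card_pos
  set sn : ℝ := Real.sqrt n with hsn
  have hsnpos : 0 < sn := Real.sqrt_pos.2 hnpos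
  have hsn2 : sn * sn = n := Real.mul_self_sqrt hnpos.le
  set μ := hA.eigenvalues with hμ
  set v : V → V → ℝ := ev hA with hv
  have heven : ∀ i, 0 ≤ μ i ^ (2 * k) := fun i => by
    rw [pow_mul]; positivity
  -- large eigenvalues
  set I : Finset V := univ.filter (fun i => ε / 3 * r < |μ i|) with hI
  have hIcard : I.card ≤ R := by
    have h1 : (I.card : ℝ) * (ε / 3 * r) ^ (2 * k) ≤ Q * r ^ (2 * k) := by
      refine le_trans ?_ hsum
      calc (I.card : ℝ) * (ε / 3 * r) ^ (2 * k) = ∑ i ∈ I, (ε / 3 * r) ^ (2 * k) := by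
            rw [sum_const, nsmul_eq_mul]
        _ ≤ ∑ i ∈ I, μ i ^ (2 * k) := by
            apply sum_le_sum
            intro i hi
            rw [hI, mem_filter] at hi
            calc (ε / 3 * r) ^ (2 * k) ≤ |μ i| ^ (2 * k) :=
                  pow_le_pow_left₀ (by positivity) hi.2.le _
              _ = μ i ^ (2 * k) := by
                  rw [pow_mul, sq_abs, ← pow_mul]
        _ ≤ ∑ i, μ i ^ (2 * k) :=
            sum_le_sum_of_subset_of_nonneg (subset_univ _) (fun i _ _ => heven i)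
    rw [mul_pow, ← mul_assoc] at h1
    have h2 : (I.card : ℝ) * (ε / 3) ^ (2 * k) ≤ Q := le_of_mul_le_mul_right h1 (by positivity)
    have h3 : (I.card : ℝ) ≤ Q / (ε / 3) ^ (2 * k) := by
      rw [le_div_iff₀ (by positivity)]; exact h2
    exact_mod_cast h3.trans hR
  have hμbd : ∀ i, |μ i| ≤ (Q + 1) * r := by
    intro i
    by_contra hcon
    push Not at hcon
    have h1 : μ i ^ (2 * k) ≤ Q * r ^ (2 * k) :=
      (single_le_sum (fun i _ => heven i) (mem_univ i)).trans hsum
    have h2 : ((Q + 1) * r) ^ (2 * k) < |μ i| ^ (2 * k) :=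
      pow_lt_pow_left₀ hcon (by positivity) (by omega)
    have h3 : |μ i| ^ (2 * k) = μ i ^ (2 * k) := by rw [pow_mul, sq_abs, ← pow_mul]
    rw [h3, mul_pow] at h2
    have h4 : Q ≤ (Q + 1) ^ (2 * k) := by
      calc Q ≤ Q + 1 := by linarith
        _ ≤ (Q + 1) ^ (2 * k) := le_self_pow₀ (by linarith) (by omega)
    have h5 : Q * r ^ (2 * k) ≤ (Q + 1) ^ (2 * k) * r ^ (2 * k) :=
      mul_le_mul_of_nonneg_right h4 (by positivity)
    linarith
  -- colouring
  set q : V → V → ℤ := fun x i =>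
    if |sn * v i x| ≤ T then ⌊(T : ℝ) * (sn * v i x)⌋ else (T : ℤ) ^ 2 + 1 with hq
  set ψ : V → (V → ℤ) := fun x i => if i ∈ I then q x i else 0 with hψ
  have hqmem : ∀ x i, q x i ∈ Icc (-((T : ℤ) ^ 2 + 1)) ((T : ℤ) ^ 2 + 1) := by
    intro x i
    rw [mem_Icc]
    simp only [hq]
    by_cases h : |sn * v i x| ≤ T
    · rw [if_pos h]
      rw [abs_le] at h
      have h1 : (T : ℝ) * (sn * v i x) ≤ (T : ℝ) ^ 2 := by nlinarith
      have h2 : -(T : ℝ) ^ 2 ≤ (T : ℝ) * (sn * v i x) := by nlinarith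
      constructor
      · rw [Int.le_floor]
        push_cast
        linarith
      · have : ⌊(T : ℝ) * (sn * v i x)⌋ ≤ (T : ℤ) ^ 2 := by
          have := Int.floor_le ((T : ℝ) * (sn * v i x))
          have h3 : ((⌊(T : ℝ) * (sn * v i x)⌋ : ℤ) : ℝ) ≤ (((T : ℤ) ^ 2 : ℤ) : ℝ) := by
            push_cast
            linarith
          exact_mod_cast h3
        linarith
    · rw [if_neg h]
      constructor
      · have : (0 : ℤ) ≤ (T : ℤ) ^ 2 := by positivity
        linarith
      · exact le_rfl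
  have himg : (univ.image ψ).card ≤ B ^ R := by
    have hsub : univ.image ψ ⊆ Fintype.piFinset (fun i : V =>
        if i ∈ I then Icc (-((T : ℤ) ^ 2 + 1)) ((T : ℤ) ^ 2 + 1) else {0}) := by
      intro u hu
      rw [mem_image] at hu
      obtain ⟨x, _, rfl⟩ := hu
      rw [Fintype.mem_piFinset]
      intro i
      simp only [hψ]
      by_cases hi : i ∈ I
      · simp only [hi, if_true]
        exact hqmem x i
      · simp [hi]
    refine (card_le_card hsub).trans ?_
    rw [Fintype.card_piFinset]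
    have : ∏ i : V, (if i ∈ I then Icc (-((T : ℤ) ^ 2 + 1)) ((T : ℤ) ^ 2 + 1) else {0}).card =
        ∏ i : V, (if i ∈ I then B else 1) := by
      apply prod_congr rfl
      intro i _
      by_cases hi : i ∈ I
      · simp only [hi, if_true, Int.card_Icc, hB]
        have : ((T : ℤ) ^ 2 + 1 + 1 - -((T : ℤ) ^ 2 + 1)) = ((2 * (T ^ 2 + 1) + 1 : ℕ) : ℤ) := by
          push_cast; ring
        rw [this, Int.toNat_natCast]
      · simp [hi]
    rw [this, prod_ite_mem, univ_inter, prod_const]
    exact Nat.pow_le_pow_right (by omega) hIcard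
  -- embed the image in `Fin (B ^ R)`
  obtain ⟨e⟩ : Nonempty ((univ.image ψ) ↪ Fin (B ^ R)) := by
    rw [Function.Embedding.nonempty_iff_card_le, Fintype.card_coe, Fintype.card_fin]
    exact himg
  set χ : V → Fin (B ^ R) := fun x => e ⟨ψ x, mem_image_of_mem ψ (mem_univ x)⟩ with hχ
  have hχψ : ∀ x y, χ x = χ y → ψ x = ψ y := by
    intro x y h
    have := e.injective h
    exact congrArg Subtype.val this
  -- rounded eigenvectors
  have hround : ∀ i ∈ I, ∃ w : Fin (B ^ R) → ℝ, ∑ x, |v i x - w (χ x)| ≤ 2 * sn / T := by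
    intro i hi
    set w0 : V → ℝ := fun x => if |sn * v i x| ≤ T then
      (⌊(T : ℝ) * (sn * v i x)⌋ : ℝ) / (T * sn) else 0 with hw0
    have hw0q : ∀ x, w0 x = if q x i = (T : ℤ) ^ 2 + 1 then 0 else (q x i : ℝ) / (T * sn) := by
      intro x
      simp only [hw0, hq]
      by_cases h : |sn * v i x| ≤ T
      · simp only [h, if_true]
        have h1 : (T : ℝ) * (sn * v i x) ≤ (T : ℝ) ^ 2 := by
          rw [abs_le] at h; nlinarith
        have h2 : ⌊(T : ℝ) * (sn * v i x)⌋ ≠ (T : ℤ) ^ 2 + 1 := by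
          intro h3
          have := Int.floor_le ((T : ℝ) * (sn * v i x))
          rw [h3] at this
          push_cast at this
          linarith
        rw [if_neg h2]
      · simp only [h, if_false, if_true]
    have hconst : ∀ x y, χ x = χ y → w0 x = w0 y := by
      intro x y h
      have h1 := congrFun (hχψ x y h) i
      simp only [hψ, hi, if_true] at h1
      rw [hw0q, hw0q, h1]
    have hex : ∃ w : Fin (B ^ R) → ℝ, ∀ x, w (χ x) = w0 x := by
      refine ⟨fun c => if h : ∃ x, χ x = c then w0 h.choose else 0, ?_⟩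
      intro x
      have h : ∃ x', χ x' = χ x := ⟨x, rfl⟩
      simp only [h, dif_pos]
      exact hconst _ _ h.choose_spec
    obtain ⟨w, hw⟩ := hex
    refine ⟨w, ?_⟩
    have hpt : ∀ x, |v i x - w (χ x)| ≤ 1 / (T * sn) + sn / T * v i x ^ 2 := by
      intro x
      rw [hw x]
      simp only [hw0]
      have hTsn : 0 < (T : ℝ) * sn := by positivity
      by_cases h : |sn * v i x| ≤ T
      · simp only [h, if_true]
        have h1 := Int.floor_le ((T : ℝ) * (sn * v i x))
        have h2 := Int.lt_floor_add_one ((T : ℝ) * (sn * v i x))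
        have h3 : v i x - (⌊(T : ℝ) * (sn * v i x)⌋ : ℝ) / (T * sn) =
            ((T : ℝ) * (sn * v i x) - ⌊(T : ℝ) * (sn * v i x)⌋) / (T * sn) := by
          field_simp
        rw [h3, abs_div, abs_of_pos hTsn, abs_of_nonneg (by linarith)]
        have h4 : ((T : ℝ) * (sn * v i x) - ⌊(T : ℝ) * (sn * v i x)⌋) / (T * sn) ≤
            1 / (T * sn) := div_le_div_of_nonneg_right (by linarith) hTsn.le
        have : 0 ≤ sn / T * v i x ^ 2 := by positivity
        linarith
      · simp only [h, if_false, sub_zero]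
        push Not at h
        have h1 : |sn * v i x| = sn * |v i x| := by rw [abs_mul, abs_of_pos hsnpos]
        rw [h1] at h
        have h2 : |v i x| ≤ sn / T * v i x ^ 2 := by
          rw [← sq_abs (v i x), div_mul_eq_mul_div, le_div_iff₀ hTpos]
          nlinarith [abs_nonneg (v i x)]
        have : 0 ≤ 1 / ((T : ℝ) * sn) := by positivity
        linarith
    refine (sum_le_sum (fun x _ => hpt x)).trans ?_
    rw [sum_add_distrib, sum_const, card_univ, nsmul_eq_mul, ← mul_sum, ← hn,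
      ev_norm hA i]
    apply le_of_eq
    rw [← hsn2]
    field_simp
    ring
  refine ⟨χ, ?_⟩
  intro f g hf hg
  rw [form_eq hA f g, form_eq hA (avg χ f) (avg χ g), ← sum_sub_distrib]
  -- coefficients
  have hcoef2 : ∀ h : V → ℝ, (∀ x, 0 ≤ h x ∧ h x ≤ 1) → ∑ i, (∑ x, h x * v i x) ^ 2 ≤ n := by
    intro h hh
    have := ev_parseval hA h h
    have e1 : ∑ i, (∑ x, h x * v i x) ^ 2 = ∑ x, h x * h x := by
      rw [this]
      apply sum_congr rfl
      intro i _
      rw [sq]
    rw [e1, hn]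
    calc ∑ x, h x * h x ≤ ∑ x : V, (1 : ℝ) := by
          apply sum_le_sum
          intro x _
          nlinarith [hh x]
      _ = _ := by simp
  have hcoef1 : ∀ h : V → ℝ, (∀ x, 0 ≤ h x ∧ h x ≤ 1) → ∀ i, |∑ x, h x * v i x| ≤ sn := by
    intro h hh i
    have h1 : (∑ x, h x * v i x) ^ 2 ≤ n :=
      (single_le_sum (fun i _ => sq_nonneg (∑ x, h x * v i x)) (mem_univ i)).trans (hcoef2 h hh)
    exact Real.abs_le_sqrt h1
  have hdiff : ∀ h : V → ℝ, (∀ x, 0 ≤ h x ∧ h x ≤ 1) → ∀ i ∈ I,
      |∑ x, h x * v i x - ∑ x, avg χ h x * v i x| ≤ 2 * sn / T := by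
    intro h hh i hi
    obtain ⟨w, hw⟩ := hround i hi
    have h1 : ∑ x, h x * v i x - ∑ x, avg χ h x * v i x =
        ∑ x, (h x - avg χ h x) * (v i x - w (χ x)) := by
      have := avg_orth χ h w
      rw [← sum_sub_distrib]
      calc ∑ x, (h x * v i x - avg χ h x * v i x)
          = ∑ x, ((h x - avg χ h x) * (v i x - w (χ x)) + (h x - avg χ h x) * w (χ x)) := by
            apply sum_congr rfl
            intro x _
            ring
        _ = _ := by rw [sum_add_distrib, this, add_zero]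
    rw [h1]
    refine (abs_sum_le_sum_abs _ _).trans (le_trans (sum_le_sum (fun x _ => ?_)) hw)
    rw [abs_mul]
    have h2 := avg_mem χ h (fun x => (hh x).1) (fun x => (hh x).2) x
    have h3 : |h x - avg χ h x| ≤ 1 := by
      rw [abs_le]
      constructor <;> linarith [(hh x).1, (hh x).2]
    calc |h x - avg χ h x| * |v i x - w (χ x)| ≤ 1 * |v i x - w (χ x)| :=
          mul_le_mul_of_nonneg_right h3 (abs_nonneg _)
      _ = _ := one_mul _
  have hf' : ∀ x, 0 ≤ avg χ f x ∧ avg χ f x ≤ 1 :=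
    avg_mem χ f (fun x => (hf x).1) (fun x => (hf x).2)
  have hg' : ∀ x, 0 ≤ avg χ g x ∧ avg χ g x ≤ 1 :=
    avg_mem χ g (fun x => (hg x).1) (fun x => (hg x).2)
  rw [← sum_filter_add_sum_filter_not univ (fun i => i ∈ I)]
  have hfI : univ.filter (fun i => i ∈ I) = I := by ext; simp
  rw [hfI]
  -- large part
  have hlarge : |∑ i ∈ I, (μ i * ((∑ x, f x * v i x) * ∑ x, g x * v i x) -
      μ i * ((∑ x, avg χ f x * v i x) * ∑ x, avg χ g x * v i x))| ≤ ε / 3 * r * n := by
    refine (abs_sum_le_sum_abs _ _).trans ?_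
    have h1 : ∀ i ∈ I, |μ i * ((∑ x, f x * v i x) * ∑ x, g x * v i x) -
      μ i * ((∑ x, avg χ f x * v i x) * ∑ x, avg χ g x * v i x)| ≤
        (Q + 1) * r * (4 * n / T) := by
      intro i hi
      rw [← mul_sub, abs_mul]
      apply mul_le_mul (hμbd i) _ (abs_nonneg _) (by positivity)
      set a := ∑ x, f x * v i x
      set b := ∑ x, g x * v i x
      set a' := ∑ x, avg χ f x * v i x
      set b' := ∑ x, avg χ g x * v i x
      have h2 : a * b - a' * b' = (a - a') * b + a' * (b - b') := by ring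
      rw [h2]
      calc |(a - a') * b + a' * (b - b')| ≤ |(a - a') * b| + |a' * (b - b')| := abs_add_le _ _
        _ = |a - a'| * |b| + |a'| * |b - b'| := by rw [abs_mul, abs_mul]
        _ ≤ (2 * sn / T) * sn + sn * (2 * sn / T) := by
            apply add_le_add
            · exact mul_le_mul (hdiff f hf i hi) (hcoef1 g hg i) (abs_nonneg _) (by positivity)
            · exact mul_le_mul (hcoef1 _ hf' i) (hdiff g hg i hi) (abs_nonneg _) hsnpos.le
        _ = 4 * n / T := by rw [← hsn2]; ring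
    refine (sum_le_sum h1).trans ?_
    rw [sum_const, nsmul_eq_mul]
    have hIR : (I.card : ℝ) ≤ R := by exact_mod_cast hIcard
    calc (I.card : ℝ) * ((Q + 1) * r * (4 * n / T)) ≤ R * ((Q + 1) * r * (4 * n / T)) :=
          mul_le_mul_of_nonneg_right hIR (by positivity)
      _ = (4 * R * (Q + 1)) / T * (r * n) := by ring
      _ ≤ ε / 3 * (r * n) := by
          apply mul_le_mul_of_nonneg_right _ (by positivity)
          rw [div_le_iff₀ hTpos]
          rw [div_le_iff₀ (by positivity)] at hT2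
          linarith
      _ = _ := by ring
  -- small part
  have hsmall : ∀ f g : V → ℝ, (∀ x, 0 ≤ f x ∧ f x ≤ 1) → (∀ x, 0 ≤ g x ∧ g x ≤ 1) →
      |∑ i ∈ univ.filter (fun i => ¬ i ∈ I), μ i * ((∑ x, f x * v i x) * ∑ x, g x * v i x)| ≤
        ε / 3 * r * n := by
    intro f g hf hg
    refine (abs_sum_le_sum_abs _ _).trans ?_
    have h1 : ∀ i ∈ univ.filter (fun i => ¬ i ∈ I),
        |μ i * ((∑ x, f x * v i x) * ∑ x, g x * v i x)| ≤
        ε / 3 * r * (((∑ x, f x * v i x) ^ 2 + (∑ x, g x * v i x) ^ 2) / 2) := by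
      intro i hi
      rw [mem_filter, hI, mem_filter] at hi
      have h2 : |μ i| ≤ ε / 3 * r := by
        by_contra hcon
        push Not at hcon
        exact hi.2 ⟨mem_univ _, hcon⟩
      rw [abs_mul]
      apply mul_le_mul h2 _ (abs_nonneg _) (by positivity)
      set a := ∑ x, f x * v i x
      set b := ∑ x, g x * v i x
      rw [abs_mul]
      nlinarith [sq_nonneg (|a| - |b|), sq_abs a, sq_abs b]
    refine (sum_le_sum h1).trans ?_
    rw [← mul_sum]
    apply mul_le_mul_of_nonneg_left _ (by positivity)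
    calc ∑ i ∈ univ.filter (fun i => ¬ i ∈ I),
          ((∑ x, f x * v i x) ^ 2 + (∑ x, g x * v i x) ^ 2) / 2
        ≤ ∑ i, ((∑ x, f x * v i x) ^ 2 + (∑ x, g x * v i x) ^ 2) / 2 :=
          sum_le_sum_of_subset_of_nonneg (subset_univ _) (fun i _ _ => by positivity)
      _ = ((∑ i, (∑ x, f x * v i x) ^ 2) + ∑ i, (∑ x, g x * v i x) ^ 2) / 2 := by
          rw [← sum_add_distrib, sum_div]
      _ ≤ (n + n) / 2 := by
          apply div_le_div_of_nonneg_right _ (by norm_num)
          exact add_le_add (hcoef2 f hf) (hcoef2 g hg)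
      _ = n := by ring
  have s1 := hsmall f g hf hg
  have s2 := hsmall (avg χ f) (avg χ g) hf' hg'
  rw [sum_sub_distrib (s := univ.filter (fun i => ¬ i ∈ I))]
  rw [← hn]
  have htri : ∀ a b c : ℝ, |a + (b - c)| ≤ |a| + |b| + |c| := by
    intro a b c
    calc |a + (b - c)| ≤ |a| + |b - c| := abs_add_le _ _
      _ ≤ |a| + (|b| + |c|) := by
          have := abs_sub b c
          linarith
      _ = _ := by ring
  refine (htri _ _ _).trans ?_
  have : ε * r * n = ε / 3 * r * n + ε / 3 * r * n + ε / 3 * r * n := by ring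
  rw [this]
  exact add_le_add (add_le_add hlarge s1) s2

end Pool.Agent.Q115.GY
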