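import Pool.Agent.H35.XL.Q115_GW4
import Pool.Agent.H35.XL.Q115_GY3

/-! Regularity of graphs without a cycle of length `2 k`: assembling the parts. -/

set_option autoImplicit false

open Finset

namespace Pool.Agent.Q115.GW

open Pool.Agent.Q115.GY

section

variable {V : Type*} [Fintype V] [DecidableEq V]

omit [Fintype V] [DecidableEq V] in
theorem adj_herm (G : SimpleGraph V) [DecidableRel G.Adj] : (G.adjMatrix ℝ).IsHermitian := by
  ext i j
  simp [Matrix.conjTranspose_apply, SimpleGraph.adjMatrix_apply, G.adj_comm i j]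

/-- the Schatten norm at the scale `n ^ (1 / k)` -/
theorem schatten_scale (G : SimpleGraph V) [DecidableRel G.Adj] (k : ℕ) (hk : 2 ≤ k)
    (hfree : (SimpleGraph.cycleGraph (2 * k)).Free G) (K r : ℝ) (hK : 0 < K) (hr : 0 < r)
    (hrk : r ^ k = (Fintype.card V : ℝ)) (hdeg : ∀ x, (G.degree x : ℝ) ≤ K * r)
    (hA : (G.adjMatrix ℝ).IsHermitian) :
    ∑ i, hA.eigenvalues i ^ (2 * k) ≤ (4 * (k : ℝ) ^ 2) ^ (k - 1) * K ^ k * r ^ (2 * k) := by
  refine (schatten G k hk hfree (K * r) (by positivity) hdeg hA).trans ?_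
  have h1 : ∑ x, (G.degree x : ℝ) ≤ r ^ k * (K * r) := by
    calc ∑ x, (G.degree x : ℝ) ≤ ∑ x : V, K * r := sum_le_sum (fun x _ => hdeg x)
      _ = _ := by rw [sum_const, card_univ, nsmul_eq_mul, hrk]
  refine (mul_le_mul_of_nonneg_left h1 (by positivity)).trans (le_of_eq ?_)
  have e1 : r ^ (2 * k) = r ^ (k - 1) * r * r ^ k := by
    rw [← pow_succ, ← pow_add]; congr 1; omega
  have e2 : K ^ k = K ^ (k - 1) * K := by rw [← pow_succ]; congr 1; omega
  rw [e1, e2, mul_pow (4 * (k : ℝ) ^ 2), mul_pow K r]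
  ring

theorem root_pow (n : ℝ) (hn : 0 < n) (k : ℕ) (hk : 1 ≤ k) : (n ^ (1 / (k : ℝ))) ^ k = n := by
  have hkpos : (0 : ℝ) < k := by exact_mod_cast hk
  rw [← Real.rpow_natCast, ← Real.rpow_mul hn.le, one_div_mul_cancel hkpos.ne', Real.rpow_one]

end

/-- **Regularity and counting.** -/
theorem main_op (k : ℕ) (hk : 2 ≤ k) (K ε : ℝ) (hK : 0 < K) (hε : 0 < ε) (L : ℕ) :
    ∃ M : ℕ, ∀ (V : Type) [Fintype V] [DecidableEq V] (G : SimpleGraph V) [DecidableRel G.Adj],
      (SimpleGraph.cycleGraph (2 * k)).Free G →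
      (∀ x, (G.degree x : ℝ) ≤ K * (Fintype.card V : ℝ) ^ (1 / (k : ℝ))) →
      ∃ χ : V → Fin M,
        (∀ f g : V → ℝ, |∑ x, ∑ y, f x * (G.adjMatrix ℝ x y - bl χ (G.adjMatrix ℝ) x y) * g y| ≤
          ε * (Fintype.card V : ℝ) ^ (1 / (k : ℝ)) *
            (Real.sqrt (∑ x, f x ^ 2) * Real.sqrt (∑ x, g x ^ 2))) ∧
        ∀ l : ℕ, 2 * k < l → l ≤ L →
          |((G.adjMatrix ℝ) ^ l).trace - ((bl χ (G.adjMatrix ℝ)) ^ l).trace| ≤
            ε * (Fintype.card V : ℝ) ^ ((l : ℝ) / (k : ℝ)) := by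
  set Q : ℝ := (4 * (k : ℝ) ^ 2) ^ (k - 1) * K ^ k with hQ
  have hkR : (2 : ℝ) ≤ k := by exact_mod_cast hk
  have hkpos : (0 : ℝ) < k := by linarith
  have hQpos : 0 < Q := by positivity
  have hQ1 : 1 ≤ (Q + 1) ^ L := one_le_pow₀ (by linarith)
  set Z : ℝ := 2 * ((L : ℝ) + 1) * (Q + 1) ^ L with hZ
  have hL0 : (0 : ℝ) ≤ L := Nat.cast_nonneg _
  have hZ1 : 1 ≤ Z := by
    rw [hZ]
    nlinarith
  have hZpos : 0 < Z := by linarith
  obtain ⟨M, hM⟩ := op_approx k hk K (ε / Z) hK (by positivity)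
  refine ⟨M, ?_⟩
  intro V _ _ G _ hfree hdeg
  obtain ⟨χ, hχ⟩ := hM V G hfree hdeg
  have hA := adj_herm G
  have hB := bl_herm χ hA
  have hform : ∀ f g : V → ℝ, |∑ x, ∑ y, f x * (G.adjMatrix ℝ x y -
      bl χ (G.adjMatrix ℝ) x y) * g y| ≤ ε / Z * (Fintype.card V : ℝ) ^ (1 / (k : ℝ)) *
            (Real.sqrt (∑ x, f x ^ 2) * Real.sqrt (∑ x, g x ^ 2)) := by
    intro f g
    have h1 := hχ f g
    rw [← bl_form] at h1
    have e : ∑ x, ∑ y, f x * (G.adjMatrix ℝ x y - bl χ (G.adjMatrix ℝ) x y) * g y =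
        ∑ x, ∑ y, f x * G.adjMatrix ℝ x y * g y -
          ∑ x, ∑ y, f x * bl χ (G.adjMatrix ℝ) x y * g y := by
      rw [← sum_sub_distrib]
      apply sum_congr rfl; intro x _
      rw [← sum_sub_distrib]
      apply sum_congr rfl; intro y _
      ring
    rw [e]
    exact h1
  refine ⟨χ, ?_, ?_⟩
  · intro f g
    refine (hform f g).trans ?_
    apply mul_le_mul_of_nonneg_right _ (by positivity)
    apply mul_le_mul_of_nonneg_right _ (by positivity)
    exact div_le_self hε.le hZ1
  · intro l hl1 hl2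
    rcases isEmpty_or_nonempty V with hemp | hne
    · have e : ∀ X : Matrix V V ℝ, X.trace = 0 := by
        intro X
        unfold Matrix.trace
        exact Fintype.sum_empty _
      rw [e, e, sub_self, abs_zero]
      positivity
    have hnpos : (0 : ℝ) < (Fintype.card V : ℝ) := by exact_mod_cast Fintype.card_pos
    set n : ℝ := (Fintype.card V : ℝ) with hn
    set r : ℝ := n ^ (1 / (k : ℝ)) with hr
    have hrpos : 0 < r := by positivity
    have hrk : r ^ k = n := root_pow n hnpos k (by omega)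
    have hSA := schatten_scale G k hk hfree K r hK hrpos hrk hdeg hA
    have hSB := (bl_schatten χ hA hB k).trans hSA
    have h1 := trace_diff hA hB k (by omega) Q r hQpos hrpos hSA hSB (ε / Z * r) (by positivity)
      hform l hl1
    refine h1.trans ?_
    have hrl : r ^ l = n ^ ((l : ℝ) / (k : ℝ)) := by
      rw [hr, ← Real.rpow_natCast, ← Real.rpow_mul hnpos.le]
      congr 1
      ring
    have e1 : r ^ l = r * r ^ (l - 1) := by rw [← pow_succ']; congr 1; omega
    have h2 : 2 * (l : ℝ) * (Q + 1) ^ (l - 1) ≤ Z := by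
      rw [hZ]
      apply mul_le_mul
      · have : (l : ℝ) ≤ L := by exact_mod_cast hl2
        linarith
      · exact pow_le_pow_right₀ (by linarith) (by omega)
      · positivity
      · positivity
    rw [← hrl, e1]
    calc ε / Z * r * (2 * l * (Q + 1) ^ (l - 1) * r ^ (l - 1))
        = (2 * l * (Q + 1) ^ (l - 1)) * (ε / Z * (r * r ^ (l - 1))) := by ring
      _ ≤ Z * (ε / Z * (r * r ^ (l - 1))) := mul_le_mul_of_nonneg_right h2 (by positivity)
      _ = _ := by field_simp

/-! ### Degenerate closed walks -/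

section

variable {V : Type*} [Fintype V] [DecidableEq V]

/-- closed walks with a repeated vertex -/
theorem repeat_walks (G : SimpleGraph V) [DecidableRel G.Adj] (n : ℕ) :
    ((∑ w, ((G.finsetWalkLength n w w).filter
      (fun p => ∃ j ∈ range n, ∃ i ∈ range j, p.getVert i = p.getVert j)).card : ℕ) : ℝ) ≤
      ∑ j ∈ range n, ∑ i ∈ range j, ∑ x, ((G.adjMatrix ℝ) ^ (j - i)) x x *
        ((G.adjMatrix ℝ) ^ (n - (j - i))) x x := by
  classical
  set W : ℕ → V → V → ℕ := fun m u v => (G.finsetWalkLength m u v).card with hW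
  have hWA : ∀ m u v, ((G.adjMatrix ℝ) ^ m) u v = (W m u v : ℝ) := by
    intro m u v
    rw [G.adjMatrix_pow_apply_eq_card_walk, SimpleGraph.card_set_walk_length_eq]
  have h1 : ∀ w, ((G.finsetWalkLength n w w).filter
      (fun p => ∃ j ∈ range n, ∃ i ∈ range j, p.getVert i = p.getVert j)).card ≤
      ∑ j ∈ range n, ∑ i ∈ range j, ∑ x, W i w x * (W (j - i) x x * W (n - j) x w) := by
    intro w
    have hsub : (G.finsetWalkLength n w w).filter
        (fun p => ∃ j ∈ range n, ∃ i ∈ range j, p.getVert i = p.getVert j) ⊆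
        (range n).biUnion (fun j => (range j).biUnion (fun i =>
        univ.biUnion (fun x => (G.finsetWalkLength n w w).filter
          (fun p => p.getVert i = x ∧ p.getVert j = x)))) := by
      intro p hp
      rw [mem_filter] at hp
      obtain ⟨hp, j, hj, i, hij, h⟩ := hp
      rw [mem_biUnion]
      refine ⟨j, hj, ?_⟩
      rw [mem_biUnion]
      refine ⟨i, hij, ?_⟩
      rw [mem_biUnion]
      exact ⟨p.getVert i, mem_univ _, mem_filter.2 ⟨hp, rfl, h.symm⟩⟩
    refine (card_le_card hsub).trans (card_biUnion_le.trans (sum_le_sum (fun j hj => ?_)))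
    refine card_biUnion_le.trans (sum_le_sum (fun i hi => ?_))
    refine card_biUnion_le.trans (sum_le_sum (fun x _ => ?_))
    rw [mem_range] at hj hi
    exact card_through G w w x x n i j hi.le hj.le
  have h3 : ((∑ w, ((G.finsetWalkLength n w w).filter
      (fun p => ∃ j ∈ range n, ∃ i ∈ range j, p.getVert i = p.getVert j)).card : ℕ) : ℝ) ≤
      ((∑ w, ∑ j ∈ range n, ∑ i ∈ range j, ∑ x,
        W i w x * (W (j - i) x x * W (n - j) x w) : ℕ) : ℝ) := by
    exact_mod_cast sum_le_sum (fun w _ => h1 w)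
  refine h3.trans (le_of_eq ?_)
  push_cast
  rw [sum_comm]
  apply sum_congr rfl
  intro j hj
  rw [sum_comm]
  apply sum_congr rfl
  intro i hi
  rw [sum_comm]
  apply sum_congr rfl
  intro x _
  rw [mem_range] at hj hi
  rw [show n - (j - i) = (n - j) + i by omega, pow_add, Matrix.mul_apply]
  simp only [hWA]
  rw [mul_sum]
  apply sum_congr rfl
  intro w _
  ring

theorem diag_mul_le (G : SimpleGraph V) [DecidableRel G.Adj] (D : ℝ) (hD0 : 0 ≤ D)
    (hD : ∀ x, (G.degree x : ℝ) ≤ D) (hA : (G.adjMatrix ℝ).IsHermitian) (n l : ℕ) (hl1 : 1 ≤ l)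
    (hl2 : l < n) (x : V) :
    ((G.adjMatrix ℝ) ^ l) x x * ((G.adjMatrix ℝ) ^ (n - l)) x x ≤ D * mom hA (n - 2) x := by
  have hdeg2 : mom hA 2 x = (G.degree x : ℝ) := by
    have h1 : mom hA 2 x = ((G.adjMatrix ℝ) ^ 2) x x := by
      rw [diag_pow hA]
      unfold mom
      apply sum_congr rfl
      intro i _
      rw [sq_abs]
    rw [h1, sq, SimpleGraph.adjMatrix_mul_self_apply_self]
  have hnn : 0 ≤ D * mom hA (n - 2) x := mul_nonneg hD0 (mom_nonneg hA _ x)
  have h0 : ((G.adjMatrix ℝ) ^ 1) x x = 0 := by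
    rw [pow_one]; simp [SimpleGraph.adjMatrix_apply]
  by_cases h1 : l = 1
  · rw [h1, h0, zero_mul]; exact hnn
  · by_cases h2 : n - l = 1
    · rw [h2, h0, mul_zero]; exact hnn
    · obtain ⟨p, rfl⟩ : ∃ p, l = p + 2 := ⟨l - 2, by omega⟩
      obtain ⟨q, hq⟩ : ∃ q, n - (p + 2) = q + 2 := ⟨n - (p + 2) - 2, by omega⟩
      rw [hq]
      have h3 : n - 2 = p + q + 2 := by omega
      rw [h3]
      calc ((G.adjMatrix ℝ) ^ (p + 2)) x x * ((G.adjMatrix ℝ) ^ (q + 2)) x x
          ≤ |((G.adjMatrix ℝ) ^ (p + 2)) x x * ((G.adjMatrix ℝ) ^ (q + 2)) x x| := le_abs_self _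
        _ = |((G.adjMatrix ℝ) ^ (p + 2)) x x| * |((G.adjMatrix ℝ) ^ (q + 2)) x x| := abs_mul _ _
        _ ≤ mom hA (p + 2) x * mom hA (q + 2) x :=
            mul_le_mul (abs_diag_le hA _ x) (abs_diag_le hA _ x) (abs_nonneg _)
              (mom_nonneg hA _ x)
        _ ≤ mom hA 2 x * mom hA (p + q + 2) x := mom_mul_le hA p q x
        _ ≤ D * mom hA (p + q + 2) x := by
            rw [hdeg2]
            exact mul_le_mul_of_nonneg_right (hD x) (mom_nonneg hA _ x)

end

/-- **Most closed walks of length `l > 2 k` are cycles.** -/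
theorem degenerate (k : ℕ) (hk : 2 ≤ k) (K : ℝ) (hK : 0 < K) (l : ℕ) (hl : 2 * k < l) :
    ∃ C : ℝ, ∀ (V : Type) [Fintype V] [DecidableEq V] (G : SimpleGraph V) [DecidableRel G.Adj],
      (SimpleGraph.cycleGraph (2 * k)).Free G →
      (∀ x, (G.degree x : ℝ) ≤ K * (Fintype.card V : ℝ) ^ (1 / (k : ℝ))) →
      ((∑ w, ((G.finsetWalkLength l w w).filter
        (fun p => ∃ j ∈ range l, ∃ i ∈ range j, p.getVert i = p.getVert j)).card : ℕ) : ℝ) ≤
      C * (Fintype.card V : ℝ) ^ (((l : ℝ) - 1 / 2) / (k : ℝ)) := by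
  set Q : ℝ := (4 * (k : ℝ) ^ 2) ^ (k - 1) * K ^ k with hQ
  have hkR : (2 : ℝ) ≤ k := by exact_mod_cast hk
  have hkpos : (0 : ℝ) < k := by linarith
  have hQpos : 0 < Q := by positivity
  set C0 : ℝ := (Q + 1) ^ (l - 2) + (Q + K) with hC0
  have hC0pos : 0 < C0 := by positivity
  refine ⟨(l : ℝ) ^ 2 * (K * C0), ?_⟩
  intro V _ _ G _ hfree hdeg
  rcases isEmpty_or_nonempty V with hemp | hne
  · have : (univ : Finset V) = ∅ := univ_eq_empty
    rw [this, sum_empty, Nat.cast_zero]
    positivity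
  have hnpos : (0 : ℝ) < (Fintype.card V : ℝ) := by exact_mod_cast Fintype.card_pos
  have hn1 : (1 : ℝ) ≤ (Fintype.card V : ℝ) := by exact_mod_cast Fintype.card_pos
  set n : ℝ := (Fintype.card V : ℝ) with hn
  set r : ℝ := n ^ (1 / (k : ℝ)) with hr
  have hrpos : 0 < r := by positivity
  have hrk : r ^ k = n := root_pow n hnpos k (by omega)
  set s : ℝ := Real.sqrt r with hs
  have hspos : 0 < s := Real.sqrt_pos.2 hrpos
  have hs2 : s ^ 2 = r := Real.sq_sqrt hrpos.le
  have hr1 : 1 ≤ r := by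
    by_contra hcon
    push Not at hcon
    have : r ^ k < 1 := pow_lt_one₀ hrpos.le hcon (by omega)
    rw [hrk] at this
    linarith
  have hs1 : 1 ≤ s := by
    rw [hs]
    exact Real.one_le_sqrt.2 hr1
  have hA := adj_herm G
  have hS := schatten_scale G k hk hfree K r hK hrpos hrk hdeg hA
  rw [← hQ] at hS
  set μ := hA.eigenvalues with hμ
  -- the moment of order `l - 2`
  have hmom : ∑ i, |μ i| ^ (l - 2) ≤ C0 * s ^ (2 * l - 3) := by
    by_cases h : 2 * k ≤ l - 2
    · have h1 := high_moment hA k (by omega) Q r hQpos hrpos hS (l - 2) h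
      refine h1.trans ?_
      apply mul_le_mul
      · rw [hC0]
        have : 0 < Q + K := by positivity
        linarith
      · rw [← hs2, ← pow_mul]
        exact pow_le_pow_right₀ hs1 (by omega)
      · positivity
      · positivity
    · have hl' : l = 2 * k + 1 := by omega
      have hS1 : ∑ i, μ i ^ 2 ≤ K * r ^ (k + 1) := by
        have e : ∑ i, μ i ^ 2 = ∑ x, (G.degree x : ℝ) := by
          have h1 := sum_mom hA 2
          simp only [sq_abs] at h1
          rw [← h1]
          apply sum_congr rfl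
          intro x _
          have h1 : mom hA 2 x = ((G.adjMatrix ℝ) ^ 2) x x := by
            rw [diag_pow hA]
            unfold mom
            apply sum_congr rfl
            intro i _
            rw [sq_abs]
          rw [h1, sq, SimpleGraph.adjMatrix_mul_self_apply_self]
        rw [e]
        calc ∑ x, (G.degree x : ℝ) ≤ ∑ x : V, K * r := sum_le_sum (fun x _ => hdeg x)
          _ = r ^ k * (K * r) := by rw [sum_const, card_univ, nsmul_eq_mul, ← hn, hrk]
          _ = _ := by rw [pow_succ]; ring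
      have hpt : ∀ a : ℝ, |a| ^ (2 * k - 1) ≤ a ^ (2 * k) / s + s ^ (2 * k - 3) * a ^ 2 := by
        intro a
        have ea : a ^ (2 * k) = |a| ^ (2 * k) := by rw [pow_mul, ← sq_abs, ← pow_mul]
        have ea2 : a ^ 2 = |a| ^ 2 := (sq_abs a).symm
        have hab := abs_nonneg a
        rw [ea, ea2]
        rcases le_total s |a| with h | h
        · have h1 : |a| ^ (2 * k - 1) ≤ |a| ^ (2 * k) / s := by
            rw [le_div_iff₀ hspos]
            have : |a| ^ (2 * k) = |a| ^ (2 * k - 1) * |a| := by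
              rw [← pow_succ]; congr 1; omega
            rw [this]
            exact mul_le_mul_of_nonneg_left h (pow_nonneg hab _)
          have h2 : 0 ≤ s ^ (2 * k - 3) * |a| ^ 2 := by positivity
          linarith
        · have h1 : |a| ^ (2 * k - 1) ≤ s ^ (2 * k - 3) * |a| ^ 2 := by
            have : |a| ^ (2 * k - 1) = |a| ^ (2 * k - 3) * |a| ^ 2 := by
              rw [← pow_add]; congr 1; omega
            rw [this]
            exact mul_le_mul_of_nonneg_right (pow_le_pow_left₀ hab h _) (by positivity)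
          have h2 : 0 ≤ |a| ^ (2 * k) / s := by positivity
          linarith
      have h2 : ∑ i, |μ i| ^ (2 * k - 1) ≤ (Q + K) * s ^ (4 * k - 1) := by
        calc ∑ i, |μ i| ^ (2 * k - 1) ≤ ∑ i, (μ i ^ (2 * k) / s + s ^ (2 * k - 3) * μ i ^ 2) :=
              sum_le_sum (fun i _ => hpt (μ i))
          _ = (∑ i, μ i ^ (2 * k)) / s + s ^ (2 * k - 3) * ∑ i, μ i ^ 2 := by
              rw [sum_add_distrib, sum_div, mul_sum]
          _ ≤ (Q * r ^ (2 * k)) / s + s ^ (2 * k - 3) * (K * r ^ (k + 1)) :=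
              add_le_add (div_le_div_of_nonneg_right hS hspos.le)
                (mul_le_mul_of_nonneg_left hS1 (by positivity))
          _ = (Q + K) * s ^ (4 * k - 1) := by
              rw [← hs2, ← pow_mul, ← pow_mul]
              have e1 : s ^ (2 * (2 * k)) = s ^ (4 * k - 1) * s := by
                rw [← pow_succ]; congr 1; omega
              have e2 : s ^ (2 * k - 3) * (K * s ^ (2 * (k + 1))) = K * s ^ (4 * k - 1) := by
                have : s ^ (4 * k - 1) = s ^ (2 * k - 3) * s ^ (2 * (k + 1)) := by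
                  rw [← pow_add]; congr 1; omega
                rw [this]; ring
              rw [e1, e2]
              field_simp
      rw [hl', show 2 * k + 1 - 2 = 2 * k - 1 by omega, show 2 * (2 * k + 1) - 3 = 4 * k - 1 by omega]
      refine h2.trans (mul_le_mul_of_nonneg_right ?_ (by positivity))
      rw [hC0]
      have : 0 < (Q + 1) ^ (l - 2) := by positivity
      linarith
  refine (repeat_walks G l).trans ?_
  set S' : ℝ := ∑ i, |μ i| ^ (l - 2) with hS'
  have hS'0 : 0 ≤ S' := sum_nonneg (fun i _ => by positivity)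
  have hend : s ^ (2 * l - 1) = n ^ (((l : ℝ) - 1 / 2) / (k : ℝ)) := by
    have e1 : s = n ^ (1 / (2 * (k : ℝ))) := by
      rw [hs, hr, Real.sqrt_eq_rpow, ← Real.rpow_mul hnpos.le]
      congr 1
      field_simp
    rw [e1, ← Real.rpow_natCast, ← Real.rpow_mul hnpos.le]
    congr 1
    rw [Nat.cast_sub (by omega)]
    push_cast
    field_simp
  calc ∑ j ∈ range l, ∑ i ∈ range j, ∑ x, ((G.adjMatrix ℝ) ^ (j - i)) x x *
        ((G.adjMatrix ℝ) ^ (l - (j - i))) x x
      ≤ ∑ j ∈ range l, ∑ i ∈ range j, ∑ x, (K * r) * mom hA (l - 2) x := by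
        apply sum_le_sum; intro j hj
        apply sum_le_sum; intro i hi
        apply sum_le_sum; intro x _
        rw [mem_range] at hj hi
        exact diag_mul_le G (K * r) (by positivity) hdeg hA l (j - i) (by omega) (by omega) x
    _ = ∑ j ∈ range l, (j : ℝ) * ((K * r) * S') := by
        apply sum_congr rfl
        intro j _
        rw [← mul_sum, sum_mom hA, sum_const, card_range, nsmul_eq_mul]
    _ ≤ ∑ j ∈ range l, (l : ℝ) * ((K * r) * S') := by
        apply sum_le_sum
        intro j hj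
        rw [mem_range] at hj
        apply mul_le_mul_of_nonneg_right _ (by positivity)
        exact_mod_cast hj.le
    _ = (l : ℝ) ^ 2 * ((K * r) * S') := by
        rw [sum_const, card_range, nsmul_eq_mul]; ring
    _ ≤ (l : ℝ) ^ 2 * ((K * r) * (C0 * s ^ (2 * l - 3))) := by
        apply mul_le_mul_of_nonneg_left _ (by positivity)
        exact mul_le_mul_of_nonneg_left hmom (by positivity)
    _ = (l : ℝ) ^ 2 * (K * C0) * s ^ (2 * l - 1) := by
        have : s ^ (2 * l - 1) = s ^ 2 * s ^ (2 * l - 3) := by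
          rw [← pow_add]; congr 1; omega
        rw [this, hs2]; ring
    _ = _ := by rw [hend]

/-- **Weak regularity for all graphs without a cycle of length `2 k`.** -/
theorem weak_reg (k : ℕ) (hk : 2 ≤ k) (ε : ℝ) (hε : 0 < ε) :
    ∃ M : ℕ, ∀ (V : Type) [Fintype V] [DecidableEq V] (G : SimpleGraph V) [DecidableRel G.Adj],
      (SimpleGraph.cycleGraph (2 * k)).Free G →
      ∃ χ : V → Fin M, ∀ S T : Finset V,
        |((G.interedges S T).card : ℝ) - ∑ a : Fin M, ∑ b : Fin M,
          ((G.interedges (univ.filter (fun x => χ x = a))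
            (univ.filter (fun x => χ x = b))).card : ℝ) *
          ((S.filter (fun x => χ x = a)).card : ℝ) * ((T.filter (fun x => χ x = b)).card : ℝ) /
          (((univ.filter (fun x => χ x = a)).card : ℝ) *
            ((univ.filter (fun x => χ x = b)).card : ℝ))| ≤
        ε * (Fintype.card V : ℝ) ^ (1 + 1 / (k : ℝ)) := by
  classical
  have hkpos : (0 : ℝ) < k := by
    have : 0 < k := by omega
    exact_mod_cast this
  obtain ⟨B, hB, htail⟩ := tail k hk
  set K : ℝ := B / (ε / 6) ^ (k - 1) with hK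
  have hKpos : 0 < K := by positivity
  obtain ⟨M, hM⟩ := op_approx k hk K (ε / 3) hKpos (by positivity)
  refine ⟨M, ?_⟩
  intro V _ _ G _ hfree
  rcases isEmpty_or_nonempty V with hemp | hne
  · refine ⟨fun x => (hemp.false x).elim, fun S T => ?_⟩
    have hS : S = ∅ := by
      ext x; exact (hemp.false x).elim
    have hT : T = ∅ := by
      ext x; exact (hemp.false x).elim
    subst hS; subst hT
    have e : (G.interedges (∅ : Finset V) ∅).card = 0 := by
      rw [card_eq_zero]
      ext p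
      simp
    rw [e]
    simp only [Nat.cast_zero, filter_empty, card_empty, mul_zero, zero_div, sum_const_zero,
      sub_zero, abs_zero]
    positivity
  have hnpos : (0 : ℝ) < (Fintype.card V : ℝ) := by exact_mod_cast Fintype.card_pos
  set n : ℝ := (Fintype.card V : ℝ) with hn
  set r : ℝ := n ^ (1 / (k : ℝ)) with hr
  have hrpos : 0 < r := by positivity
  have hrk : r ^ k = n := root_pow n hnpos k (by omega)
  have hnr : n ^ (1 + 1 / (k : ℝ)) = n * r := by
    rw [Real.rpow_add hnpos, Real.rpow_one]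
  -- the tail
  set H : Finset V := univ.filter (fun x => K * r < (G.degree x : ℝ)) with hH
  set T0 : ℝ := ∑ x ∈ H, (G.degree x : ℝ) with hT0
  have hT0nn : 0 ≤ T0 := sum_nonneg (fun x _ => Nat.cast_nonneg _)
  have hT0le : T0 ≤ ε / 6 * (n * r) := by
    have h1 := htail V G hfree (K * r) (by positivity)
    rw [← hn] at h1
    have h2 : T0 ^ (k - 1) ≤ (ε / 6 * (n * r)) ^ (k - 1) := by
      have e1 : n ^ k = (n * r) ^ (k - 1) * r := by
        have : n ^ k = n ^ (k - 1) * n := by rw [← pow_succ]; congr 1; omega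
        rw [this, mul_pow]
        nth_rewrite 2 [← hrk]
        have : r ^ k = r ^ (k - 1) * r := by rw [← pow_succ]; congr 1; omega
        rw [this]; ring
      have h3 : T0 ^ (k - 1) * K * r ≤ (ε / 6 * (n * r)) ^ (k - 1) * K * r := by
        calc T0 ^ (k - 1) * K * r = T0 ^ (k - 1) * (K * r) := by ring
          _ ≤ B * n ^ k := h1
          _ = (ε / 6 * (n * r)) ^ (k - 1) * K * r := by
              rw [e1, hK, mul_pow (ε / 6)]
              field_simp
      exact le_of_mul_le_mul_right (le_of_mul_le_mul_right h3 hrpos) hKpos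
    exact le_of_pow_le_pow_left₀ (by omega) (by positivity) h2
  -- low-degree part
  let F : SimpleGraph V :=
    { Adj := fun a b => G.Adj a b ∧ a ∉ H ∧ b ∉ H
      symm := ⟨fun a b h => ⟨h.1.symm, h.2.2, h.2.1⟩⟩
      loopless := ⟨fun a h => G.irrefl h.1⟩ }
  have hFG : F ≤ G := fun a b h => h.1
  have hFfree : (SimpleGraph.cycleGraph (2 * k)).Free F := by
    intro hcon
    exact hfree (hcon.trans (SimpleGraph.IsContained.of_le hFG))
  have hFdeg : ∀ x, (F.degree x : ℝ) ≤ K * n ^ (1 / (k : ℝ)) := by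
    intro x
    by_cases hx : x ∈ H
    · have : F.degree x = 0 := by
        rw [← F.card_neighborFinset_eq_degree, card_eq_zero]
        ext y
        rw [SimpleGraph.mem_neighborFinset]
        simp only [notMem_empty, iff_false]
        exact fun h => h.2.1 hx
      rw [this, Nat.cast_zero]
      positivity
    · have h1 : ¬ K * r < (G.degree x : ℝ) := by
        intro h
        exact hx (by rw [hH, mem_filter]; exact ⟨mem_univ _, h⟩)
      push Not at h1
      refine le_trans ?_ h1
      rw [← F.card_neighborFinset_eq_degree, ← G.card_neighborFinset_eq_degree]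
      apply Nat.cast_le.2
      apply card_le_card
      intro y hy
      rw [SimpleGraph.mem_neighborFinset] at hy ⊢
      exact hy.1
  obtain ⟨χ, hχ⟩ := hM V F hFfree hFdeg
  have hmass : ∑ x, ∑ y, (G.adjMatrix ℝ x y - F.adjMatrix ℝ x y) ≤ ε / 3 * r * n := by
    have hpt : ∀ x y, G.adjMatrix ℝ x y - F.adjMatrix ℝ x y ≤
        (if x ∈ H then G.adjMatrix ℝ x y else 0) + (if y ∈ H then G.adjMatrix ℝ x y else 0) := by
      intro x y
      simp only [SimpleGraph.adjMatrix_apply]
      by_cases h1 : G.Adj x y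
      · by_cases h2 : x ∈ H
        · have : ¬ F.Adj x y := fun h => h.2.1 h2
          simp only [h1, h2, this, if_true, if_false]
          split_ifs <;> norm_num
        · by_cases h3 : y ∈ H
          · have : ¬ F.Adj x y := fun h => h.2.2 h3
            simp [h1, h2, h3, this]
          · have : F.Adj x y := ⟨h1, h2, h3⟩
            simp [h1, h2, h3, this]
      · have : ¬ F.Adj x y := fun h => h1 h.1
        simp [h1, this]
    have e1 : ∑ x, ∑ y, (if x ∈ H then G.adjMatrix ℝ x y else 0) = T0 := by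
      have : ∀ x, ∑ y, (if x ∈ H then G.adjMatrix ℝ x y else 0) =
          if x ∈ H then (G.degree x : ℝ) else 0 := by
        intro x
        by_cases h : x ∈ H
        · simp only [h, if_true, rowsum]
        · simp [h]
      simp only [this]
      rw [sum_ite_mem, univ_inter]
    have e2 : ∑ x, ∑ y, (if y ∈ H then G.adjMatrix ℝ x y else 0) = T0 := by
      rw [sum_comm, ← e1]
      apply sum_congr rfl
      intro x _
      apply sum_congr rfl
      intro y _
      simp only [SimpleGraph.adjMatrix_apply, G.adj_comm x y]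
    calc ∑ x, ∑ y, (G.adjMatrix ℝ x y - F.adjMatrix ℝ x y)
        ≤ ∑ x, ∑ y, ((if x ∈ H then G.adjMatrix ℝ x y else 0) +
          (if y ∈ H then G.adjMatrix ℝ x y else 0)) :=
          sum_le_sum (fun x _ => sum_le_sum (fun y _ => hpt x y))
      _ = T0 + T0 := by
          simp only [sum_add_distrib]
          rw [e1, e2]
      _ ≤ ε / 6 * (n * r) + ε / 6 * (n * r) := add_le_add hT0le hT0le
      _ = ε / 3 * r * n := by ring
  have hnonneg : ∀ x y, 0 ≤ G.adjMatrix ℝ x y - F.adjMatrix ℝ x y := by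
    intro x y
    simp only [SimpleGraph.adjMatrix_apply]
    by_cases h2 : F.Adj x y
    · simp [h2, hFG h2]
    · simp only [h2, if_false, sub_zero]
      split_ifs <;> norm_num
  have hform : ∀ f g : V → ℝ, (∀ x, 0 ≤ f x ∧ f x ≤ 1) → (∀ x, 0 ≤ g x ∧ g x ≤ 1) →
      ∑ x, ∑ y, f x * F.adjMatrix ℝ x y * g y ≤ ∑ x, ∑ y, f x * G.adjMatrix ℝ x y * g y ∧
      ∑ x, ∑ y, f x * G.adjMatrix ℝ x y * g y ≤
        ∑ x, ∑ y, f x * F.adjMatrix ℝ x y * g y + ε / 3 * r * n := by
    intro f g hf hg
    have h1 : ∑ x, ∑ y, f x * G.adjMatrix ℝ x y * g y =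
        ∑ x, ∑ y, f x * F.adjMatrix ℝ x y * g y +
        ∑ x, ∑ y, f x * (G.adjMatrix ℝ x y - F.adjMatrix ℝ x y) * g y := by
      rw [← sum_add_distrib]
      apply sum_congr rfl
      intro x _
      rw [← sum_add_distrib]
      apply sum_congr rfl
      intro y _
      ring
    have h2 : 0 ≤ ∑ x, ∑ y, f x * (G.adjMatrix ℝ x y - F.adjMatrix ℝ x y) * g y :=
      sum_nonneg (fun x _ => sum_nonneg (fun y _ =>
        mul_nonneg (mul_nonneg (hf x).1 (hnonneg x y)) (hg y).1))
    have h3 : ∑ x, ∑ y, f x * (G.adjMatrix ℝ x y - F.adjMatrix ℝ x y) * g y ≤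
        ε / 3 * r * n := by
      refine le_trans (sum_le_sum (fun x _ => sum_le_sum (fun y _ => ?_))) hmass
      calc f x * (G.adjMatrix ℝ x y - F.adjMatrix ℝ x y) * g y
          ≤ 1 * (G.adjMatrix ℝ x y - F.adjMatrix ℝ x y) * 1 := by
            apply mul_le_mul _ (hg y).2 (hg y).1
            · rw [one_mul]; exact hnonneg x y
            · exact mul_le_mul_of_nonneg_right (hf x).2 (hnonneg x y)
        _ = _ := by ring
    constructor
    · linarith
    · linarith
  refine ⟨χ, fun S T => ?_⟩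
  rw [← avg_form G χ S T, ← ind_form G S T]
  have q1 := hχ (ind S) (ind T)
  have hind : ∀ S : Finset V, Real.sqrt (∑ x, ind S x ^ 2) ≤ Real.sqrt n := by
    intro S
    apply Real.sqrt_le_sqrt
    calc ∑ x, ind S x ^ 2 ≤ ∑ x : V, (1 : ℝ) := by
          apply sum_le_sum
          intro x _
          have := ind_mem S x
          nlinarith
      _ = n := by simp [hn]
  have q1' : |∑ x, ∑ y, ind S x * F.adjMatrix ℝ x y * ind T y -
      ∑ x, ∑ y, avg χ (ind S) x * F.adjMatrix ℝ x y * avg χ (ind T) y| ≤ ε / 3 * r * n := by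
    refine q1.trans ?_
    apply mul_le_mul_of_nonneg_left _ (by positivity)
    calc Real.sqrt (∑ x, ind S x ^ 2) * Real.sqrt (∑ x, ind T x ^ 2)
        ≤ Real.sqrt n * Real.sqrt n :=
          mul_le_mul (hind S) (hind T) (Real.sqrt_nonneg _) (Real.sqrt_nonneg _)
      _ = n := Real.mul_self_sqrt hnpos.le
  have a1 : ∀ x, 0 ≤ avg χ (ind S) x ∧ avg χ (ind S) x ≤ 1 :=
    avg_mem χ (ind S) (fun x => (ind_mem S x).1) (fun x => (ind_mem S x).2)
  have a2 : ∀ x, 0 ≤ avg χ (ind T) x ∧ avg χ (ind T) x ≤ 1 :=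
    avg_mem χ (ind T) (fun x => (ind_mem T x).1) (fun x => (ind_mem T x).2)
  have q2 := hform (ind S) (ind T) (ind_mem S) (ind_mem T)
  have q3 := hform _ _ a1 a2
  rw [hnr]
  rw [abs_le] at q1' ⊢
  have e : ε * (n * r) = ε / 3 * r * n + ε / 3 * r * n + ε / 3 * r * n := by ring
  have e0 : 0 < ε / 3 * r * n := by positivity
  rw [e]
  constructor
  · linarith [q1'.1, q2.1, q2.2, q3.1, q3.2]
  · linarith [q1'.2, q2.1, q2.2, q3.1, q3.2]

end Pool.Agent.Q115.GW
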