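import Pool.Agent.H35.XL.Q115_GY2

/-! Closed walks and eigenvalues of graphs without a cycle of length `2 k`. -/

set_option autoImplicit false

open Finset

namespace Pool.Agent.Q115.GW

open Pool.Agent.Q115.GY

variable {V : Type*} [Fintype V] [DecidableEq V]

/-- walks through `x` at time `i` and `y` at time `j` -/
theorem card_through (G : SimpleGraph V) [DecidableRel G.Adj] (u v x y : V) (m i j : ℕ)
    (hij : i ≤ j) (hj : j ≤ m) :
    ((G.finsetWalkLength m u v).filter (fun p => p.getVert i = x ∧ p.getVert j = y)).card ≤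
      (G.finsetWalkLength i u x).card * ((G.finsetWalkLength (j - i) x y).card *
        (G.finsetWalkLength (m - j) y v).card) := by
  rw [← card_product, ← card_product]
  apply card_le_card_of_surjOn (fun t => t.1.append (t.2.1.append t.2.2))
  intro p hp
  rw [mem_coe, mem_filter, SimpleGraph.mem_finsetWalkLength_iff] at hp
  obtain ⟨hm, hx, hy⟩ := hp
  have hy' : (p.drop i).getVert (j - i) = y := by
    rw [SimpleGraph.Walk.drop_getVert, show i + (j - i) = j by omega, hy]
  refine ⟨⟨(p.take i).copy rfl hx, ⟨((p.drop i).take (j - i)).copy hx hy', (p.drop j).copy hy rfl⟩⟩,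
    ?_, ?_⟩
  · rw [mem_coe, mem_product, mem_product]
    simp only [SimpleGraph.mem_finsetWalkLength_iff, SimpleGraph.Walk.length_copy,
      SimpleGraph.Walk.take_length, SimpleGraph.Walk.drop_length]
    omega
  · apply SimpleGraph.Walk.ext_getVert
    intro t
    simp only [SimpleGraph.Walk.getVert_append, SimpleGraph.Walk.length_copy,
      SimpleGraph.Walk.take_length, SimpleGraph.Walk.drop_length, SimpleGraph.Walk.getVert_copy,
      SimpleGraph.Walk.take_getVert, SimpleGraph.Walk.drop_getVert]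
    split_ifs with h1 h2
    · congr 1; omega
    · congr 1; omega
    · congr 1; omega

omit [Fintype V] [DecidableEq V] in
/-- a closed walk of length `n` with distinct vertices is a cycle -/
theorem exists_repeat (G : SimpleGraph V) (n : ℕ)
    (hfree : (SimpleGraph.cycleGraph n).Free G) (w : V) (p : G.Walk w w) (hp : p.length = n) :
    ∃ i j : ℕ, i < j ∧ j < n ∧ p.getVert i = p.getVert j := by
  by_contra hcon
  push Not at hcon
  apply hfree
  have hinj : Function.Injective (fun a : Fin n => p.getVert a.1) := by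
    intro a b h
    simp only at h
    rcases lt_trichotomy a.1 b.1 with h1 | h1 | h1
    · exact absurd h (hcon a.1 b.1 h1 b.2)
    · exact Fin.ext h1
    · exact absurd h.symm (hcon b.1 a.1 h1 a.2)
  have hstep : ∀ a b : Fin n, (b - a).val = 1 → G.Adj (p.getVert a.1) (p.getVert b.1) := by
    intro a b h
    by_cases hle : a.1 ≤ b.1
    · have h1 : (b - a).val = b.1 - a.1 := Fin.sub_val_of_le hle
      have h2 : b.1 = a.1 + 1 := by omega
      rw [h2]
      apply p.adj_getVert_succ
      rw [hp]; exact a.2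
    · have h1 : (b - a).val = n + b.1 - a.1 := by
        have := Fin.coe_sub_iff_lt.2 (show b < a from not_le.1 hle)
        omega
      have ha := a.2
      have h2 : b.1 = 0 := by omega
      have h3 : a.1 + 1 = n := by omega
      rw [h2, p.getVert_zero]
      have h4 : p.getVert (a.1 + 1) = w := by
        rw [h3, ← hp]; exact p.getVert_length
      have h5 := p.adj_getVert_succ (i := a.1) (by rw [hp]; exact a.2)
      rwa [h4] at h5
  refine ⟨⟨⟨fun a => p.getVert a.1, ?_⟩, hinj⟩⟩
  intro a b hab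
  rw [SimpleGraph.cycleGraph_adj'] at hab
  rcases hab with h | h
  · exact (hstep b a h).symm
  · exact hstep a b h

/-- closed walks of a graph without a cycle of length `n` -/
theorem closed_walks (G : SimpleGraph V) [DecidableRel G.Adj] (n : ℕ)
    (hfree : (SimpleGraph.cycleGraph n).Free G) :
    ∑ w, ((G.adjMatrix ℝ) ^ n) w w ≤
      ∑ j ∈ range n, ∑ i ∈ range j, ∑ x, ((G.adjMatrix ℝ) ^ (j - i)) x x *
        ((G.adjMatrix ℝ) ^ (n - (j - i))) x x := by
  classical
  set W : ℕ → V → V → ℕ := fun m u v => (G.finsetWalkLength m u v).card with hW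
  have hWA : ∀ m u v, ((G.adjMatrix ℝ) ^ m) u v = (W m u v : ℝ) := by
    intro m u v
    rw [G.adjMatrix_pow_apply_eq_card_walk, SimpleGraph.card_set_walk_length_eq]
  have h1 : ∀ w, W n w w ≤ ∑ j ∈ range n, ∑ i ∈ range j, ∑ x,
      W i w x * (W (j - i) x x * W (n - j) x w) := by
    intro w
    have hsub : G.finsetWalkLength n w w ⊆ (range n).biUnion (fun j => (range j).biUnion (fun i =>
        univ.biUnion (fun x => (G.finsetWalkLength n w w).filter
          (fun p => p.getVert i = x ∧ p.getVert j = x)))) := by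
      intro p hp
      obtain ⟨i, j, hij, hj, h⟩ := exists_repeat G n hfree w p
        (G.mem_finsetWalkLength_iff.1 hp)
      rw [mem_biUnion]
      refine ⟨j, mem_range.2 hj, ?_⟩
      rw [mem_biUnion]
      refine ⟨i, mem_range.2 hij, ?_⟩
      rw [mem_biUnion]
      exact ⟨p.getVert i, mem_univ _, mem_filter.2 ⟨hp, rfl, h.symm⟩⟩
    refine (card_le_card hsub).trans (card_biUnion_le.trans (sum_le_sum (fun j hj => ?_)))
    refine card_biUnion_le.trans (sum_le_sum (fun i hi => ?_))
    refine card_biUnion_le.trans (sum_le_sum (fun x _ => ?_))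
    rw [mem_range] at hj hi
    exact card_through G w w x x n i j hi.le hj.le
  have h2 : ∀ w, ((G.adjMatrix ℝ) ^ n) w w ≤ ∑ j ∈ range n, ∑ i ∈ range j, ∑ x,
      ((G.adjMatrix ℝ) ^ (j - i)) x x *
        (((G.adjMatrix ℝ) ^ (n - j)) x w * ((G.adjMatrix ℝ) ^ i) w x) := by
    intro w
    simp only [hWA]
    have := h1 w
    have h3 : (W n w w : ℝ) ≤ ((∑ j ∈ range n, ∑ i ∈ range j, ∑ x,
      W i w x * (W (j - i) x x * W (n - j) x w) : ℕ) : ℝ) := by exact_mod_cast this
    refine h3.trans (le_of_eq ?_)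
    push_cast
    apply sum_congr rfl; intro j _
    apply sum_congr rfl; intro i _
    apply sum_congr rfl; intro x _
    ring
  refine (sum_le_sum (fun w _ => h2 w)).trans (le_of_eq ?_)
  rw [sum_comm]
  apply sum_congr rfl
  intro j hj
  rw [sum_comm]
  apply sum_congr rfl
  intro i hi
  rw [sum_comm]
  apply sum_congr rfl
  intro x _
  rw [← mul_sum]
  congr 1
  rw [mem_range] at hj hi
  rw [show n - (j - i) = (n - j) + i by omega, pow_add, Matrix.mul_apply]

/-! ### Moments -/

/-- absolute moments of the spectral measure at `x` -/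
noncomputable def mom {A : Matrix V V ℝ} (hA : A.IsHermitian) (l : ℕ) (x : V) : ℝ :=
  ∑ i, |hA.eigenvalues i| ^ l * ev hA i x ^ 2

theorem mom_nonneg {A : Matrix V V ℝ} (hA : A.IsHermitian) (l : ℕ) (x : V) : 0 ≤ mom hA l x :=
  sum_nonneg (fun i _ => by positivity)

theorem diag_pow {A : Matrix V V ℝ} (hA : A.IsHermitian) (l : ℕ) (x : V) :
    (A ^ l) x x = ∑ i, hA.eigenvalues i ^ l * ev hA i x ^ 2 := by
  have h := ev_parseval hA (fun y => (A ^ l) x y) (fun y => if y = x then 1 else 0)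
  simp only [mul_ite, mul_one, mul_zero, sum_ite_eq', mem_univ, if_true, ite_mul, one_mul,
    zero_mul] at h
  rw [h]
  apply sum_congr rfl
  intro i _
  rw [ev_pow hA i l x]
  ring

theorem abs_diag_le {A : Matrix V V ℝ} (hA : A.IsHermitian) (l : ℕ) (x : V) :
    |(A ^ l) x x| ≤ mom hA l x := by
  rw [diag_pow hA]
  refine (abs_sum_le_sum_abs _ _).trans (le_of_eq ?_)
  apply sum_congr rfl
  intro i _
  rw [abs_mul, abs_pow, abs_of_nonneg (sq_nonneg (ev hA i x))]

theorem two_powers (a b : ℝ) (ha : 0 ≤ a) (hb : 0 ≤ b) (p q : ℕ) :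
    a ^ (p + 2) * b ^ (q + 2) + a ^ (q + 2) * b ^ (p + 2) ≤
      a ^ 2 * b ^ (p + q + 2) + a ^ (p + q + 2) * b ^ 2 := by
  have h : 0 ≤ (a ^ p - b ^ p) * (a ^ q - b ^ q) := by
    rcases le_total a b with h | h
    · have h1 := pow_le_pow_left₀ ha h p
      have h2 := pow_le_pow_left₀ ha h q
      nlinarith
    · have h1 := pow_le_pow_left₀ hb h p
      have h2 := pow_le_pow_left₀ hb h q
      nlinarith
  have h2 : 0 ≤ a ^ 2 * b ^ 2 * ((a ^ p - b ^ p) * (a ^ q - b ^ q)) := by positivity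
  have h3 : a ^ 2 * b ^ (p + q + 2) + a ^ (p + q + 2) * b ^ 2 -
      (a ^ (p + 2) * b ^ (q + 2) + a ^ (q + 2) * b ^ (p + 2)) =
      a ^ 2 * b ^ 2 * ((a ^ p - b ^ p) * (a ^ q - b ^ q)) := by ring
  linarith

theorem mom_mul_le {A : Matrix V V ℝ} (hA : A.IsHermitian) (p q : ℕ) (x : V) :
    mom hA (p + 2) x * mom hA (q + 2) x ≤ mom hA 2 x * mom hA (p + q + 2) x := by
  set a : V → ℝ := fun i => |hA.eigenvalues i| with ha
  set w : V → ℝ := fun i => ev hA i x ^ 2 with hw
  have hw0 : ∀ i, 0 ≤ w i := fun i => sq_nonneg _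
  have ha0 : ∀ i, 0 ≤ a i := fun i => abs_nonneg _
  have e : ∀ l m : ℕ, mom hA l x * mom hA m x = ∑ i, ∑ j, a i ^ l * a j ^ m * (w i * w j) := by
    intro l m
    unfold mom
    rw [sum_mul_sum]
    apply sum_congr rfl; intro i _
    apply sum_congr rfl; intro j _
    simp only [ha, hw]
    ring
  have e2 : ∀ l m : ℕ, 2 * (mom hA l x * mom hA m x) =
      ∑ i, ∑ j, (a i ^ l * a j ^ m + a i ^ m * a j ^ l) * (w i * w j) := by
    intro l m
    have h1 := e l m
    have h2 := e m l
    have h3 : 2 * (mom hA l x * mom hA m x) = mom hA l x * mom hA m x + mom hA m x * mom hA l x := by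
      ring
    rw [h3, h1, h2, ← sum_add_distrib]
    apply sum_congr rfl; intro i _
    rw [← sum_add_distrib]
    apply sum_congr rfl; intro j _
    ring
  have h : 2 * (mom hA (p + 2) x * mom hA (q + 2) x) ≤
      2 * (mom hA 2 x * mom hA (p + q + 2) x) := by
    rw [e2, e2]
    apply sum_le_sum; intro i _
    apply sum_le_sum; intro j _
    exact mul_le_mul_of_nonneg_right (two_powers _ _ (ha0 i) (ha0 j) p q)
      (mul_nonneg (hw0 i) (hw0 j))
  linarith

theorem sum_mom {A : Matrix V V ℝ} (hA : A.IsHermitian) (l : ℕ) :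
    ∑ x, mom hA l x = ∑ i, |hA.eigenvalues i| ^ l := by
  unfold mom
  rw [sum_comm]
  apply sum_congr rfl
  intro i _
  rw [← mul_sum, ev_norm hA i, mul_one]

/-- **Schatten norm of graphs without a cycle of length `2 k`.** -/
theorem schatten (G : SimpleGraph V) [DecidableRel G.Adj] (k : ℕ) (hk : 2 ≤ k)
    (hfree : (SimpleGraph.cycleGraph (2 * k)).Free G) (D : ℝ) (hD0 : 0 < D)
    (hD : ∀ x, (G.degree x : ℝ) ≤ D) (hA : (G.adjMatrix ℝ).IsHermitian) :
    ∑ i, hA.eigenvalues i ^ (2 * k) ≤ (4 * (k : ℝ) ^ 2 * D) ^ (k - 1) * ∑ x, (G.degree x : ℝ) := by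
  have hkR : (2 : ℝ) ≤ k := by exact_mod_cast hk
  set μ := hA.eigenvalues with hμ
  -- the second moment
  have hdeg2 : ∀ x, mom hA 2 x = (G.degree x : ℝ) := by
    intro x
    have h1 : mom hA 2 x = ((G.adjMatrix ℝ) ^ 2) x x := by
      rw [diag_pow hA]
      unfold mom
      apply sum_congr rfl
      intro i _
      rw [sq_abs]
    rw [h1, sq, SimpleGraph.adjMatrix_mul_self_apply_self]
  have hS1 : ∑ i, μ i ^ 2 = ∑ x, (G.degree x : ℝ) := by
    have := sum_mom hA 2
    simp only [sq_abs, hdeg2] at this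
    exact this.symm
  -- closed walks
  have hSk : ∑ i, μ i ^ (2 * k) = ∑ w, ((G.adjMatrix ℝ) ^ (2 * k)) w w := by
    have h1 : ∀ w, ((G.adjMatrix ℝ) ^ (2 * k)) w w = ∑ i, μ i ^ (2 * k) * ev hA i w ^ 2 :=
      fun w => diag_pow hA (2 * k) w
    rw [sum_congr rfl (fun w _ => h1 w), sum_comm]
    apply sum_congr rfl
    intro i _
    rw [← mul_sum, ev_norm hA i, mul_one]
  have hterm : ∀ l : ℕ, 1 ≤ l → l < 2 * k → ∀ x, ((G.adjMatrix ℝ) ^ l) x x *
      ((G.adjMatrix ℝ) ^ (2 * k - l)) x x ≤ D * mom hA (2 * k - 2) x := by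
    intro l hl1 hl2 x
    have hnn : 0 ≤ D * mom hA (2 * k - 2) x := mul_nonneg hD0.le (mom_nonneg hA _ x)
    have h0 : ((G.adjMatrix ℝ) ^ 1) x x = 0 := by
      rw [pow_one]; simp [SimpleGraph.adjMatrix_apply]
    by_cases h1 : l = 1
    · rw [h1, h0, zero_mul]; exact hnn
    · by_cases h2 : 2 * k - l = 1
      · rw [h2, h0, mul_zero]; exact hnn
      · obtain ⟨p, rfl⟩ : ∃ p, l = p + 2 := ⟨l - 2, by omega⟩
        obtain ⟨q, hq⟩ : ∃ q, 2 * k - (p + 2) = q + 2 := ⟨2 * k - (p + 2) - 2, by omega⟩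
        rw [hq]
        have h3 : 2 * k - 2 = p + q + 2 := by omega
        rw [h3]
        calc ((G.adjMatrix ℝ) ^ (p + 2)) x x * ((G.adjMatrix ℝ) ^ (q + 2)) x x
            ≤ |((G.adjMatrix ℝ) ^ (p + 2)) x x * ((G.adjMatrix ℝ) ^ (q + 2)) x x| := le_abs_self _
          _ = |((G.adjMatrix ℝ) ^ (p + 2)) x x| * |((G.adjMatrix ℝ) ^ (q + 2)) x x| := abs_mul _ _
          _ ≤ mom hA (p + 2) x * mom hA (q + 2) x :=
              mul_le_mul (abs_diag_le hA _ x) (abs_diag_le hA _ x) (abs_nonneg _)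
                (mom_nonneg hA _ x)
          _ ≤ mom hA 2 x * mom hA (p + q + 2) x := mom_mul_le hA p q x
          _ ≤ D * mom hA (p + q + 2) x := by
              rw [hdeg2]
              exact mul_le_mul_of_nonneg_right (hD x) (mom_nonneg hA _ x)
  set S' : ℝ := ∑ i, |μ i| ^ (2 * k - 2) with hS'
  have hS'0 : 0 ≤ S' := sum_nonneg (fun i _ => by positivity)
  have hmain : ∑ i, μ i ^ (2 * k) ≤ 2 * (k : ℝ) ^ 2 * (D * S') := by
    rw [hSk]
    refine (closed_walks G (2 * k) hfree).trans ?_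
    calc ∑ j ∈ range (2 * k), ∑ i ∈ range j, ∑ x, ((G.adjMatrix ℝ) ^ (j - i)) x x *
        ((G.adjMatrix ℝ) ^ (2 * k - (j - i))) x x
        ≤ ∑ j ∈ range (2 * k), ∑ i ∈ range j, ∑ x, D * mom hA (2 * k - 2) x := by
          apply sum_le_sum; intro j hj
          apply sum_le_sum; intro i hi
          apply sum_le_sum; intro x _
          rw [mem_range] at hj hi
          exact hterm (j - i) (by omega) (by omega) x
      _ = ∑ j ∈ range (2 * k), (j : ℝ) * (D * S') := by
          apply sum_congr rfl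
          intro j _
          rw [← mul_sum, sum_mom hA, sum_const, card_range, nsmul_eq_mul]
      _ = (∑ j ∈ range (2 * k), (j : ℝ)) * (D * S') := by rw [sum_mul]
      _ ≤ 2 * (k : ℝ) ^ 2 * (D * S') := by
          apply mul_le_mul_of_nonneg_right _ (mul_nonneg hD0.le hS'0)
          have h1 : (∑ j ∈ range (2 * k), j) * 2 = 2 * k * (2 * k - 1) := sum_range_id_mul_two _
          have h2 : (∑ j ∈ range (2 * k), j) * 2 ≤ 2 * k * (2 * k) := by
            rw [h1]; exact Nat.mul_le_mul_left _ (by omega)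
          have h3 : ((∑ j ∈ range (2 * k), j : ℕ) : ℝ) * 2 ≤ 2 * k * (2 * k) := by
            exact_mod_cast h2
          push_cast at h3
          nlinarith
  -- interpolation
  set s : ℝ := 4 * (k : ℝ) ^ 2 * D with hs
  have hspos : 0 < s := by positivity
  have hpt : ∀ a : ℝ, 0 ≤ a → a ^ (k - 1) ≤ a ^ k / s + s ^ (k - 2) * a := by
    intro a ha
    have hk1 : a ^ k = a ^ (k - 1) * a := by
      rw [← pow_succ]; congr 1; omega
    have hk2 : a ^ (k - 1) = a ^ (k - 2) * a := by
      rw [← pow_succ]; congr 1; omega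
    rcases le_total s a with h | h
    · have h1 : a ^ (k - 1) ≤ a ^ k / s := by
        rw [le_div_iff₀ hspos, hk1]
        exact mul_le_mul_of_nonneg_left h (pow_nonneg ha _)
      have h2 : 0 ≤ s ^ (k - 2) * a := by positivity
      linarith
    · have h1 : a ^ (k - 1) ≤ s ^ (k - 2) * a := by
        rw [hk2]
        exact mul_le_mul_of_nonneg_right (pow_le_pow_left₀ ha h _) ha
      have h2 : 0 ≤ a ^ k / s := by positivity
      linarith
  have hS'le : S' ≤ (∑ i, μ i ^ (2 * k)) / s + s ^ (k - 2) * ∑ i, μ i ^ 2 := by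
    rw [sum_div, mul_sum, ← sum_add_distrib, hS']
    apply sum_le_sum
    intro i _
    have := hpt (μ i ^ 2) (sq_nonneg _)
    rw [← pow_mul, ← pow_mul] at this
    have e : |μ i| ^ (2 * k - 2) = μ i ^ (2 * (k - 1)) := by
      rw [show 2 * k - 2 = 2 * (k - 1) by omega, pow_mul, sq_abs, ← pow_mul]
    rw [e]
    exact this
  rw [hS1] at hS'le
  have h1 : 2 * (k : ℝ) ^ 2 * (D * S') = s / 2 * S' := by rw [hs]; ring
  rw [h1] at hmain
  have h2 : s / 2 * S' ≤ s / 2 * ((∑ i, μ i ^ (2 * k)) / s + s ^ (k - 2) * ∑ x, (G.degree x : ℝ)) :=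
    mul_le_mul_of_nonneg_left hS'le (by positivity)
  have h3 : s / 2 * ((∑ i, μ i ^ (2 * k)) / s + s ^ (k - 2) * ∑ x, (G.degree x : ℝ)) =
      (∑ i, μ i ^ (2 * k)) / 2 + (s ^ (k - 1) * ∑ x, (G.degree x : ℝ)) / 2 := by
    have : s ^ (k - 1) = s ^ (k - 2) * s := by
      rw [← pow_succ]; congr 1; omega
    rw [this]
    field_simp
  rw [h3] at h2
  linarith

end Pool.Agent.Q115.GW
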