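import Pool.Agent.H35.XL.Q115_GW1

/-! The degree tail of graphs without a cycle of length `2 k`. -/

set_option autoImplicit false

open Finset

namespace Pool.Agent.Q115.GW

open Pool.Agent.Q115.GY

variable {V : Type*} [Fintype V] [DecidableEq V]

/-- a bilinear form and the Schatten norm -/
theorem form_le {A : Matrix V V ℝ} (hA : A.IsHermitian) (k : ℕ) (hk : 1 ≤ k) (f g : V → ℝ) :
    (∑ x, ∑ y, f x * A x y * g y) ^ (2 * k) ≤
      (∑ i, hA.eigenvalues i ^ (2 * k)) * ((∑ x, f x ^ 2) * (∑ x, g x ^ 2)) ^ k := by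
  rcases isEmpty_or_nonempty V with hemp | hne
  · have h0 : k ≠ 0 := by omega
    simp [h0]
  · rw [form_eq hA f g]
    set μ := hA.eigenvalues with hμ
    set a : V → ℝ := fun i => ∑ x, f x * ev hA i x with ha
    set b : V → ℝ := fun i => ∑ x, g x * ev hA i x with hb
    have hfa : ∑ x, f x ^ 2 = ∑ i, a i ^ 2 := by
      have := ev_parseval hA f f
      simp only [← sq] at this
      exact this
    have hgb : ∑ x, g x ^ 2 = ∑ i, b i ^ 2 := by
      have := ev_parseval hA g g
      simp only [← sq] at this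
      exact this
    obtain ⟨i0, _, hi0⟩ := exists_max_image (univ : Finset V) (fun i => |μ i|) univ_nonempty
    have h1 : |∑ i, μ i * (a i * b i)| ≤ |μ i0| * ∑ i, |a i| * |b i| := by
      refine (abs_sum_le_sum_abs _ _).trans ?_
      rw [mul_sum]
      apply sum_le_sum
      intro i _
      rw [abs_mul, abs_mul]
      exact mul_le_mul_of_nonneg_right (hi0 i (mem_univ i)) (by positivity)
    have h2 : (∑ i, |a i| * |b i|) ^ 2 ≤ (∑ i, a i ^ 2) * (∑ i, b i ^ 2) := by
      have := sum_mul_sq_le_sq_mul_sq (univ : Finset V) (fun i => |a i|) (fun i => |b i|)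
      simpa only [sq_abs] using this
    have h3 : (∑ i, μ i * (a i * b i)) ^ 2 ≤ μ i0 ^ 2 * ((∑ i, a i ^ 2) * (∑ i, b i ^ 2)) := by
      rw [← sq_abs]
      calc |∑ i, μ i * (a i * b i)| ^ 2 ≤ (|μ i0| * ∑ i, |a i| * |b i|) ^ 2 :=
            pow_le_pow_left₀ (abs_nonneg _) h1 2
        _ = μ i0 ^ 2 * (∑ i, |a i| * |b i|) ^ 2 := by rw [mul_pow, sq_abs]
        _ ≤ _ := mul_le_mul_of_nonneg_left h2 (sq_nonneg _)
    rw [hfa, hgb]
    calc (∑ i, μ i * (a i * b i)) ^ (2 * k) = ((∑ i, μ i * (a i * b i)) ^ 2) ^ k := by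
          rw [← pow_mul]
      _ ≤ (μ i0 ^ 2 * ((∑ i, a i ^ 2) * (∑ i, b i ^ 2))) ^ k :=
          pow_le_pow_left₀ (sq_nonneg _) h3 k
      _ = μ i0 ^ (2 * k) * ((∑ i, a i ^ 2) * (∑ i, b i ^ 2)) ^ k := by
          rw [mul_pow, ← pow_mul]
      _ ≤ _ := by
          apply mul_le_mul_of_nonneg_right _ (by positivity)
          apply single_le_sum (f := fun i => μ i ^ (2 * k)) _ (mem_univ i0)
          intro i _
          show 0 ≤ μ i ^ (2 * k)
          rw [pow_mul]; positivity

/-- a graph whose edges meet a small set -/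
theorem level (F : SimpleGraph V) [DecidableRel F.Adj] (k : ℕ) (hk : 2 ≤ k)
    (hfree : (SimpleGraph.cycleGraph (2 * k)).Free F) (D : ℝ) (hD0 : 0 < D)
    (hD : ∀ x, (F.degree x : ℝ) ≤ D) (L : Finset V) (hL : ∀ x y, F.Adj x y → x ∈ L ∨ y ∈ L) :
    (∑ x, (F.degree x : ℝ)) ^ (2 * k - 1) ≤
      4 ^ k * (4 * (k : ℝ) ^ 2 * D) ^ (k - 1) * ((L.card : ℝ) * Fintype.card V) ^ k := by
  have hA : (F.adjMatrix ℝ).IsHermitian := by
    ext i j
    simp [Matrix.conjTranspose_apply, SimpleGraph.adjMatrix_apply, F.adj_comm i j]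
  set s : ℝ := ∑ x, (F.degree x : ℝ) with hs
  have hs0 : 0 ≤ s := sum_nonneg (fun x _ => Nat.cast_nonneg _)
  have hrow : ∀ x, ∑ y, F.adjMatrix ℝ x y = (F.degree x : ℝ) := by
    intro x
    simp [SimpleGraph.adjMatrix_apply, ← F.card_neighborFinset_eq_degree,
      F.neighborFinset_eq_filter]
  set f : V → ℝ := fun x => if x ∈ L then 1 else 0 with hf
  have hform : ∑ x, ∑ y, f x * F.adjMatrix ℝ x y * 1 = ∑ x ∈ L, (F.degree x : ℝ) := by
    have : ∀ x, ∑ y, f x * F.adjMatrix ℝ x y * 1 = if x ∈ L then (F.degree x : ℝ) else 0 := by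
      intro x
      simp only [mul_one, ← mul_sum, hrow, hf]
      split_ifs <;> simp
    rw [sum_congr rfl (fun x _ => this x), sum_ite_mem, univ_inter]
  have hhalf : s ≤ 2 * ∑ x ∈ L, (F.degree x : ℝ) := by
    have e1 : ∑ x, ∑ y, (if x ∈ L then F.adjMatrix ℝ x y else 0) = ∑ x ∈ L, (F.degree x : ℝ) := by
      have : ∀ x, ∑ y, (if x ∈ L then F.adjMatrix ℝ x y else 0) =
          if x ∈ L then (F.degree x : ℝ) else 0 := by
        intro x
        by_cases h : x ∈ L
        · simp only [h, if_true, hrow]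
        · simp [h]
      simp only [this]
      rw [sum_ite_mem, univ_inter]
    have e2 : ∑ x, ∑ y, (if y ∈ L then F.adjMatrix ℝ x y else 0) = ∑ x ∈ L, (F.degree x : ℝ) := by
      rw [sum_comm, ← e1]
      apply sum_congr rfl
      intro x _
      apply sum_congr rfl
      intro y _
      simp only [SimpleGraph.adjMatrix_apply, F.adj_comm x y]
    calc s = ∑ x, ∑ y, F.adjMatrix ℝ x y := by rw [hs]; exact sum_congr rfl (fun x _ => (hrow x).symm)
      _ ≤ ∑ x, ∑ y, ((if x ∈ L then F.adjMatrix ℝ x y else 0) +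
            (if y ∈ L then F.adjMatrix ℝ x y else 0)) := by
          apply sum_le_sum; intro x _
          apply sum_le_sum; intro y _
          simp only [SimpleGraph.adjMatrix_apply]
          by_cases h : F.Adj x y
          · rcases hL x y h with h1 | h1
            · simp only [h, h1, if_true]
              split_ifs <;> norm_num
            · simp only [h, h1, if_true]
              split_ifs <;> norm_num
          · simp [h]
      _ = 2 * ∑ x ∈ L, (F.degree x : ℝ) := by
          simp only [sum_add_distrib]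
          rw [e1, e2]
          ring
  have h1 := form_le hA k (by omega) f (fun _ => 1)
  rw [hform] at h1
  have hf2 : ∑ x, f x ^ 2 = (L.card : ℝ) := by
    have : ∀ x, f x ^ 2 = if x ∈ L then 1 else 0 := by
      intro x
      simp only [hf]
      split_ifs <;> simp
    rw [sum_congr rfl (fun x _ => this x), sum_ite_mem, univ_inter, sum_const, nsmul_eq_mul, mul_one]
  have hg2 : ∑ x : V, (1 : ℝ) ^ 2 = (Fintype.card V : ℝ) := by simp
  rw [hf2, hg2] at h1
  have h2 := schatten F k hk hfree D hD0 hD hA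
  rw [← hs] at h2
  have h3 : s ^ (2 * k) ≤ 4 ^ k * (∑ x ∈ L, (F.degree x : ℝ)) ^ (2 * k) := by
    calc s ^ (2 * k) ≤ (2 * ∑ x ∈ L, (F.degree x : ℝ)) ^ (2 * k) := pow_le_pow_left₀ hs0 hhalf _
      _ = 4 ^ k * (∑ x ∈ L, (F.degree x : ℝ)) ^ (2 * k) := by
          rw [mul_pow, pow_mul 2 2 k]; norm_num
  have h4 : s ^ (2 * k) ≤ 4 ^ k * ((4 * (k : ℝ) ^ 2 * D) ^ (k - 1) * s *
      ((L.card : ℝ) * Fintype.card V) ^ k) := by
    refine h3.trans (mul_le_mul_of_nonneg_left (h1.trans ?_) (by positivity))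
    exact mul_le_mul_of_nonneg_right h2 (by positivity)
  rcases hs0.eq_or_lt with h0 | h0
  · rw [← h0, zero_pow (by omega)]
    positivity
  · have h5 : s ^ (2 * k) = s ^ (2 * k - 1) * s := by
      rw [← pow_succ]; congr 1; omega
    rw [h5] at h4
    have h6 : s ^ (2 * k - 1) * s ≤ (4 ^ k * (4 * (k : ℝ) ^ 2 * D) ^ (k - 1) *
        ((L.card : ℝ) * Fintype.card V) ^ k) * s := by
      refine h4.trans (le_of_eq (by ring))
    exact le_of_mul_le_mul_right h6 h0

/-- **Degree tail.** -/
theorem tail (k : ℕ) (hk : 2 ≤ k) : ∃ B : ℝ, 0 < B ∧ ∀ (V : Type) [Fintype V] [DecidableEq V]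
    (G : SimpleGraph V) [DecidableRel G.Adj], (SimpleGraph.cycleGraph (2 * k)).Free G →
    ∀ D : ℝ, 0 < D →
      (∑ x ∈ univ.filter (fun x => D < (G.degree x : ℝ)), (G.degree x : ℝ)) ^ (k - 1) * D ≤
        B * (Fintype.card V : ℝ) ^ k := by
  classical
  set m : ℕ := 2 * k - 1 with hm
  have hm1 : m ≠ 0 := by omega
  have hmR : (0 : ℝ) < m := by
    have : 0 < m := by omega
    exact_mod_cast this
  -- `q ^ m = 1 / 2`
  obtain ⟨q, hq0, hq1, hqm⟩ : ∃ q : ℝ, 0 < q ∧ q < 1 ∧ q ^ m = 1 / 2 := by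
    refine ⟨(1 / 2 : ℝ) ^ (1 / (m : ℝ)), by positivity, ?_, ?_⟩
    · exact Real.rpow_lt_one (by norm_num) (by norm_num) (by positivity)
    · rw [← Real.rpow_natCast, ← Real.rpow_mul (by norm_num), one_div_mul_cancel hmR.ne',
        Real.rpow_one]
  have h1q : 0 < 1 - q := by linarith
  set C : ℝ := 8 ^ k * (4 * (k : ℝ) ^ 2) ^ (k - 1) with hC
  have hkR : (2 : ℝ) ≤ k := by exact_mod_cast hk
  have hCpos : 0 < C := by positivity
  refine ⟨C / (1 - q) ^ m, by positivity, ?_⟩
  intro V _ _ G _ hfree D hD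
  set n : ℝ := (Fintype.card V : ℝ) with hn
  have hn0 : 0 ≤ n := Nat.cast_nonneg _
  set T : ℝ := ∑ x ∈ univ.filter (fun x => D < (G.degree x : ℝ)), (G.degree x : ℝ) with hT
  have hT0 : 0 ≤ T := sum_nonneg (fun x _ => Nat.cast_nonneg _)
  -- the levels
  let F : ℕ → SimpleGraph V := fun j =>
    { Adj := fun x y => G.Adj x y ∧ (G.degree x : ℝ) ≤ 2 ^ (j + 1) * D ∧
        (G.degree y : ℝ) ≤ 2 ^ (j + 1) * D ∧
        (2 ^ j * D < (G.degree x : ℝ) ∨ 2 ^ j * D < (G.degree y : ℝ))
      symm := ⟨fun x y h => ⟨h.1.symm, h.2.2.1, h.2.1, h.2.2.2.symm⟩⟩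
      loopless := ⟨fun x h => G.irrefl h.1⟩ }
  have hFG : ∀ j, F j ≤ G := fun j x y h => h.1
  have hFfree : ∀ j, (SimpleGraph.cycleGraph (2 * k)).Free (F j) := by
    intro j hcon
    exact hfree (hcon.trans (SimpleGraph.IsContained.of_le (hFG j)))
  have hFdeg : ∀ j x, ((F j).degree x : ℝ) ≤ 2 ^ (j + 1) * D := by
    intro j x
    by_cases hx : (G.degree x : ℝ) ≤ 2 ^ (j + 1) * D
    · refine le_trans ?_ hx
      rw [← (F j).card_neighborFinset_eq_degree, ← G.card_neighborFinset_eq_degree]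
      apply Nat.cast_le.2
      apply card_le_card
      intro y hy
      rw [SimpleGraph.mem_neighborFinset] at hy ⊢
      exact hy.1
    · have : (F j).degree x = 0 := by
        rw [← (F j).card_neighborFinset_eq_degree, card_eq_zero]
        ext y
        rw [SimpleGraph.mem_neighborFinset]
        simp only [notMem_empty, iff_false]
        exact fun h => hx h.2.1
      rw [this, Nat.cast_zero]
      positivity
  set L : ℕ → Finset V := fun j => univ.filter (fun x => 2 ^ j * D < (G.degree x : ℝ)) with hL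
  have hLcard : ∀ j, ((L j).card : ℝ) * (2 ^ j * D) ≤ T := by
    intro j
    calc ((L j).card : ℝ) * (2 ^ j * D) = ∑ x ∈ L j, 2 ^ j * D := by rw [sum_const, nsmul_eq_mul]
      _ ≤ ∑ x ∈ L j, (G.degree x : ℝ) := by
          apply sum_le_sum
          intro x hx
          rw [hL, mem_filter] at hx
          exact hx.2.le
      _ ≤ T := by
          apply sum_le_sum_of_subset_of_nonneg
          · intro x hx
            rw [hL, mem_filter] at hx
            rw [mem_filter]
            refine ⟨mem_univ _, lt_of_le_of_lt ?_ hx.2⟩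
            have : (1 : ℝ) ≤ 2 ^ j := one_le_pow₀ (by norm_num)
            nlinarith
          · intro x _ _
            exact Nat.cast_nonneg _
  set s : ℕ → ℝ := fun j => ∑ x, ((F j).degree x : ℝ) with hs
  have hs0 : ∀ j, 0 ≤ s j := fun j => sum_nonneg (fun x _ => Nat.cast_nonneg _)
  set X : ℝ := C * (T * n) ^ k / D with hX
  have hX0 : 0 ≤ X := by positivity
  have hlev : ∀ j, s j ^ m ≤ X / 2 ^ j := by
    intro j
    have h1 := level (F j) k hk (hFfree j) (2 ^ (j + 1) * D) (by positivity) (hFdeg j) (L j) (by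
      intro x y hxy
      rcases hxy.2.2.2 with h | h
      · exact Or.inl (by rw [hL, mem_filter]; exact ⟨mem_univ _, h⟩)
      · exact Or.inr (by rw [hL, mem_filter]; exact ⟨mem_univ _, h⟩))
    refine h1.trans ?_
    have h2 : ((L j).card : ℝ) ≤ 2 * T / (2 ^ (j + 1) * D) := by
      rw [le_div_iff₀ (by positivity)]
      have := hLcard j
      have e : ((L j).card : ℝ) * (2 ^ (j + 1) * D) = 2 * (((L j).card : ℝ) * (2 ^ j * D)) := by
        rw [pow_succ]; ring
      rw [e]
      linarith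
    set Δ : ℝ := 2 ^ (j + 1) * D with hΔ
    have hΔpos : 0 < Δ := by positivity
    calc 4 ^ k * (4 * (k : ℝ) ^ 2 * Δ) ^ (k - 1) * (((L j).card : ℝ) * n) ^ k
        ≤ 4 ^ k * (4 * (k : ℝ) ^ 2 * Δ) ^ (k - 1) * (2 * T / Δ * n) ^ k := by
          apply mul_le_mul_of_nonneg_left _ (by positivity)
          exact pow_le_pow_left₀ (by positivity) (mul_le_mul_of_nonneg_right h2 hn0) _
      _ = 4 ^ k * (4 * (k : ℝ) ^ 2) ^ (k - 1) * Δ ^ (k - 1) * (2 ^ k * (T * n) ^ k / Δ ^ k) := by
          rw [mul_pow (4 * (k : ℝ) ^ 2) Δ]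
          have : 2 * T / Δ * n = 2 * (T * n) / Δ := by ring
          rw [this, div_pow, mul_pow 2 (T * n)]
          ring
      _ = C * (T * n) ^ k / Δ := by
          have e1 : Δ ^ k = Δ ^ (k - 1) * Δ := by rw [← pow_succ]; congr 1; omega
          have e2 : (8 : ℝ) ^ k = 4 ^ k * 2 ^ k := by rw [← mul_pow]; norm_num
          rw [e1, hC, e2]
          field_simp
      _ ≤ X / 2 ^ j := by
          rw [hX, div_div, hΔ]
          apply div_le_div_of_nonneg_left (by positivity) (by positivity)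
          rw [pow_succ]
          have : (0 : ℝ) < 2 ^ j * D := by positivity
          linarith
  -- the sum of the levels
  obtain ⟨E, hE0, hEm⟩ : ∃ E : ℝ, 0 ≤ E ∧ E ^ m = X := by
    refine ⟨X ^ (1 / (m : ℝ)), by positivity, ?_⟩
    rw [← Real.rpow_natCast, ← Real.rpow_mul hX0, one_div_mul_cancel hmR.ne', Real.rpow_one]
  have hsj : ∀ j, s j ≤ E * q ^ j := by
    intro j
    have h1 : s j ^ m ≤ (E * q ^ j) ^ m := by
      rw [mul_pow, hEm, ← pow_mul, mul_comm j m, pow_mul, hqm]
      have := hlev j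
      rw [one_div, inv_pow]
      rwa [div_eq_mul_inv] at this
    exact le_of_pow_le_pow_left₀ hm1 (by positivity) h1
  obtain ⟨J, hJ⟩ : ∃ J : ℕ, n ≤ 2 ^ (J + 1) * D := by
    obtain ⟨J, hJ⟩ := pow_unbounded_of_one_lt (n / D) (by norm_num : (1 : ℝ) < 2)
    refine ⟨J, ?_⟩
    rw [div_lt_iff₀ hD] at hJ
    have : (2 : ℝ) ^ J * D ≤ 2 ^ (J + 1) * D := by
      apply mul_le_mul_of_nonneg_right _ hD.le
      exact pow_le_pow_right₀ (by norm_num) (by omega)
    linarith
  have hTs : T ≤ ∑ j ∈ range (J + 1), s j := by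
    have hrow : ∀ (H : SimpleGraph V) [DecidableRel H.Adj] (x : V),
        ∑ y, (if H.Adj x y then (1 : ℝ) else 0) = (H.degree x : ℝ) := by
      intro H _ x
      simp [← H.card_neighborFinset_eq_degree, H.neighborFinset_eq_filter]
    have h1 : T = ∑ x, ∑ y, (if D < (G.degree x : ℝ) ∧ G.Adj x y then (1 : ℝ) else 0) := by
      rw [hT, sum_filter]
      apply sum_congr rfl
      intro x _
      by_cases h : D < (G.degree x : ℝ)
      · simp only [h, if_true, true_and]
        rw [hrow G x]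
      · simp [h]
    have h2 : ∑ j ∈ range (J + 1), s j = ∑ x, ∑ y, ∑ j ∈ range (J + 1),
        (if (F j).Adj x y then (1 : ℝ) else 0) := by
      have : ∀ j, s j = ∑ x, ∑ y, (if (F j).Adj x y then (1 : ℝ) else 0) := by
        intro j
        simp only [hs]
        exact sum_congr rfl (fun x _ => (hrow (F j) x).symm)
      rw [sum_congr rfl (fun j _ => this j), sum_comm]
      apply sum_congr rfl
      intro x _
      rw [sum_comm]
    rw [h1, h2]
    apply sum_le_sum; intro x _
    apply sum_le_sum; intro y _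
    by_cases h : D < (G.degree x : ℝ) ∧ G.Adj x y
    · rw [if_pos h]
      obtain ⟨hx, hxy⟩ := h
      set d : ℝ := max (G.degree x : ℝ) (G.degree y : ℝ) with hd
      have hdn : d ≤ n := by
        rw [hd, hn]
        apply max_le
        · exact_mod_cast (G.degree_lt_card_verts x).le
        · exact_mod_cast (G.degree_lt_card_verts y).le
      have hex : ∃ j : ℕ, d ≤ 2 ^ (j + 1) * D := ⟨J, hdn.trans hJ⟩
      set j := Nat.find hex with hj
      have hj1 : d ≤ 2 ^ (j + 1) * D := Nat.find_spec hex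
      have hj2 : 2 ^ j * D < d := by
        rcases Nat.eq_zero_or_pos j with h0 | h0
        · rw [h0, pow_zero, one_mul]
          exact lt_of_lt_of_le hx (le_max_left _ _)
        · have := Nat.find_min hex (m := j - 1) (by omega)
          rw [show j - 1 + 1 = j by omega] at this
          exact not_le.1 this
      have hjJ : j ∈ range (J + 1) := by
        rw [mem_range]
        have : j ≤ J := Nat.find_le (hdn.trans hJ)
        omega
      have hadj : (F j).Adj x y := by
        refine ⟨hxy, (le_max_left _ _).trans hj1, (le_max_right _ _).trans hj1, ?_⟩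
        rcases lt_max_iff.1 hj2 with h | h
        · exact Or.inl h
        · exact Or.inr h
      have h3 := single_le_sum (f := fun j => if (F j).Adj x y then (1 : ℝ) else 0)
        (fun i _ => by split_ifs <;> norm_num) hjJ
      simp only [if_pos hadj] at h3
      exact h3
    · rw [if_neg h]
      apply sum_nonneg
      intro i _
      split_ifs <;> norm_num
  have hTE : T * (1 - q) ≤ E := by
    have h1 : T ≤ E * ∑ j ∈ range (J + 1), q ^ j := by
      rw [mul_sum]
      exact hTs.trans (sum_le_sum (fun j _ => hsj j))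
    have h2 : (∑ j ∈ range (J + 1), q ^ j) * (1 - q) ≤ 1 := by
      have := geom_sum_mul_neg q (J + 1)
      rw [this]
      have : 0 ≤ q ^ (J + 1) := by positivity
      linarith
    calc T * (1 - q) ≤ (E * ∑ j ∈ range (J + 1), q ^ j) * (1 - q) :=
          mul_le_mul_of_nonneg_right h1 h1q.le
      _ = E * ((∑ j ∈ range (J + 1), q ^ j) * (1 - q)) := by ring
      _ ≤ E * 1 := mul_le_mul_of_nonneg_left h2 hE0
      _ = E := mul_one _
  have hfin : (T * (1 - q)) ^ m ≤ X := by
    rw [← hEm]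
    exact pow_le_pow_left₀ (by positivity) hTE _
  rcases hT0.eq_or_lt with h0 | hTpos
  · rw [← h0, zero_pow (by omega), zero_mul]
    positivity
  · rw [mul_pow, hX, le_div_iff₀ hD] at hfin
    have e1 : T ^ m = T ^ (k - 1) * T ^ k := by rw [← pow_add]; congr 1; omega
    have h3 : (T ^ (k - 1) * D * (1 - q) ^ m) * T ^ k ≤ (C * n ^ k) * T ^ k := by
      calc (T ^ (k - 1) * D * (1 - q) ^ m) * T ^ k = T ^ m * (1 - q) ^ m * D := by rw [e1]; ring
        _ ≤ C * (T * n) ^ k := hfin
        _ = _ := by rw [mul_pow]; ring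
    have h4 := le_of_mul_le_mul_right h3 (by positivity)
    rw [div_mul_eq_mul_div, le_div_iff₀ (by positivity)]
    exact h4

end Pool.Agent.Q115.GW
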