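import Pool.Agent.H35.XL.Q115_GX1

/-! Near-extremal graphs under a hereditary bound for the number of edges: degree tail and
decomposition into expanders of linear size. -/

set_option autoImplicit false

open Finset

namespace Pool.Agent.Q115.GX

variable {V : Type*} [Fintype V] [DecidableEq V]

/-- Degree tail under a hereditary bound. -/
theorem tail_gen (G : SimpleGraph V) [DecidableRel G.Adj] (α M K : ℝ) (hα : 0 < α) (hM : 0 < M)
    (hK : 0 < K)
    (her : ∀ X : Finset V, ∑ x ∈ X, ((X.filter (fun y => G.Adj x y)).card : ℝ) ≤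
      M * (X.card : ℝ) ^ (1 + α)) :
    ∑ x ∈ univ.filter (fun x => K * (Fintype.card V : ℝ) ^ α <
        ((univ.filter (fun y => G.Adj x y)).card : ℝ)),
        ((univ.filter (fun y => G.Adj x y)).card : ℝ) ≤
      (2 : ℝ) ^ (2 + α) * M ^ (1 + α) / K ^ α * (Fintype.card V : ℝ) ^ (1 + α) := by
  classical
  set n : ℕ := Fintype.card V with hn
  set H := univ.filter (fun x => K * (n : ℝ) ^ α <
        ((univ.filter (fun y => G.Adj x y)).card : ℝ)) with hH
  rcases H.eq_empty_or_nonempty with h0 | hne
  · rw [h0, sum_empty]; positivity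
  obtain ⟨h, hh⟩ : ∃ h, h = H.card := ⟨_, rfl⟩
  have hpos : 0 < h := by rw [hh]; exact hne.card_pos
  have hhn : h ≤ n := by rw [hh]; exact card_le_univ _
  have hnpos : 0 < n := hpos.trans_le hhn
  have hnR : (0 : ℝ) < n := by exact_mod_cast hnpos
  have hhR : (0 : ℝ) < h := by exact_mod_cast hpos
  -- size of `H`
  have hsize : (h : ℝ) ≤ M * n / K := by
    have h1 : (h : ℝ) * (K * (n : ℝ) ^ α) ≤ ∑ x ∈ H, ((univ.filter (fun y => G.Adj x y)).card : ℝ) := by
      rw [hh, ← nsmul_eq_mul, ← sum_const]
      apply sum_le_sum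
      intro x hx
      rw [hH, mem_filter] at hx
      exact hx.2.le
    have h2 : ∑ x ∈ H, ((univ.filter (fun y => G.Adj x y)).card : ℝ) ≤
        ∑ x, ((univ.filter (fun y => G.Adj x y)).card : ℝ) :=
      sum_le_sum_of_subset_of_nonneg (subset_univ _) (fun _ _ _ => Nat.cast_nonneg _)
    have h3 := her univ
    rw [card_univ, ← hn] at h3
    have h4 : (n : ℝ) ^ (1 + α) = n * (n : ℝ) ^ α := by
      rw [Real.rpow_add hnR, Real.rpow_one]
    rw [h4] at h3
    have h5 : (h : ℝ) * K * (n : ℝ) ^ α ≤ M * n * (n : ℝ) ^ α := by linarith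
    have h6 : (h : ℝ) * K ≤ M * n := le_of_mul_le_mul_right h5 (by positivity)
    rw [le_div_iff₀ hK]
    exact h6
  -- blocks
  let e : V ≃ Fin n := Fintype.equivFin V
  let b : V → ℕ := fun y => (e y).val / h
  have hb : ∀ y, b y ∈ range (n / h + 1) := by
    intro y
    rw [mem_range]
    exact Nat.lt_succ_of_le (Nat.div_le_div_right (e y).2.le)
  have hBcard : ∀ j, (univ.filter (fun y => b y = j)).card ≤ h := by
    intro j
    have : (univ.filter (fun y => b y = j)).card ≤ (range h).card := by
      apply card_le_card_of_injOn (fun y => (e y).val % h)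
      · intro y _
        simp only [coe_range, Set.mem_Iio]
        exact Nat.mod_lt _ hpos
      · intro y hy z hz hyz
        have hy' : (e y).val / h = j := by simpa [b] using hy
        have hz' : (e z).val / h = j := by simpa [b] using hz
        simp only at hyz
        apply e.injective
        apply Fin.ext
        rw [← Nat.div_add_mod (e y).val h, ← Nat.div_add_mod (e z).val h, hy', hz', hyz]
    simpa using this
  have hdeg : ∀ x, ((univ.filter (fun y => G.Adj x y)).card : ℝ) =
      ∑ j ∈ range (n / h + 1), (((univ.filter (fun y => b y = j)).filter (fun y => G.Adj x y)).card : ℝ) := by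
    intro x
    have := card_eq_sum_card_fiberwise (s := univ.filter (fun y => G.Adj x y)) (t := range (n / h + 1))
      (f := b) (fun y _ => hb y)
    rw [this]
    push_cast
    apply sum_congr rfl
    intro j _
    congr 2
    ext y
    simp [and_comm]
  rw [sum_congr rfl (fun x _ => hdeg x), sum_comm]
  have hblock : ∀ j ∈ range (n / h + 1),
      ∑ x ∈ H, (((univ.filter (fun y => b y = j)).filter (fun y => G.Adj x y)).card : ℝ) ≤
        M * (2 * (h : ℝ)) ^ (1 + α) := by
    intro j _
    set B := univ.filter (fun y => b y = j) with hB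
    calc ∑ x ∈ H, ((B.filter (fun y => G.Adj x y)).card : ℝ)
        ≤ ∑ x ∈ H ∪ B, (((H ∪ B).filter (fun y => G.Adj x y)).card : ℝ) := by
          refine (sum_le_sum (fun x _ => ?_)).trans
            (sum_le_sum_of_subset_of_nonneg subset_union_left (fun _ _ _ => Nat.cast_nonneg _))
          exact_mod_cast card_le_card (filter_subset_filter _ subset_union_right)
      _ ≤ M * ((H ∪ B).card : ℝ) ^ (1 + α) := her _
      _ ≤ M * (2 * (h : ℝ)) ^ (1 + α) := by
          apply mul_le_mul_of_nonneg_left _ hM.le
          apply Real.rpow_le_rpow (Nat.cast_nonneg _) _ (by linarith)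
          have := card_union_le H B
          have h2 := hBcard j
          rw [← hB] at h2
          have : (H ∪ B).card ≤ 2 * h := by omega
          exact_mod_cast this
  refine (sum_le_sum hblock).trans ?_
  rw [sum_const, card_range, nsmul_eq_mul]
  have hcount : ((n / h + 1 : ℕ) : ℝ) ≤ 2 * n / h := by
    push_cast
    have h1 : ((n / h : ℕ) : ℝ) ≤ (n : ℝ) / h := Nat.cast_div_le
    have h2 : (1 : ℝ) ≤ (n : ℝ) / h := by
      rw [le_div_iff₀ hhR, one_mul]; exact_mod_cast hhn
    have : 2 * (n : ℝ) / h = n / h + n / h := by ring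
    rw [this]; linarith
  calc ((n / h + 1 : ℕ) : ℝ) * (M * (2 * (h : ℝ)) ^ (1 + α))
      ≤ 2 * n / h * (M * (2 * (h : ℝ)) ^ (1 + α)) :=
        mul_le_mul_of_nonneg_right hcount (by positivity)
    _ = (2 : ℝ) ^ (2 + α) * M * n * (h : ℝ) ^ α := by
        have e1 : (2 * (h : ℝ)) ^ (1 + α) = (2 : ℝ) ^ (1 + α) * (h * (h : ℝ) ^ α) := by
          rw [Real.mul_rpow (by norm_num) hhR.le, Real.rpow_add hhR, Real.rpow_one]
        have e2 : (2 : ℝ) ^ (2 + α) = 2 * (2 : ℝ) ^ (1 + α) := by
          rw [show (2 : ℝ) + α = 1 + (1 + α) by ring, Real.rpow_add (by norm_num) 1 (1 + α),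
            Real.rpow_one]
        rw [e1, e2]
        field_simp
    _ ≤ (2 : ℝ) ^ (2 + α) * M * n * (M * n / K) ^ α := by
        apply mul_le_mul_of_nonneg_left _ (by positivity)
        exact Real.rpow_le_rpow hhR.le hsize hα.le
    _ = _ := by
        rw [Real.div_rpow (by positivity) hK.le, Real.mul_rpow hM.le hnR.le,
          Real.rpow_add hnR, Real.rpow_one, Real.rpow_add hM, Real.rpow_one]
        field_simp

/-- **Decomposition into expanders**, explicit form. -/
theorem decomp_aux (G : SimpleGraph V) [DecidableRel G.Adj] (α M K θ β : ℝ) (hα : 0 < α)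
    (hM : 0 < M) (hK : 0 < K) (hθ : 0 < θ) (hβ : 0 < β)
    (her : ∀ X : Finset V, ∑ x ∈ X, ((X.filter (fun y => G.Adj x y)).card : ℝ) ≤
      M * (X.card : ℝ) ^ (1 + α)) :
    ∃ Ps : Finset (Finset V), (∀ U ∈ Ps, ∀ W ∈ Ps, U ≠ W → Disjoint U W) ∧
      (∑ x, ((univ.filter (fun y => G.Adj x y)).card : ℝ)) ≤
        (∑ U ∈ Ps, ∑ x ∈ U, ((U.filter (fun y => G.Adj x y)).card : ℝ)) +
          (2 * ((2 : ℝ) ^ (2 + α) * M ^ (1 + α) / K ^ α) + 2 * β * Real.logb 2 (max (1 / θ) 1) +
            M * (2 * θ) ^ α) * (Fintype.card V : ℝ) ^ (1 + α) ∧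
      ∀ U ∈ Ps, 2 * θ * (Fintype.card V : ℝ) ≤ (U.card : ℝ) ∧ 2 ≤ U.card ∧
        (∀ x ∈ U, β * (Fintype.card V : ℝ) ^ α ≤ ((U.filter (fun y => G.Adj x y)).card : ℝ) ∧
          ((univ.filter (fun y => G.Adj x y)).card : ℝ) ≤ K * (Fintype.card V : ℝ) ^ α) ∧
        ∀ S ⊆ U, 2 * S.card ≤ U.card → β * (Fintype.card V : ℝ) ^ α * S.card ≤
          ∑ x ∈ S, (((U \ S).filter (fun y => G.Adj x y)).card : ℝ) := by
  classical
  rcases isEmpty_or_nonempty V with hemp | hV
  · refine ⟨∅, by simp, ?_, by simp⟩
    simp only [univ_eq_empty, sum_empty, Fintype.card_eq_zero, Nat.cast_zero]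
    rw [Real.zero_rpow (by positivity)]
    simp
  obtain ⟨n, hn⟩ : ∃ n : ℝ, n = (Fintype.card V : ℝ) := ⟨_, rfl⟩
  have hnpos : 0 < n := by rw [hn]; exact_mod_cast Fintype.card_pos
  rw [← hn]
  set d : V → ℝ := fun x => ((univ.filter (fun y => G.Adj x y)).card : ℝ) with hd
  set H := univ.filter (fun x => K * n ^ α < d x) with hH
  set adj : V → V → ℝ := fun x y => if G.Adj x y then 1 else 0 with hadj
  set a : V → V → ℝ := fun x y => if G.Adj x y ∧ x ∉ H ∧ y ∉ H then 1 else 0 with ha
  have hs : ∀ x y, a x y = a y x := by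
    intro x y
    simp only [ha, G.adj_comm x y]
    by_cases h1 : x ∈ H <;> by_cases h2 : y ∈ H <;> simp [h1, h2]
  have hadj0 : ∀ x y, 0 ≤ adj x y := by intro x y; simp only [hadj]; split_ifs <;> norm_num
  have ha0 : ∀ x y, 0 ≤ a x y := by intro x y; simp only [ha]; split_ifs <;> norm_num
  have haadj : ∀ x y, a x y ≤ adj x y := by
    intro x y; simp only [ha, hadj]
    by_cases h : G.Adj x y <;> simp [h]
    split_ifs <;> norm_num
  have hrow : ∀ (x : V) (T : Finset V), ((T.filter (fun y => G.Adj x y)).card : ℝ) = ∑ y ∈ T, adj x y := by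
    intro x T
    simp only [hadj]
    rw [sum_boole]
  set lam : ℝ := β * n ^ α with hlam
  have hlam0 : 0 < lam := by positivity
  set τ : ℝ := θ * n with hτ
  have hτ0 : 0 < τ := by positivity
  obtain ⟨χ, hχ1, hχ2⟩ := exists_partition a hs lam τ hlam0.le hτ0 hV
  set C : V → Finset V := fun v => univ.filter (fun y => χ y = v) with hC
  set good : Finset V := univ.filter (fun v => 2 * τ ≤ ((C v).card : ℝ) ∧ 2 ≤ (C v).card) with hgood
  have hCmem : ∀ x v, x ∈ C v ↔ χ x = v := by
    intro x v; simp [hC]
  have hCinj : ∀ v ∈ good, ∀ w ∈ good, C v = C w → v = w := by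
    intro v hv w _ hvw
    rw [hgood, mem_filter] at hv
    have : (C v).Nonempty := by
      rw [← card_pos]; omega
    obtain ⟨x, hx⟩ := this
    have h1 := (hCmem x v).1 hx
    rw [hvw] at hx
    have h2 := (hCmem x w).1 hx
    exact h1.symm.trans h2
  refine ⟨good.image C, ?_, ?_, ?_⟩
  · intro U hU W hW hUW
    rw [mem_image] at hU hW
    obtain ⟨v, _, rfl⟩ := hU
    obtain ⟨w, _, rfl⟩ := hW
    rw [Finset.disjoint_left]
    intro x hx hx'
    apply hUW
    rw [(hCmem x v).1 hx |>.symm, (hCmem x w).1 hx' |>.symm]
  · rw [sum_image hCinj]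
    simp only [hrow]
    -- pointwise bound
    have key : ∀ x y, adj x y ≤ (if χ x = χ y then (if χ x ∈ good then adj x y else 0) else 0) +
        (if x ∈ H then adj x y else 0) + (if y ∈ H then adj x y else 0) +
        (if χ x = χ y then 0 else a x y) +
        (if χ x = χ y then (if χ x ∈ good then 0 else adj x y) else 0) := by
      intro x y
      have z := hadj0 x y
      have z2 := ha0 x y
      by_cases h1 : χ x = χ y
      · by_cases h2 : χ x ∈ good
        · have q1 : 0 ≤ (if x ∈ H then adj x y else 0) := by split_ifs <;> simp [z]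
          have q2 : 0 ≤ (if y ∈ H then adj x y else 0) := by split_ifs <;> simp [z]
          simp only [h1, if_true]
          rw [h1] at h2
          simp only [h2, if_true]
          linarith
        · have q1 : 0 ≤ (if x ∈ H then adj x y else 0) := by split_ifs <;> simp [z]
          have q2 : 0 ≤ (if y ∈ H then adj x y else 0) := by split_ifs <;> simp [z]
          simp only [h1, if_true]
          rw [h1] at h2
          simp only [h2, if_false]
          linarith
      · simp only [h1, if_false]
        by_cases h3 : x ∈ H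
        · have q2 : 0 ≤ (if y ∈ H then adj x y else 0) := by split_ifs <;> simp [z]
          simp only [h3, if_true]
          linarith
        · by_cases h4 : y ∈ H
          · simp only [h3, h4, if_true, if_false]
            linarith
          · simp only [h3, h4, if_false]
            have : adj x y = a x y := by
              simp only [hadj, ha]
              by_cases h5 : G.Adj x y <;> simp [h5, h3, h4]
            linarith
    have hsum : ∑ x, ∑ y, adj x y ≤
        (∑ x, ∑ y, if χ x = χ y then (if χ x ∈ good then adj x y else 0) else 0) +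
        (∑ x, ∑ y, if x ∈ H then adj x y else 0) + (∑ x, ∑ y, if y ∈ H then adj x y else 0) +
        (∑ x, ∑ y, if χ x = χ y then 0 else a x y) +
        (∑ x, ∑ y, if χ x = χ y then (if χ x ∈ good then 0 else adj x y) else 0) := by
      rw [← sum_add_distrib, ← sum_add_distrib, ← sum_add_distrib, ← sum_add_distrib]
      apply sum_le_sum
      intro x _
      rw [← sum_add_distrib, ← sum_add_distrib, ← sum_add_distrib, ← sum_add_distrib]
      exact sum_le_sum (fun y _ => key x y)
    -- group by classes
    have hgroup : ∀ f : V → V → ℝ, (∑ x, ∑ y, if χ x = χ y then f x y else 0) =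
        ∑ v, ∑ x ∈ C v, ∑ y ∈ C v, f x y := by
      intro f
      rw [← Finset.sum_fiberwise univ χ]
      apply sum_congr rfl
      intro v _
      apply sum_congr rfl
      intro x hx
      have hxv : χ x = v := by simpa using hx
      rw [← sum_filter]
      apply sum_congr _ (fun _ _ => rfl)
      ext y
      simp only [mem_filter, mem_univ, true_and, hC, hxv]
      exact eq_comm
    have t1 : (∑ x, ∑ y, if χ x = χ y then (if χ x ∈ good then adj x y else 0) else 0) =
        ∑ v ∈ good, ∑ x ∈ C v, ∑ y ∈ C v, adj x y := by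
      rw [hgroup (fun x y => if χ x ∈ good then adj x y else 0),
        ← sum_filter_add_sum_filter_not univ (fun v => v ∈ good)]
      have z : ∑ v ∈ univ.filter (fun v => ¬ v ∈ good), ∑ x ∈ C v, ∑ y ∈ C v,
          (if χ x ∈ good then adj x y else 0) = 0 := by
        apply sum_eq_zero
        intro v hv
        rw [mem_filter] at hv
        apply sum_eq_zero
        intro x hx
        rw [(hCmem x v).1 hx]
        simp [hv.2]
      rw [z, add_zero]
      have f : univ.filter (fun v => v ∈ good) = good := by ext; simp
      rw [f]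
      apply sum_congr rfl
      intro v hv
      apply sum_congr rfl
      intro x hx
      rw [(hCmem x v).1 hx]
      simp [hv]
    have htail := tail_gen G α M K hα hM hK her
    rw [← hn] at htail
    have t2 : (∑ x, ∑ y, if x ∈ H then adj x y else 0) ≤
        (2 : ℝ) ^ (2 + α) * M ^ (1 + α) / K ^ α * n ^ (1 + α) := by
      have : (∑ x, ∑ y, if x ∈ H then adj x y else 0) = ∑ x ∈ H, d x := by
        rw [← sum_filter_add_sum_filter_not univ (fun x => x ∈ H)]
        have z : ∑ x ∈ univ.filter (fun x => ¬ x ∈ H), ∑ y, (if x ∈ H then adj x y else 0) = 0 := by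
          apply sum_eq_zero
          intro x hx
          rw [mem_filter] at hx
          simp [hx.2]
        rw [z, add_zero]
        have f : univ.filter (fun x => x ∈ H) = H := by ext; simp
        rw [f]
        apply sum_congr rfl
        intro x hx
        simp only [hx, if_true, hd, hrow]
      rw [this]
      exact htail
    have t3 : (∑ x, ∑ y, if y ∈ H then adj x y else 0) ≤
        (2 : ℝ) ^ (2 + α) * M ^ (1 + α) / K ^ α * n ^ (1 + α) := by
      rw [sum_comm]
      refine le_trans (le_of_eq ?_) t2
      apply sum_congr rfl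
      intro x _
      apply sum_congr rfl
      intro y _
      simp only [hadj, G.adj_comm x y]
    have t4 : (∑ x, ∑ y, if χ x = χ y then 0 else a x y) ≤
        2 * β * Real.logb 2 (max (1 / θ) 1) * n ^ (1 + α) := by
      refine hχ1.trans (le_of_eq ?_)
      rw [← hn]
      unfold ell
      have : n / τ = 1 / θ := by rw [hτ]; field_simp
      rw [this, hlam, Real.rpow_add hnpos, Real.rpow_one]
      ring
    have t5 : (∑ x, ∑ y, if χ x = χ y then (if χ x ∈ good then 0 else adj x y) else 0) ≤
        M * (2 * θ) ^ α * n ^ (1 + α) := by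
      rw [hgroup (fun x y => if χ x ∈ good then 0 else adj x y)]
      have hMn0 : 0 ≤ M * (2 * θ * n) ^ α := by positivity
      have each : ∀ v, ∑ x ∈ C v, ∑ y ∈ C v, (if χ x ∈ good then 0 else adj x y) ≤
          M * (2 * θ * n) ^ α * ((C v).card : ℝ) := by
        intro v
        by_cases hv : v ∈ good
        · have : ∑ x ∈ C v, ∑ y ∈ C v, (if χ x ∈ good then 0 else adj x y) = 0 := by
            apply sum_eq_zero
            intro x hx
            rw [(hCmem x v).1 hx]
            simp [hv]
          rw [this]
          exact mul_nonneg hMn0 (Nat.cast_nonneg _)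
        · have e1 : ∑ x ∈ C v, ∑ y ∈ C v, (if χ x ∈ good then 0 else adj x y) =
              ∑ x ∈ C v, ∑ y ∈ C v, adj x y := by
            apply sum_congr rfl
            intro x hx
            rw [(hCmem x v).1 hx]
            simp [hv]
          rw [e1]
          by_cases h1 : (C v).card ≤ 1
          · have : ∑ x ∈ C v, ∑ y ∈ C v, adj x y = 0 := by
              apply sum_eq_zero
              intro x hx
              apply sum_eq_zero
              intro y hy
              have := Finset.card_le_one.1 h1 x hx y hy
              subst this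
              simp [hadj]
            rw [this]
            exact mul_nonneg hMn0 (Nat.cast_nonneg _)
          · have h2 : ((C v).card : ℝ) < 2 * τ := by
              by_contra hcon
              push Not at hcon
              apply hv
              rw [hgood, mem_filter]
              exact ⟨mem_univ _, hcon, by omega⟩
            have h3 := her (C v)
            simp only [hrow] at h3
            have hcpos : (0 : ℝ) < (C v).card := by
              have : 0 < (C v).card := by omega
              exact_mod_cast this
            calc ∑ x ∈ C v, ∑ y ∈ C v, adj x y ≤ M * ((C v).card : ℝ) ^ (1 + α) := h3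
              _ = M * ((C v).card : ℝ) ^ α * ((C v).card : ℝ) := by
                  rw [Real.rpow_add hcpos, Real.rpow_one]; ring
              _ ≤ M * (2 * θ * n) ^ α * ((C v).card : ℝ) := by
                  apply mul_le_mul_of_nonneg_right _ hcpos.le
                  apply mul_le_mul_of_nonneg_left _ hM.le
                  apply Real.rpow_le_rpow hcpos.le _ hα.le
                  have : 2 * τ = 2 * θ * n := by rw [hτ]; ring
                  linarith
      refine (sum_le_sum (fun v _ => each v)).trans ?_
      rw [← mul_sum]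
      have : ∑ v, ((C v).card : ℝ) = n := by
        rw [hn, ← card_univ (α := V)]
        rw [card_eq_sum_card_fiberwise (s := univ) (t := univ) (f := χ) (fun _ _ => mem_univ _)]
        push_cast
        rfl
      rw [this, Real.mul_rpow (by positivity) hnpos.le, Real.rpow_add hnpos, Real.rpow_one]
      apply le_of_eq
      ring
    rw [t1] at hsum
    have hd' : univ.sum d = ∑ x, ∑ y, adj x y := by
      apply sum_congr rfl
      intro x _
      simp only [hd, hrow]
    rw [hd']
    have hcomb : (2 * ((2 : ℝ) ^ (2 + α) * M ^ (1 + α) / K ^ α) +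
        2 * β * Real.logb 2 (max (1 / θ) 1) + M * (2 * θ) ^ α) * n ^ (1 + α) =
        (2 : ℝ) ^ (2 + α) * M ^ (1 + α) / K ^ α * n ^ (1 + α) +
        (2 : ℝ) ^ (2 + α) * M ^ (1 + α) / K ^ α * n ^ (1 + α) +
        2 * β * Real.logb 2 (max (1 / θ) 1) * n ^ (1 + α) + M * (2 * θ) ^ α * n ^ (1 + α) := by
      ring
    rw [hcomb]
    linarith
  · intro U hU
    rw [mem_image] at hU
    obtain ⟨v, hv, rfl⟩ := hU
    have hv' := hv
    rw [hgood, mem_filter] at hv'
    have hexp := hχ2 v hv'.2.1
    have hC' : ∀ w, (univ.filter (fun y => χ y = w)) = C w := fun w => rfl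
    rw [hC'] at hexp
    refine ⟨?_, hv'.2.2, ?_, ?_⟩
    · have : 2 * τ = 2 * θ * n := by rw [hτ]; ring
      linarith [hv'.2.1]
    · intro x hx
      have h1 := hexp {x} (by simpa using hx) (by rw [card_singleton]; omega)
      rw [card_singleton, sum_singleton, Nat.cast_one, mul_one] at h1
      constructor
      · rw [hrow]
        calc lam ≤ ∑ y ∈ C v \ {x}, a x y := h1
          _ ≤ ∑ y ∈ C v \ {x}, adj x y := sum_le_sum (fun y _ => haadj x y)
          _ ≤ ∑ y ∈ C v, adj x y :=
              sum_le_sum_of_subset_of_nonneg sdiff_subset (fun y _ _ => hadj0 x y)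
      · have hxH : x ∉ H := by
          intro hxH
          have : ∑ y ∈ C v \ {x}, a x y = 0 := by
            apply sum_eq_zero
            intro y _
            simp [ha, hxH]
          linarith
        by_contra hcon
        push Not at hcon
        apply hxH
        rw [hH, mem_filter]
        exact ⟨mem_univ _, hcon⟩
    · intro S hS hhalf
      refine (hexp S hS hhalf).trans ?_
      apply sum_le_sum
      intro x _
      rw [hrow]
      exact sum_le_sum (fun y _ => haadj x y)

end Pool.Agent.Q115.GX
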