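import Pool.Agent.H35.XL.Q115_SR1

/-! The regularity lemma with relative errors. -/

set_option autoImplicit false

open Finset

namespace Pool.Agent.Q115.SR

open Pool.Agent.Q115.GY

/-- the pair of classes of `p` is large, dense and regular -/
def Good {V : Type*} [Fintype V] [DecidableEq V] (F : Finset (Finset V)) (f : V × V → ℝ)
    (ε δ : ℝ) (p : V × V) : Prop :=
  δ * (Fintype.card V : ℝ) ≤ ((cell F p.1).card : ℝ) ∧
  δ * (Fintype.card V : ℝ) ≤ ((cell F p.2).card : ℝ) ∧
  δ * ((cell F p.1).card * (cell F p.2).card) ≤ ∑ r ∈ cell F p.1 ×ˢ cell F p.2, f r ∧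
  RegPair f ε (cell F p.1) (cell F p.2)

open Classical in
theorem abstract_regularity (C ε : ℝ) (hC : 0 ≤ C) (hε : 0 < ε) (m0 : ℕ) :
    ∃ (M : ℕ) (δ : ℝ), 0 < δ ∧ ∀ (V : Type) [Fintype V] [DecidableEq V] (f : V × V → ℝ),
      (∀ p, 0 ≤ f p) → 0 < Fintype.card V →
      (∀ F : Finset (Finset V), F.card ≤ M → q F f ≤ C * (Fintype.card V : ℝ) ^ 2) →
      ∀ F0 : Finset (Finset V), F0.card ≤ m0 → ∃ F, F0 ⊆ F ∧ F.card ≤ M ∧
        ∑ p ∈ univ.filter (fun p => ¬ Good F f ε δ p), f p ≤ ε * (Fintype.card V : ℝ) ^ 2 := by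
  set κ : ℝ := ε ^ 2 / (64 * (C + 1)) with hκ
  have hκpos : 0 < κ := by positivity
  set τ : ℝ := ε / 4 with hτ
  have hτpos : 0 < τ := by positivity
  set η : ℝ := ε / 2 with hη
  have hηpos : 0 < η := by positivity
  set δq : ℝ := ε ^ 4 / 64 with hδq
  have hδqpos : 0 < δq := by positivity
  set δ1 : ℕ → ℝ := fun m => κ / 2 ^ m with hδ1
  have hδ1pos : ∀ m, 0 < δ1 m := fun m => by simp only [hδ1]; positivity
  set γ : ℕ → ℝ := fun m => η * τ * (δ1 m) ^ 2 with hγ
  have hγpos : ∀ m, 0 < γ m := fun m => by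
    have := hδ1pos m
    simp only [hγ]; positivity
  set J : ℕ := ⌊C / δq⌋₊ + 1 with hJ
  have hJ' : C < J * δq := by
    have h := Nat.lt_floor_add_one (C / δq)
    rw [div_lt_iff₀ hδqpos] at h
    rw [hJ]
    push_cast
    exact h
  set M : ℕ := mm C γ m0 J with hM
  refine ⟨M, min τ (κ / 2 ^ M), by positivity, ?_⟩
  intro V _ _ f hf hV hq F0 hF0
  obtain ⟨n, hn⟩ : ∃ n : ℝ, n = (Fintype.card V : ℝ) := ⟨_, rfl⟩
  have hnpos : 0 < n := by rw [hn]; exact_mod_cast hV
  obtain ⟨j, hj, F, F', hF0F, hFF', hFc, hF'c, hweak, hqd⟩ :=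
    strong_lemma f C δq γ hγpos m0 J hJ' hV hq F0 hF0
  set m : ℕ := mm C γ m0 j with hm
  have hmM : m ≤ M := mm_mono C γ m0 hj.le
  refine ⟨F, hF0F, hFc.trans hmM, ?_⟩
  unfold Weak at hweak
  rw [← hn] at hweak hqd hq ⊢
  -- the local variance
  set D : V × V → ℝ := avg (col2 F) (fun p => (E F' f p - E F f p) ^ 2) with hD
  have hD0 : ∀ p, 0 ≤ D p := by
    intro p
    simp only [hD]
    unfold avg
    exact div_nonneg (sum_nonneg (fun _ _ => sq_nonneg _)) (Nat.cast_nonneg _)
  have hDsum : ∑ p, D p = q F' f - q F f := by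
    rw [hD, sum_avg, q_ref hFF']
    ring
  have hE0 : ∀ p, 0 ≤ E F f p := E_nonneg F f hf
  set P : V × V → Prop := fun p => δ1 m * n ≤ ((cell F p.1).card : ℝ) ∧
    δ1 m * n ≤ ((cell F p.2).card : ℝ) ∧ τ ≤ E F f p ∧ D p ≤ η ^ 2 * E F f p ^ 2 with hP
  have hcellpos : ∀ x, (0 : ℝ) < (cell F x).card := fun x => by exact_mod_cast cell_card_pos F x
  -- `P` implies `Good`
  have hPG : ∀ p, P p → Good F f ε (min τ (κ / 2 ^ M)) p := by
    intro p hp
    obtain ⟨h1, h2, h3, h4⟩ := hp
    obtain ⟨a, ha⟩ : ∃ a : ℝ, a = ((cell F p.1).card : ℝ) := ⟨_, rfl⟩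
    obtain ⟨b, hb⟩ : ∃ b : ℝ, b = ((cell F p.2).card : ℝ) := ⟨_, rfl⟩
    have ha0 : 0 < a := by rw [ha]; exact hcellpos _
    have hb0 : 0 < b := by rw [hb]; exact hcellpos _
    rw [← ha] at h1
    rw [← hb] at h2
    have hδle : min τ (κ / 2 ^ M) ≤ δ1 m := by
      refine (min_le_right _ _).trans ?_
      simp only [hδ1]
      apply div_le_div_of_nonneg_left hκpos.le (by positivity)
      exact pow_le_pow_right₀ (by norm_num) hmM
    have hEeq : E F f p = (∑ r ∈ cell F p.1 ×ˢ cell F p.2, f r) / (a * b) := by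
      rw [ha, hb]; exact E_eq F f p
    have heab : ∑ r ∈ cell F p.1 ×ˢ cell F p.2, f r = E F f p * (a * b) := by
      rw [hEeq]; field_simp
    refine ⟨?_, ?_, ?_, ?_⟩
    · rw [← hn, ← ha]
      exact (mul_le_mul_of_nonneg_right hδle hnpos.le).trans h1
    · rw [← hn, ← hb]
      exact (mul_le_mul_of_nonneg_right hδle hnpos.le).trans h2
    · rw [heab, ← ha, ← hb]
      apply mul_le_mul_of_nonneg_right _ (by positivity)
      exact (min_le_left _ _).trans h3
    · intro X hX Y hY
      rw [← ha, ← hb]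
      have hconst : ∀ r ∈ cell F p.1 ×ˢ cell F p.2, E F f r = E F f p := by
        intro r hr
        rw [mem_product, mem_cell, mem_cell] at hr
        unfold E
        apply avg_const
        simp only [col2, hr.1, hr.2]
      have hXY : X ×ˢ Y ⊆ cell F p.1 ×ˢ cell F p.2 := product_subset_product hX hY
      have hXa : (X.card : ℝ) ≤ a := by rw [ha]; exact_mod_cast card_le_card hX
      have hYb : (Y.card : ℝ) ≤ b := by rw [hb]; exact_mod_cast card_le_card hY
      have hX0 : (0 : ℝ) ≤ X.card := Nat.cast_nonneg _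
      have hY0 : (0 : ℝ) ≤ Y.card := Nat.cast_nonneg _
      have hsplit : ∑ r ∈ X ×ˢ Y, f r - (∑ r ∈ cell F p.1 ×ˢ cell F p.2, f r) * X.card * Y.card /
          (a * b) = ∑ r ∈ X ×ˢ Y, (f r - E F' f r) + ∑ r ∈ X ×ˢ Y, (E F' f r - E F f r) := by
        have e1 : (∑ r ∈ cell F p.1 ×ˢ cell F p.2, f r) * X.card * Y.card / (a * b) =
            ∑ r ∈ X ×ˢ Y, E F f r := by
          rw [sum_congr rfl (fun r hr => hconst r (hXY hr)), sum_const, card_product,
            nsmul_eq_mul, heab, Nat.cast_mul]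
          have hab : a * b ≠ 0 := (mul_pos ha0 hb0).ne'
          rw [div_eq_iff hab]
          ring
        rw [e1, ← sum_add_distrib, ← sum_sub_distrib]
        apply sum_congr rfl
        intro r _
        ring
      rw [hsplit]
      have hw := hweak X Y
      have hw2 : γ m * n ^ 2 ≤ η * (E F f p * (a * b)) := by
        simp only [hγ]
        have h5 : (δ1 m * n) * (δ1 m * n) ≤ a * b :=
          mul_le_mul h1 h2 (mul_nonneg (hδ1pos m).le hnpos.le) ha0.le
        have h6 : τ * ((δ1 m * n) * (δ1 m * n)) ≤ E F f p * (a * b) :=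
          mul_le_mul h3 h5 (by positivity) (hE0 p)
        calc η * τ * δ1 m ^ 2 * n ^ 2 = η * (τ * ((δ1 m * n) * (δ1 m * n))) := by ring
          _ ≤ _ := mul_le_mul_of_nonneg_left h6 hηpos.le
      have hvar : ∑ r ∈ cell F p.1 ×ˢ cell F p.2, (E F' f r - E F f r) ^ 2 = D p * (a * b) := by
        have : D p = (∑ r ∈ cell F p.1 ×ˢ cell F p.2, (E F' f r - E F f r) ^ 2) / (a * b) := by
          rw [ha, hb]
          exact E_eq F (fun r => (E F' f r - E F f r) ^ 2) p
        rw [this]; field_simp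
      have h7 : |∑ r ∈ X ×ˢ Y, (E F' f r - E F f r)| ≤ η * (E F f p * (a * b)) := by
        have h8 := cs X Y (fun r => E F' f r - E F f r)
        have h9 : ∑ r ∈ X ×ˢ Y, (E F' f r - E F f r) ^ 2 ≤ D p * (a * b) := by
          rw [← hvar]
          exact sum_le_sum_of_subset_of_nonneg hXY (fun _ _ _ => sq_nonneg _)
        have h10 : (∑ r ∈ X ×ˢ Y, (E F' f r - E F f r)) ^ 2 ≤ (η * (E F f p * (a * b))) ^ 2 := by
          calc (∑ r ∈ X ×ˢ Y, (E F' f r - E F f r)) ^ 2
              ≤ (X.card : ℝ) * Y.card * ∑ r ∈ X ×ˢ Y, (E F' f r - E F f r) ^ 2 := h8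
            _ ≤ (a * b) * (D p * (a * b)) := by
                apply mul_le_mul _ h9 (sum_nonneg (fun _ _ => sq_nonneg _)) (by positivity)
                exact mul_le_mul hXa hYb hY0 ha0.le
            _ ≤ (a * b) * ((η ^ 2 * E F f p ^ 2) * (a * b)) := by
                apply mul_le_mul_of_nonneg_left _ (by positivity)
                exact mul_le_mul_of_nonneg_right h4 (by positivity)
            _ = _ := by ring
        have h11 : 0 ≤ η * (E F f p * (a * b)) := by
          have := hE0 p
          positivity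
        exact abs_le_of_sq_le_sq h10 h11
      calc |∑ r ∈ X ×ˢ Y, (f r - E F' f r) + ∑ r ∈ X ×ˢ Y, (E F' f r - E F f r)|
          ≤ |∑ r ∈ X ×ˢ Y, (f r - E F' f r)| + |∑ r ∈ X ×ˢ Y, (E F' f r - E F f r)| :=
            abs_add_le _ _
        _ ≤ η * (E F f p * (a * b)) + η * (E F f p * (a * b)) := add_le_add (hw.trans hw2) h7
        _ = ε * ∑ r ∈ cell F p.1 ×ˢ cell F p.2, f r := by
            rw [heab, hη]; ring
  -- the mass
  have hbound : ∑ p ∈ univ.filter (fun p => ¬ P p), f p ≤ ε * n ^ 2 := by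
    have hPc : ∀ p r, col2 F p = col2 F r → (P p ↔ P r) := by
      intro p r hpr
      have h1 : E F f p = E F f r := avg_const _ _ hpr
      have h2 : D p = D r := avg_const _ _ hpr
      simp only [col2, Prod.mk.injEq] at hpr
      simp only [hP, cell_eq F hpr.1, cell_eq F hpr.2, h1, h2]
    have h0 := orth (col2 F) f (fun p => if ¬ P p then 1 else 0) (by
      intro p r hpr
      simp only [hPc p r hpr])
    have h1 : ∑ p ∈ univ.filter (fun p => ¬ P p), f p =
        ∑ p ∈ univ.filter (fun p => ¬ P p), E F f p := by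
      simp only [mul_ite, mul_one, mul_zero] at h0
      rw [← sum_filter, sum_sub_distrib] at h0
      have : ∀ p, E F f p = avg (col2 F) f p := fun p => rfl
      simp only [this]
      linarith
    rw [h1, sum_filter]
    have hpt : ∀ p, (if ¬ P p then E F f p else 0) ≤
        (if ((cell F p.1).card : ℝ) < δ1 m * n then E F f p else 0) +
        (if ((cell F p.2).card : ℝ) < δ1 m * n then E F f p else 0) + τ +
        1 / (τ * η ^ 2) * D p := by
      intro p
      have e0 := hE0 p
      have d0 := hD0 p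
      have z1 : 0 ≤ (if ((cell F p.1).card : ℝ) < δ1 m * n then E F f p else 0) := by
        split_ifs <;> simp [e0]
      have z2 : 0 ≤ (if ((cell F p.2).card : ℝ) < δ1 m * n then E F f p else 0) := by
        split_ifs <;> simp [e0]
      have z3 : 0 ≤ 1 / (τ * η ^ 2) * D p := by positivity
      by_cases hp : P p
      · rw [if_neg (not_not.2 hp)]
        linarith
      · rw [if_pos hp]
        by_cases c1 : ((cell F p.1).card : ℝ) < δ1 m * n
        · rw [if_pos c1]; linarith
        · by_cases c2 : ((cell F p.2).card : ℝ) < δ1 m * n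
          · rw [if_pos c2]; linarith
          · by_cases c3 : E F f p < τ
            · linarith
            · have c4 : η ^ 2 * E F f p ^ 2 < D p := by
                by_contra hcon
                exact hp ⟨not_lt.1 c1, not_lt.1 c2, not_lt.1 c3, not_lt.1 hcon⟩
              push Not at c3
              have c5 : E F f p ≤ 1 / (τ * η ^ 2) * D p := by
                rw [one_div, inv_mul_eq_div, le_div_iff₀ (by positivity)]
                calc E F f p * (τ * η ^ 2) = η ^ 2 * (E F f p * τ) := by ring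
                  _ ≤ η ^ 2 * (E F f p * E F f p) :=
                      mul_le_mul_of_nonneg_left (mul_le_mul_of_nonneg_left c3 e0) (by positivity)
                  _ = η ^ 2 * E F f p ^ 2 := by ring
                  _ ≤ D p := c4.le
              linarith
    refine (sum_le_sum (fun p _ => hpt p)).trans ?_
    rw [sum_add_distrib, sum_add_distrib, sum_add_distrib, ← mul_sum, hDsum, sum_const, card_univ,
      nsmul_eq_mul, Fintype.card_prod, ← sum_filter, ← sum_filter]
    push_cast
    rw [← hn]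
    -- small classes
    set I := univ.filter (fun x => ((cell F x).card : ℝ) < δ1 m * n) with hI
    have hIc : (I.card : ℝ) ≤ κ * n := by
      have h2 := small_cells F (δ1 m * n) (mul_nonneg (hδ1pos m).le hnpos.le)
      refine h2.trans ?_
      have h3 : (2 : ℝ) ^ F.card ≤ 2 ^ m := pow_le_pow_right₀ (by norm_num) hFc
      calc (2 : ℝ) ^ F.card * (δ1 m * n) ≤ 2 ^ m * (δ1 m * n) :=
            mul_le_mul_of_nonneg_right h3 (mul_nonneg (hδ1pos m).le hnpos.le)
        _ = κ * n := by
            simp only [hδ1]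
            field_simp
    have hqF : q F f ≤ C * n ^ 2 := hq F (hFc.trans hmM)
    have hcsI : ∀ S T : Finset V, (S.card : ℝ) * T.card ≤ κ * n * n →
        ∑ p ∈ S ×ˢ T, E F f p ≤ ε / 8 * n ^ 2 := by
      intro S T hST
      have h2 := cs S T (E F f)
      have h3 : ∑ p ∈ S ×ˢ T, E F f p ^ 2 ≤ C * n ^ 2 := by
        refine le_trans ?_ hqF
        exact sum_le_sum_of_subset_of_nonneg (subset_univ _) (fun _ _ _ => sq_nonneg _)
      have h4 : (∑ p ∈ S ×ˢ T, E F f p) ^ 2 ≤ (ε / 8 * n ^ 2) ^ 2 := by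
        refine h2.trans ?_
        calc (S.card : ℝ) * T.card * ∑ p ∈ S ×ˢ T, E F f p ^ 2
            ≤ (κ * n * n) * (C * n ^ 2) :=
              mul_le_mul hST h3 (sum_nonneg (fun _ _ => sq_nonneg _)) (by positivity)
          _ ≤ (κ * n * n) * ((C + 1) * n ^ 2) := by
              apply mul_le_mul_of_nonneg_left _ (by positivity)
              apply mul_le_mul_of_nonneg_right _ (by positivity)
              linarith
          _ = (ε / 8 * n ^ 2) ^ 2 := by
              rw [hκ]
              field_simp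
              norm_num
      exact le_of_abs_le (abs_le_of_sq_le_sq h4 (by positivity))
    have s1 : ∑ p ∈ univ.filter (fun p : V × V => ((cell F p.1).card : ℝ) < δ1 m * n), E F f p ≤
        ε / 8 * n ^ 2 := by
      have : univ.filter (fun p : V × V => ((cell F p.1).card : ℝ) < δ1 m * n) = I ×ˢ univ := by
        ext p; simp [hI]
      rw [this]
      apply hcsI
      rw [card_univ, ← hn]
      exact mul_le_mul_of_nonneg_right hIc hnpos.le
    have s2 : ∑ p ∈ univ.filter (fun p : V × V => ((cell F p.2).card : ℝ) < δ1 m * n), E F f p ≤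
        ε / 8 * n ^ 2 := by
      have : univ.filter (fun p : V × V => ((cell F p.2).card : ℝ) < δ1 m * n) = univ ×ˢ I := by
        ext p; simp [hI]
      rw [this]
      apply hcsI
      rw [card_univ, ← hn, mul_comm]
      exact mul_le_mul_of_nonneg_right hIc hnpos.le
    have s3 : 1 / (τ * η ^ 2) * (q F' f - q F f) ≤ ε / 4 * n ^ 2 := by
      have h2 : q F' f - q F f ≤ δq * n ^ 2 := by linarith
      calc 1 / (τ * η ^ 2) * (q F' f - q F f) ≤ 1 / (τ * η ^ 2) * (δq * n ^ 2) :=
            mul_le_mul_of_nonneg_left h2 (by positivity)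
        _ = ε / 4 * n ^ 2 := by
            rw [hτ, hη, hδq]
            field_simp
            norm_num
    have s4 : n * n * τ = ε / 4 * n ^ 2 := by rw [hτ]; ring
    have hn2 : 0 ≤ ε * n ^ 2 := by positivity
    linarith
  refine le_trans (sum_le_sum_of_subset_of_nonneg ?_ (fun p _ _ => hf p)) hbound
  intro p hp
  rw [mem_filter] at hp ⊢
  exact ⟨mem_univ _, fun h => hp.2 (hPG p h)⟩

end Pool.Agent.Q115.SR
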