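import Pool.Agent.H35.XL.TH815_GR10

/-!
# The girth conjecture in regular form
-/

set_option autoImplicit false

open Finset

namespace Pool.TH815.GR

open Pool.Agent.H268R2.LB

/-- The bipartite graph of a relation with a nonbacktracking projection. -/
theorem bip_graph {V : Type} (G : SimpleGraph V) {k : ℕ}
    (hg : ∀ (v : V) (p : G.Walk v v), p.IsCycle → 2 * k < p.length) (m d : ℕ)
    (I : Fin m → Fin m → Prop) (π : Fin m → V) (h1 : ∀ a b, I a b → G.Adj (π a) (π b))
    (h2 : ∀ a b b', I a b → I a b' → b ≠ b' → π b ≠ π b')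
    (h3 : ∀ a a' b, I a b → I a' b → a ≠ a' → π a ≠ π a')
    (hr : ∀ a, {b | I a b}.ncard = d) (hc : ∀ b, {a | I a b}.ncard = d) :
    ∃ B : SimpleGraph (Fin m ⊕ Fin m), ((2 * k : ℕ) : ℕ∞) < B.egirth ∧
      (∀ x y, ¬ B.Adj (Sum.inl x) (Sum.inl y)) ∧ (∀ x y, ¬ B.Adj (Sum.inr x) (Sum.inr y)) ∧
      ∀ z, (B.neighborSet z).ncard = d := by
  classical
  set B : SimpleGraph (Fin m ⊕ Fin m) := SimpleGraph.fromRel (fun x y : Fin m ⊕ Fin m =>
      ∃ a b, x = Sum.inl a ∧ y = Sum.inr b ∧ I a b) with hB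
  have hlr : ∀ a b, B.Adj (Sum.inl a) (Sum.inr b) ↔ I a b := by
    intro a b
    rw [hB, SimpleGraph.fromRel_adj]
    constructor
    · rintro ⟨-, ⟨a', b', h1, h2, h3⟩ | ⟨a', b', h1, h2, h3⟩⟩
      · rw [Sum.inl.inj h1, Sum.inr.inj h2]; exact h3
      · cases h1
    · intro h
      exact ⟨by simp, Or.inl ⟨a, b, rfl, rfl, h⟩⟩
  have hll : ∀ a b, ¬ B.Adj (Sum.inl a) (Sum.inl b) := by
    intro a b
    rw [hB, SimpleGraph.fromRel_adj]
    rintro ⟨-, ⟨a', b', h1, h2, h3⟩ | ⟨a', b', h1, h2, h3⟩⟩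
    · cases h2
    · cases h2
  have hrr : ∀ a b, ¬ B.Adj (Sum.inr a) (Sum.inr b) := by
    intro a b
    rw [hB, SimpleGraph.fromRel_adj]
    rintro ⟨-, ⟨a', b', h1, h2, h3⟩ | ⟨a', b', h1, h2, h3⟩⟩
    · cases h1
    · cases h1
  refine ⟨B, ?_, hll, hrr, ?_⟩
  · rw [← ENat.add_one_le_iff (ENat.natCast_ne_top _)]
    have := GU4.girth_of_closed_walks (A := Fin m) (B := Fin m) I
      (2 * k + 1) (by
        intro g a b hg1 w1 w2 w3 w4 w5
        by_contra hlt
        set x : ℕ → V := fun j => if Even j then π (a (j / 2)) else π (b (j / 2)) with hx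
        have hxe : ∀ i, x (2 * i) = π (a i) := by
          intro i
          simp only [hx]
          rw [if_pos (even_two_mul i)]
          congr 2
          omega
        have hxo : ∀ i, x (2 * i + 1) = π (b i) := by
          intro i
          simp only [hx]
          have : ¬ Even (2 * i + 1) := by
            rw [Nat.even_add_one]; exact not_not.2 (even_two_mul i)
          rw [if_neg this]
          congr 2
          omega
        have hw := NW.of_fun (G := G) (n := 2 * g) (x := x) (by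
          intro j hj
          rcases Nat.even_or_odd' j with ⟨i, rfl | rfl⟩
          · rw [hxe, hxo]
            exact h1 _ _ (w1 i (by omega))
          · rw [hxo, show 2 * i + 1 + 1 = 2 * (i + 1) by ring, hxe]
            exact (h1 _ _ (w2 i (by omega))).symm) (by
          intro j hj
          rcases Nat.even_or_odd' j with ⟨i, rfl | rfl⟩
          · rw [hxe, show 2 * i + 2 = 2 * (i + 1) by ring, hxe]
            exact h3 _ _ _ (w1 i (by omega)) (w2 i (by omega)) (w3 i (by omega))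
          · rw [hxo, show 2 * i + 1 + 2 = 2 * (i + 1) + 1 by ring, hxo]
            exact h2 _ _ _ (w2 i (by omega)) (w1 (i + 1) (by omega)) (w4 i (by omega)))
          (i := 0) (j := 2 * g) (by omega) le_rfl
        have e0 : x (2 * g) = x 0 := by
          rw [hxe, show (0 : ℕ) = 2 * 0 by rfl, hxe, w5]
        rw [e0] at hw
        exact no_closed hg hw (by omega))
    exact_mod_cast this
  · rintro (a | b)
    · have e : B.neighborSet (Sum.inl a) = Sum.inr '' {b | I a b} := by
        ext z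
        rw [SimpleGraph.mem_neighborSet]
        constructor
        · intro hz
          rcases z with b | b
          · exact absurd hz (hll a b)
          · exact ⟨b, (hlr a b).1 hz, rfl⟩
        · rintro ⟨b, hb, rfl⟩
          exact (hlr a b).2 hb
      rw [e, Set.ncard_image_of_injective _ Sum.inr_injective, hr]
    · have e : B.neighborSet (Sum.inr b) = Sum.inl '' {a | I a b} := by
        ext z
        rw [SimpleGraph.mem_neighborSet]
        constructor
        · intro hz
          rcases z with a | a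
          · exact ⟨a, (hlr a b).1 hz.symm, rfl⟩
          · exact absurd hz (hrr b a)
        · rintro ⟨a, ha, rfl⟩
          exact ((hlr a b).2 ha).symm
      rw [e, Set.ncard_image_of_injective _ Sum.inl_injective, hc]

/-- From a graph with more than `(q - 1) n` edges, `q` prime, to a `d`-regular bipartite graph,
`d ≤ q`. -/
theorem regular_of_dense {V : Type} [Fintype V] [DecidableEq V] (G : SimpleGraph V)
    [DecidableRel G.Adj] {k : ℕ}
    (hg : ∀ (v : V) (p : G.Walk v v), p.IsCycle → 2 * k < p.length) (q d : ℕ) (hq : q.Prime)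
    (hdq : d ≤ q) (he : (q - 1) * Fintype.card V < G.edgeFinset.card) :
    ∃ (m : ℕ) (B : SimpleGraph (Fin m ⊕ Fin m)), 0 < m ∧ m * q ≤ 2 * G.edgeFinset.card ∧
      ((2 * k : ℕ) : ℕ∞) < B.egirth ∧
      (∀ x y, ¬ B.Adj (Sum.inl x) (Sum.inl y)) ∧ (∀ x y, ¬ B.Adj (Sum.inr x) (Sum.inr y)) ∧
      ∀ z, (B.neighborSet z).ncard = d := by
  classical
  have : Fact q.Prime := ⟨hq⟩
  obtain ⟨F, hFG, ⟨a0, b0, hab⟩, hdiv⟩ := exists_mod G q he
  have hdeg : ∀ v, F.degree v = (F.neighborSet v).ncard := by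
    intro v
    rw [← F.card_neighborFinset_eq_degree, ← Set.ncard_coe_finset, F.coe_neighborFinset]
  have hdiv' : ∀ v, q ∣ F.degree v := fun v => by rw [hdeg]; exact hdiv v
  obtain ⟨W, iW, dW, E, dE, π, hcard, hsymm, hreg, hadj, hnb⟩ := split F q hq.pos hdiv'
  obtain ⟨R, dR, hRE, hR1, hR2⟩ := exists_regular_sub d (q - d) E (by
    intro a
    rw [hreg a]
    omega) (by
    intro b
    have : (univ.filter fun a => E a b) = (univ.filter fun a => E b a) := by
      ext a
      simp only [mem_filter, mem_univ, true_and]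
      exact ⟨fun h => hsymm _ _ h, fun h => hsymm _ _ h⟩
    rw [this, hreg b]
    omega)
  set m := Fintype.card W with hm
  let e : Fin m ≃ W := (Fintype.equivFin W).symm
  have hmpos : 0 < m := by
    have h1 : 0 < F.degree a0 := by
      rw [F.degree_pos_iff_exists_adj]
      exact ⟨b0, hab⟩
    have h2 : F.degree a0 ≤ ∑ v, F.degree v :=
      single_le_sum (f := fun v => F.degree v) (fun _ _ => Nat.zero_le _) (mem_univ a0)
    rw [← hcard] at h2
    exact Nat.pos_of_mul_pos_right (lt_of_lt_of_le h1 h2)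
  obtain ⟨B, hB⟩ := bip_graph G hg m d (fun a b => R (e a) (e b)) (fun a => π (e a))
    (fun a b h => hFG (hadj _ _ (hRE _ _ h)))
    (fun a b b' h h' hne => hnb _ _ _ (hRE _ _ h) (hRE _ _ h') (fun h0 => hne (e.injective h0)))
    (fun a a' b h h' hne => hnb _ _ _ (hsymm _ _ (hRE _ _ h)) (hsymm _ _ (hRE _ _ h'))
      (fun h0 => hne (e.injective h0))) (by
    intro a
    rw [← Set.ncard_image_of_injective _ e.injective, ← hR1 (e a), ← Set.ncard_coe_finset]
    congr 1
    ext w
    simp only [Set.mem_image, coe_filter, mem_univ, true_and]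
    constructor
    · rintro ⟨b, hb, rfl⟩
      exact hb
    · intro hw
      refine ⟨e.symm w, ?_, by simp⟩
      show R (e a) (e (e.symm w))
      rw [e.apply_symm_apply]
      exact hw) (by
    intro b
    rw [← Set.ncard_image_of_injective _ e.injective, ← hR2 (e b), ← Set.ncard_coe_finset]
    congr 1
    ext w
    simp only [Set.mem_image, coe_filter, mem_univ, true_and]
    constructor
    · rintro ⟨a, ha, rfl⟩
      exact ha
    · intro hw
      refine ⟨e.symm w, ?_, by simp⟩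
      show R (e (e.symm w)) (e b)
      rw [e.apply_symm_apply]
      exact hw)
  refine ⟨m, B, hmpos, ?_, hB⟩
  rw [hcard, ← G.sum_degrees_eq_twice_card_edges]
  apply sum_le_sum
  intro v _
  exact SimpleGraph.degree_le_of_le hFG

/-- The regular form: `d`-regular bipartite graphs of girth greater than `2 k` with at most
`2 C d ^ k` vertices, for all `d`. -/
def RegularForm (k : ℕ) : Prop :=
  ∃ C : ℝ, ∀ d : ℕ, 1 ≤ d → ∃ (m : ℕ) (G : SimpleGraph (Fin m ⊕ Fin m)), 0 < m ∧
    (m : ℝ) ≤ C * (d : ℝ) ^ k ∧ ((2 * k : ℕ) : ℕ∞) < G.egirth ∧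
    (∀ x y, ¬ G.Adj (Sum.inl x) (Sum.inl y)) ∧ (∀ x y, ¬ G.Adj (Sum.inr x) (Sum.inr y)) ∧
    ∀ z, (G.neighborSet z).ncard = d

theorem bipartiteForm_of_regularForm {k : ℕ} (h : RegularForm k) : BipartiteForm k := by
  obtain ⟨C, hC⟩ := h
  have hC1 : 1 ≤ C := by
    obtain ⟨m, G, hm, hm2, -⟩ := hC 1 le_rfl
    have : (1 : ℝ) ≤ m := by exact_mod_cast hm
    simp at hm2
    linarith
  refine ⟨C, fun d hd => ?_⟩
  obtain ⟨m, G, hm, hmC, hg, h1, h2, hdeg⟩ := hC d hd
  refine ⟨m, G, hm, hmC, hg, h1, h2, fun z => ?_⟩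
  rw [hdeg z]
  have : (0 : ℝ) ≤ d := Nat.cast_nonneg _
  exact ⟨le_rfl, by nlinarith⟩

/-- An upper bound for the number of edges. -/
theorem edges_le {V : Type} [Fintype V] [DecidableEq V] (G : SimpleGraph V) [DecidableRel G.Adj]
    {k : ℕ} (hk : 1 ≤ k) (hg : ∀ (v : V) (p : G.Walk v v), p.IsCycle → 2 * k < p.length) :
    2 * (G.edgeFinset.card : ℝ) ≤
      8 * Fintype.card V + 16 * (Fintype.card V : ℝ) ^ (1 + 1 / (k : ℝ)) := by
  set n : ℝ := (Fintype.card V : ℝ) with hn
  have htail := tail G hk hg 8 (by norm_num)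
  rw [← hn] at htail
  have hsum : 2 * (G.edgeFinset.card : ℝ) = ∑ v, (G.degree v : ℝ) := by
    rw [← Nat.cast_sum, G.sum_degrees_eq_twice_card_edges]
    push_cast
    rfl
  have hn0 : 0 ≤ n := Nat.cast_nonneg _
  have hrp : n ^ (1 + 1 / (k : ℝ)) = n * n ^ (1 / (k : ℝ)) := by
    rcases hn0.eq_or_lt with h | h
    · rw [← h, zero_mul, Real.zero_rpow (by positivity)]
    · rw [Real.rpow_add h, Real.rpow_one]
  rw [hsum, ← sum_filter_add_sum_filter_not univ
    (fun x => 8 * n ^ (1 / (k : ℝ)) < (G.degree x : ℝ))]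
  have h2 : ∑ x with ¬ 8 * n ^ (1 / (k : ℝ)) < (G.degree x : ℝ), (G.degree x : ℝ) ≤
      8 * n ^ (1 + 1 / (k : ℝ)) := by
    calc ∑ x with ¬ 8 * n ^ (1 / (k : ℝ)) < (G.degree x : ℝ), (G.degree x : ℝ)
        ≤ ∑ x with ¬ 8 * n ^ (1 / (k : ℝ)) < (G.degree x : ℝ), 8 * n ^ (1 / (k : ℝ)) := by
          apply sum_le_sum
          intro x hx
          rw [mem_filter] at hx
          exact not_lt.1 hx.2
      _ ≤ ∑ x : V, 8 * n ^ (1 / (k : ℝ)) := by
          apply sum_le_sum_of_subset_of_nonneg (filter_subset _ _)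
          intro x _ _
          positivity
      _ = n * (8 * n ^ (1 / (k : ℝ))) := by rw [sum_const, card_univ, nsmul_eq_mul]
      _ = _ := by rw [hrp]; ring
  have e64 : (64 : ℝ) / 8 = 8 := by norm_num
  rw [e64] at htail
  linarith

theorem regularForm_of_girthConj {k : ℕ} (hk : 1 ≤ k) (h : GirthConj k) : RegularForm k := by
  classical
  obtain ⟨c, hc, N, hN⟩ := h
  obtain ⟨t, ht⟩ := exists_nat_ge (max (2 / c) (N + 1 : ℝ))
  have ht1 : 2 / c ≤ (t : ℝ) := (le_max_left _ _).trans ht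
  have ht2 : (N : ℝ) + 1 ≤ t := (le_max_right _ _).trans ht
  have ht3 : N + 1 ≤ t := by exact_mod_cast ht2
  have htpos : (0 : ℝ) < t := by
    have : (0 : ℝ) ≤ N := Nat.cast_nonneg _
    linarith
  have ht4 : (1 : ℝ) ≤ t := by
    have : (0 : ℝ) ≤ N := Nat.cast_nonneg _
    linarith
  refine ⟨24 * (t : ℝ) ^ (k + 1), fun d hd => ?_⟩
  have hd1 : (1 : ℝ) ≤ d := by exact_mod_cast hd
  obtain ⟨q, hq, hdq, hq2⟩ := Nat.exists_prime_lt_and_le_two_mul d (by omega)
  set n : ℕ := (t * d) ^ k with hn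
  have hnpos : 0 < n := by
    rw [hn]
    exact pow_pos (Nat.mul_pos (by omega) (by omega)) k
  have hnN : n ≥ N := by
    have h1 : N ≤ t * d := by nlinarith
    exact h1.trans (Nat.le_self_pow (by omega) _)
  obtain ⟨G, hG, hE⟩ := hN n hnN
  have hnpos' : (0 : ℝ) < n := by exact_mod_cast hnpos
  have hroot : (n : ℝ) ^ (1 / (k : ℝ)) = t * d := by
    rw [hn]
    push_cast
    rw [← Real.rpow_natCast, ← Real.rpow_mul (by positivity)]
    have : (k : ℝ) * (1 / (k : ℝ)) = 1 := by
      have : (k : ℝ) ≠ 0 := by positivity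
      field_simp
    rw [this, Real.rpow_one]
  have hrp : (n : ℝ) ^ (1 + 1 / (k : ℝ)) = n * (t * d) := by
    rw [Real.rpow_add hnpos', Real.rpow_one, hroot]
  rw [hrp] at hE
  have hedge : (G.edgeFinset.card : ℝ) = (G.edgeSet.ncard : ℝ) := by
    rw [← SimpleGraph.coe_edgeFinset, Set.ncard_coe_finset]
  rw [← hedge] at hE
  have hgc := (egirth_iff G _).1 hG
  have hct : 2 ≤ c * t := by
    rw [div_le_iff₀ hc] at ht1
    linarith
  have hlow : 2 * (d : ℝ) * n ≤ (G.edgeFinset.card : ℝ) := by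
    refine le_trans ?_ hE
    have : 2 * ((n : ℝ) * d) ≤ c * t * (n * d) := mul_le_mul_of_nonneg_right hct (by positivity)
    linarith
  have hlow2 : 2 * d * n ≤ G.edgeFinset.card := by exact_mod_cast hlow
  have hlt : (q - 1) * Fintype.card (Fin n) < G.edgeFinset.card := by
    rw [Fintype.card_fin]
    have h1 : 1 ≤ q := hq.one_lt.le
    calc (q - 1) * n < q * n := Nat.mul_lt_mul_of_pos_right (by omega) hnpos
      _ ≤ 2 * d * n := Nat.mul_le_mul_right _ hq2
      _ ≤ _ := hlow2
  obtain ⟨m, B, hm, hmq, hB⟩ := regular_of_dense G hgc q d hq hdq.le hlt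
  refine ⟨m, B, hm, ?_, hB⟩
  have hup := edges_le G hk hgc
  rw [Fintype.card_fin, hrp] at hup
  have htd : (1 : ℝ) ≤ t * d := by nlinarith
  have hup2 : 2 * (G.edgeFinset.card : ℝ) ≤ 24 * (n * (t * d)) := by
    have : (n : ℝ) * 1 ≤ n * (t * d) := mul_le_mul_of_nonneg_left htd hnpos'.le
    linarith
  have hmq' : (m : ℝ) * q ≤ 2 * (G.edgeFinset.card : ℝ) := by exact_mod_cast hmq
  have hqd : (d : ℝ) ≤ q := by exact_mod_cast hdq.le
  have hmd : (m : ℝ) * d ≤ 24 * (n * t) * d := by
    calc (m : ℝ) * d ≤ m * q := mul_le_mul_of_nonneg_left hqd (Nat.cast_nonneg _)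
      _ ≤ 24 * (n * (t * d)) := hmq'.trans hup2
      _ = _ := by ring
  have hm2 : (m : ℝ) ≤ 24 * (n * t) := le_of_mul_le_mul_right hmd (by linarith)
  refine hm2.trans (le_of_eq ?_)
  rw [hn]
  push_cast
  ring

theorem girthConj_iff_regular {k : ℕ} (hk : 1 ≤ k) : GirthConj k ↔ RegularForm k :=
  ⟨fun h => regularForm_of_girthConj hk h, fun h => girthConj_of_almostRegularForm hk
    (almostRegularForm_of_bipartiteForm (bipartiteForm_of_regularForm h))⟩

end Pool.TH815.GR
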