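import Pool.Agent.H35.XL.TH815_GR5
import Pool.Agent.H35.XL.H258R2_GU_Cop

/-!
# The girth conjecture in almost regular form
-/

set_option autoImplicit false

open Finset

namespace Pool.TH815.GR

theorem egirth_iff {V : Type*} (G : SimpleGraph V) (k : ℕ) :
    ((k : ℕ) : ℕ∞) < G.egirth ↔ ∀ (v : V) (p : G.Walk v v), p.IsCycle → k < p.length := by
  rw [← ENat.add_one_le_iff (ENat.natCast_ne_top k), SimpleGraph.le_egirth]
  constructor
  · intro h v p hp
    have := h v p hp
    have h2 : ((k + 1 : ℕ) : ℕ∞) ≤ (p.length : ℕ∞) := by exact_mod_cast this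
    have h3 : k + 1 ≤ p.length := by exact_mod_cast h2
    omega
  · intro h v p hp
    have := h v p hp
    have h2 : k + 1 ≤ p.length := by omega
    exact_mod_cast h2

/-- The girth conjecture for the parameter `k`. -/
def GirthConj (k : ℕ) : Prop :=
  ∃ c : ℝ, 0 < c ∧ ∃ N : ℕ, ∀ n ≥ N, ∃ G : SimpleGraph (Fin n),
    ((2 * k : ℕ) : ℕ∞) < G.egirth ∧ c * (n : ℝ) ^ (1 + 1 / (k : ℝ)) ≤ (G.edgeSet.ncard : ℝ)

/-- The almost regular form: graphs of girth greater than `2 k` with at most `C d ^ k` vertices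
and all degrees between `d` and `C d`, for all `d`. -/
def AlmostRegularForm (k : ℕ) : Prop :=
  ∃ C : ℝ, ∀ d : ℕ, 1 ≤ d → ∃ (m : ℕ) (G : SimpleGraph (Fin m)), 0 < m ∧
    (m : ℝ) ≤ C * (d : ℝ) ^ k ∧ ((2 * k : ℕ) : ℕ∞) < G.egirth ∧
    ∀ x, (d : ℝ) ≤ ((G.neighborSet x).ncard : ℝ) ∧ ((G.neighborSet x).ncard : ℝ) ≤ C * d

theorem almostRegularForm_of_girthConj {k : ℕ} (hk : 1 ≤ k) (h : GirthConj k) :
    AlmostRegularForm k := by
  classical
  obtain ⟨c, hc, N, hN⟩ := h
  obtain ⟨t, ht⟩ := exists_nat_ge (max (32 / c) (N + 1 : ℝ))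
  have ht1 : 32 / c ≤ (t : ℝ) := (le_max_left _ _).trans ht
  have ht2 : (N : ℝ) + 1 ≤ t := (le_max_right _ _).trans ht
  have ht3 : N + 1 ≤ t := by exact_mod_cast ht2
  have htpos : (0 : ℝ) < t := by
    have : (0 : ℝ) ≤ N := Nat.cast_nonneg _
    linarith
  refine ⟨max ((t : ℝ) ^ k) (256 / c * t), fun d hd => ?_⟩
  have hd1 : (1 : ℝ) ≤ d := by exact_mod_cast hd
  set n : ℕ := (t * d) ^ k with hn
  have hnN : n ≥ N := by
    have h1 : N ≤ t * d := by nlinarith
    exact h1.trans (Nat.le_self_pow (by omega) _)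
  obtain ⟨G, hG, hE⟩ := hN n hnN
  have hroot : (n : ℝ) ^ (1 / (k : ℝ)) = t * d := by
    rw [hn]
    push_cast
    rw [← Real.rpow_natCast, ← Real.rpow_mul (by positivity)]
    have : (k : ℝ) * (1 / (k : ℝ)) = 1 := by
      have : (k : ℝ) ≠ 0 := by positivity
      field_simp
    rw [this, Real.rpow_one]
  have hcard : ((Fintype.card (Fin n) : ℕ) : ℝ) = n := by rw [Fintype.card_fin]
  have hedge : (G.edgeFinset.card : ℝ) = (G.edgeSet.ncard : ℝ) := by
    rw [← SimpleGraph.coe_edgeFinset, Set.ncard_coe_finset]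
  obtain ⟨U, hU, hdeg⟩ := almost_regular G hk ((egirth_iff G _).1 hG) c hc
    (by rw [hcard, hroot]; nlinarith) (by rw [hcard, hedge]; exact hE)
  rw [hcard] at hU hdeg
  rw [hroot] at hdeg
  have hnpos : (0 : ℝ) < n := by
    have : 0 < n := by
      rw [hn]
      exact pow_pos (Nat.mul_pos (by omega) (by omega)) k
    exact_mod_cast this
  have hUpos : 0 < U.card := by
    have : (0 : ℝ) < U.card := lt_of_lt_of_le (by positivity) hU
    exact_mod_cast this
  set φ := U.orderEmbOfFin rfl with hφ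
  have hφU : ∀ i, φ i ∈ U := fun i => U.orderEmbOfFin_mem rfl i
  have hnb : ∀ i, ((G.comap φ).neighborSet i).ncard = (U.filter fun y => G.Adj (φ i) y).card := by
    intro i
    have e : φ '' ((G.comap φ).neighborSet i) = ((U.filter fun y => G.Adj (φ i) y : Finset _) :
        Set (Fin n)) := by
      ext y
      simp only [Set.mem_image, SimpleGraph.mem_neighborSet, SimpleGraph.comap_adj, coe_filter,
        Set.mem_setOf_eq]
      constructor
      · rintro ⟨j, hj, rfl⟩
        exact ⟨hφU j, hj⟩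
      · rintro ⟨hy, hadj⟩
        have : y ∈ Set.range φ := by
          rw [hφ, range_orderEmbOfFin]
          exact hy
        obtain ⟨j, rfl⟩ := this
        exact ⟨j, hadj, rfl⟩
    rw [← Set.ncard_image_of_injective _ φ.injective, e, Set.ncard_coe_finset]
  refine ⟨U.card, G.comap φ, hUpos, ?_, ?_, fun i => ⟨?_, ?_⟩⟩
  · have h1 : U.card ≤ n := by
      have := card_le_univ U
      rwa [Fintype.card_fin] at this
    calc (U.card : ℝ) ≤ n := by exact_mod_cast h1
      _ = (t : ℝ) ^ k * (d : ℝ) ^ k := by rw [hn]; push_cast; rw [mul_pow]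
      _ ≤ _ := mul_le_mul_of_nonneg_right (le_max_left _ _) (by positivity)
  · refine lt_of_lt_of_le hG ?_
    exact SimpleGraph.IsContained.egirth_le
      ⟨(SimpleGraph.Embedding.comap φ.toEmbedding G).toCopy⟩
  · rw [hnb]
    refine le_trans ?_ (hdeg _ (hφU i)).1
    have : 1 ≤ c / 4 * t := by
      rw [div_le_iff₀ hc] at ht1
      nlinarith
    nlinarith
  · rw [hnb]
    calc ((U.filter fun y => G.Adj (φ i) y).card : ℝ) ≤ (G.degree (φ i) : ℝ) := by
          rw [← G.card_neighborFinset_eq_degree]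
          apply Nat.cast_le.2
          apply card_le_card
          intro y hy
          rw [mem_filter] at hy
          simpa using hy.2
      _ ≤ 256 / c * (t * d) := (hdeg _ (hφU i)).2
      _ = 256 / c * t * d := by ring
      _ ≤ _ := mul_le_mul_of_nonneg_right (le_max_right _ _) (by positivity)

theorem girthConj_of_almostRegularForm {k : ℕ} (hk : 1 ≤ k) (h : AlmostRegularForm k) :
    GirthConj k := by
  classical
  obtain ⟨C, hC⟩ := h
  have hC0 : 0 < C := by
    obtain ⟨m, G, hm, hm2, -⟩ := hC 1 le_rfl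
    have : (0 : ℝ) < m := by exact_mod_cast hm
    simp at hm2
    linarith
  have hkpos : (0 : ℝ) < k := by exact_mod_cast hk
  refine ⟨1 / (8 * C ^ (1 / (k : ℝ))), by positivity, ⌈C⌉₊ , fun n hn => ?_⟩
  have hnC : C ≤ n := (Nat.le_ceil C).trans (by exact_mod_cast hn)
  have hn0 : (0 : ℝ) < n := hC0.trans_le hnC
  set r : ℝ := (n / C) ^ (1 / (k : ℝ)) with hr
  have hr1 : 1 ≤ r := Real.one_le_rpow (by rw [le_div_iff₀ hC0]; linarith) (by positivity)
  have hrk : r ^ k = n / C := by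
    rw [hr, ← Real.rpow_natCast, ← Real.rpow_mul (by positivity)]
    have : (1 / (k : ℝ)) * (k : ℝ) = 1 := by
      field_simp
    rw [this, Real.rpow_one]
  set d : ℕ := ⌊r⌋₊ with hd
  have hd1 : 1 ≤ d := by
    rw [hd, Nat.le_floor_iff (by linarith)]
    exact_mod_cast hr1
  have hdr : (d : ℝ) ≤ r := Nat.floor_le (by linarith)
  have hdr2 : r / 2 ≤ d := by
    have h1 : r < d + 1 := Nat.lt_floor_add_one r
    have h2 : (1 : ℝ) ≤ d := by exact_mod_cast hd1
    linarith
  obtain ⟨m, G, hm, hmC, hg, hdeg⟩ := hC d hd1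
  have hmn : m ≤ n := by
    have : (m : ℝ) ≤ n := by
      calc (m : ℝ) ≤ C * (d : ℝ) ^ k := hmC
        _ ≤ C * r ^ k := by gcongr
        _ = n := by rw [hrk]; field_simp
    exact_mod_cast this
  obtain ⟨H, hH, hHe⟩ := GU4.copies m n d (((2 * k : ℕ) : ℕ∞) + 1) hm hmn G (by
    intro v
    have := (hdeg v).1
    have e : (G.neighborSet v).ncard = G.degree v := by
      rw [← G.card_neighborFinset_eq_degree, ← Set.ncard_coe_finset]
      congr 1
      ext y
      simp
    rw [e] at this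
    exact_mod_cast this) (by
    rw [ENat.add_one_le_iff (ENat.natCast_ne_top _)]
    exact hg)
  rw [ENat.add_one_le_iff (ENat.natCast_ne_top _)] at hH
  refine ⟨H, hH, ?_⟩
  have h1 : (n : ℝ) * d ≤ 4 * (H.edgeSet.ncard : ℝ) := by exact_mod_cast hHe
  have h2 : (n : ℝ) ^ (1 + 1 / (k : ℝ)) = n * (n : ℝ) ^ (1 / (k : ℝ)) := by
    rw [Real.rpow_add hn0, Real.rpow_one]
  have h3 : r = (n : ℝ) ^ (1 / (k : ℝ)) / C ^ (1 / (k : ℝ)) := by
    rw [hr, Real.div_rpow hn0.le hC0.le]
  have h4 : 1 / (8 * C ^ (1 / (k : ℝ))) * (n : ℝ) ^ (1 + 1 / (k : ℝ)) = n * (r / 2) / 4 := by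
    rw [h2, h3]
    have : C ^ (1 / (k : ℝ)) ≠ 0 := by positivity
    field_simp
    norm_num
  rw [h4]
  nlinarith

end Pool.TH815.GR
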